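import Mathlib

/-!
# An uncountable almost disjoint family
-/

namespace Pool.Agent.Work.MP_c629c8_al

open Cardinal

/-- the initial segments of a sequence of bits, as a set of natural numbers -/
def segs (r : ℕ → Bool) : Set ℕ := Set.range fun n => Encodable.encode (List.ofFn fun i : Fin n => r i)

lemma segs_code_inj {r s : ℕ → Bool} {m n : ℕ}
    (h : Encodable.encode (List.ofFn fun i : Fin m => r i) =
      Encodable.encode (List.ofFn fun i : Fin n => s i)) : m = n ∧ ∀ i < m, r i = s i := by
  have h1 := Encodable.encode_injective h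
  have h2 : m = n := by simpa using congrArg List.length h1
  subst h2
  refine ⟨rfl, fun i hi => ?_⟩
  have h3 := List.ofFn_injective h1
  exact congrFun h3 ⟨i, hi⟩

lemma segs_infinite (r : ℕ → Bool) : (segs r).Infinite :=
  Set.infinite_range_of_injective fun _ _ h => (segs_code_inj h).1

lemma segs_inter_finite {r s : ℕ → Bool} (h : r ≠ s) : (segs r ∩ segs s).Finite := by
  obtain ⟨k, hk⟩ := Function.ne_iff.1 h
  refine ((Set.finite_Iic k).image
    (fun n => Encodable.encode (List.ofFn fun i : Fin n => r i))).subset ?_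
  rintro _ ⟨⟨m, rfl⟩, ⟨n, hn⟩⟩
  refine ⟨m, ?_, rfl⟩
  by_contra hm
  rw [Set.mem_Iic, not_le] at hm
  obtain ⟨h1, h2⟩ := segs_code_inj hn
  subst h1
  exact hk (h2 k hm).symm

/-- In an uncountable set there are a sequence and, outside its range, an uncountable subset that
indexes an almost disjoint family of infinite sets of natural numbers. -/
theorem exists_ad (I : Type*) [Uncountable I] : ∃ (ι : ℕ → I) (J : Set I) (A : I → Set ℕ),
    Function.Injective ι ∧ (∀ n, ι n ∉ J) ∧ ¬ J.Countable ∧ (∀ α ∈ J, (A α).Infinite) ∧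
    (∀ α ∈ J, ∀ β ∈ J, α ≠ β → (A α ∩ A β).Finite) := by
  classical
  let ι : ℕ ↪ I := Infinite.natEmbedding I
  have hunc : ¬ ((Set.range ι)ᶜ : Set I).Countable := by
    intro h
    have := h.union (Set.countable_range ι)
    rw [Set.compl_union_self] at this
    exact Set.not_countable_univ this
  have h1 : ℵ₁ ≤ #((Set.range ι)ᶜ : Set I) := by
    rw [aleph_one_le_iff]
    by_contra h
    rw [not_lt, Cardinal.le_aleph0_iff_set_countable] at h
    exact hunc h
  obtain ⟨S, hS⟩ := le_mk_iff_exists_set.1 h1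
  have h2 : Cardinal.lift.{0} #S ≤ Cardinal.lift #(ℕ → Bool) := by
    have h3 : #(ℕ → Bool) = 𝔠 := by simp
    rw [hS, h3]
    simpa using aleph_one_le_continuum
  obtain ⟨e⟩ := Cardinal.lift_mk_le'.1 h2
  let J : Set I := Subtype.val '' S
  let R : I → (ℕ → Bool) := fun i => if h : ∃ s : S, s.1.1 = i then e h.choose else fun _ => true
  have hR : ∀ s : S, R s.1.1 = e s := by
    intro s
    have h : ∃ t : S, t.1.1 = s.1.1 := ⟨s, rfl⟩
    simp only [R, dif_pos h]
    congr 1
    exact Subtype.ext (Subtype.ext h.choose_spec)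
  refine ⟨ι, J, fun i => segs (R i), ι.injective, ?_, ?_, ?_, ?_⟩
  · rintro n ⟨s, -, hs⟩
    exact s.2 ⟨n, hs.symm⟩
  · intro h
    have h4 : S.Countable := Set.countable_of_injective_of_countable_image
      Subtype.val_injective.injOn h
    rw [← Cardinal.le_aleph0_iff_set_countable, hS] at h4
    exact absurd h4 (not_le.2 aleph0_lt_aleph_one)
  · intro α _
    exact segs_infinite _
  · rintro _ ⟨s, hs, rfl⟩ _ ⟨t, ht, rfl⟩ hst
    apply segs_inter_finite
    have h5 := hR ⟨s, hs⟩
    have h6 := hR ⟨t, ht⟩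
    intro h7
    have h8 : e ⟨s, hs⟩ = e ⟨t, ht⟩ := by
      rw [← h5, ← h6]
      exact h7
    have h9 := e.injective h8
    apply hst
    have h10 := congrArg Subtype.val h9
    exact congrArg Subtype.val h10

end Pool.Agent.Work.MP_c629c8_al
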