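import Mathlib

/-!
# Reflexive, semireflexive and strongly reflexive topological abelian groups
-/

namespace Pool.Agent.Work.MP_c629c8_al

/-- The dual group of a topological abelian group `G`: the continuous homomorphisms from `G` to
`ℝ ⧸ ℤ`, with the compact-open topology. -/
abbrev Dual (G : Type*) [AddCommGroup G] [TopologicalSpace G] : Type _ := G →ₜ+ UnitAddCircle

section

variable (G : Type*) [AddCommGroup G] [TopologicalSpace G]

/-- The evaluation map `η_G : G → G^^`, `η_G(g)(χ) = χ(g)`. -/
def eta (g : G) : Dual (Dual G) where
  toFun χ := χ g
  map_zero' := rfl
  map_add' _ _ := rfl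
  continuous_toFun := ContinuousEvalConst.continuous_eval_const g

/-- `G` is semireflexive if `η_G` is bijective. -/
def IsSemireflexive : Prop := Function.Bijective (eta G)

/-- `G` is reflexive if `η_G` is an isomorphism of topological groups (it is always a
homomorphism, so this means that it is a homeomorphism). -/
def IsReflexive : Prop := IsHomeomorph (eta G)

/-- `G` is strongly reflexive if all its closed subgroups and all its Hausdorff quotients are
reflexive. -/
def StronglyReflexive : Prop :=
  ∀ H : AddSubgroup G, IsClosed (H : Set G) → IsReflexive H ∧ IsReflexive (G ⧸ H)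

end

end Pool.Agent.Work.MP_c629c8_al
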