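import Mathlib
import Pool.Agent.Work.MP_c629c8_al.Defs

/-!
# The circle group, and characters with prescribed values
-/

namespace Pool.Agent.Work.MP_c629c8_al

open Topology

/-- if the first `m` multiples of `t` are small then `t` is very small -/
lemma nsmul_small {t : UnitAddCircle} {r : ℝ} (hr : r ≤ 1 / 4) (m : ℕ)
    (h : ∀ j ≤ m, ‖j • t‖ < r) : m * ‖t‖ < r := by
  obtain ⟨x, hx, hxt⟩ : ∃ x : ℝ, |x| ≤ 1 / 2 ∧ (x : UnitAddCircle) = t := by
    obtain ⟨x, rfl⟩ := QuotientAddGroup.mk_surjective t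
    refine ⟨x - round x, abs_sub_round x, ?_⟩
    have : ((round x : ℝ) : UnitAddCircle) = 0 := by
      rw [AddCircle.coe_eq_zero_iff]
      exact ⟨round x, by simp⟩
    rw [AddCircle.coe_sub, this, sub_zero]
  have hn : ‖t‖ = |x| := by
    rw [← hxt, AddCircle.norm_coe_eq_abs_iff]
    · simpa using hx
    · norm_num
  induction m with
  | zero => simpa using h 0 le_rfl
  | succ m ih =>
    have h1 := ih (fun j hj => h j (by omega))
    have h2 : ((m + 1 : ℕ) : ℝ) * |x| ≤ 1 / 2 := by
      rcases Nat.eq_zero_or_pos m with rfl | hm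
      · simpa using hx
      · have h3 : (1 : ℝ) ≤ m := by exact_mod_cast hm
        have h4 : |x| ≤ m * |x| := by nlinarith [abs_nonneg x]
        rw [hn] at h1
        push_cast
        nlinarith
    have h5 : ‖(m + 1) • t‖ = |((m + 1 : ℕ) : ℝ) * x| := by
      rw [← hxt, ← AddCircle.coe_nsmul, nsmul_eq_mul, AddCircle.norm_coe_eq_abs_iff]
      · rw [abs_mul, Nat.abs_cast]
        simpa using h2
      · norm_num
    have h6 := h (m + 1) le_rfl
    rw [h5, abs_mul, Nat.abs_cast] at h6
    rw [hn]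
    exact h6

/-- there are no small subgroups in the circle -/
lemma eq_zero_of_small {t : UnitAddCircle} (h : ∀ j : ℕ, ‖j • t‖ < 1 / 4) : t = 0 := by
  by_contra ht
  have h0 : 0 < ‖t‖ := norm_pos_iff.2 ht
  obtain ⟨m, hm⟩ := exists_nat_gt (1 / ‖t‖)
  have := nsmul_small le_rfl m (fun j _ => h j)
  rw [div_lt_iff₀ h0] at hm
  linarith

lemma exists_large_nsmul {t : UnitAddCircle} (ht : t ≠ 0) : ∃ j : ℕ, 1 / 4 ≤ ‖j • t‖ := by
  by_contra h
  push Not at h
  exact ht (eq_zero_of_small h)

/-- homomorphisms to the circle extend -/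
lemma exists_extension {A B : Type*} [AddCommGroup A] [AddCommGroup B] (f : A →+ B)
    (hf : Function.Injective f) (g : A →+ UnitAddCircle) :
    ∃ h : B →+ UnitAddCircle, ∀ a, h (f a) = g a := by
  obtain ⟨h, hh⟩ := (Module.Baer.of_divisible UnitAddCircle).extension_property_addMonoidHom
    f hf g
  exact ⟨h, fun a => DFunLike.congr_fun hh a⟩

/-- from the rational circle to the real circle -/
noncomputable def ratCircle : AddCircle (1 : ℚ) →+ UnitAddCircle :=
  QuotientAddGroup.map _ _ (Rat.castHom ℝ).toAddMonoidHom (by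
    rintro _ ⟨n, rfl⟩
    exact ⟨n, by simp⟩)

lemma ratCircle_injective : Function.Injective ratCircle := by
  rw [injective_iff_map_eq_zero]
  intro a ha
  obtain ⟨q, rfl⟩ := QuotientAddGroup.mk_surjective a
  have h : ((q : ℝ) : UnitAddCircle) = 0 := ha
  rw [AddCircle.coe_eq_zero_iff] at h
  obtain ⟨n, hn⟩ := h
  rw [QuotientAddGroup.eq_zero_iff]
  refine ⟨n, ?_⟩
  simp only [zsmul_eq_mul, mul_one] at hn ⊢
  exact_mod_cast hn

/-- characters separate the points of a discrete group -/
lemma exists_char_ne_zero {A : Type*} [AddCommGroup A] {a : A} (ha : a ≠ 0) :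
    ∃ f : A →+ UnitAddCircle, f a ≠ 0 := by
  obtain ⟨c, hc⟩ := CharacterModule.exists_character_apply_ne_zero_of_ne_zero ha
  refine ⟨ratCircle.comp c, fun h => hc ?_⟩
  exact (injective_iff_map_eq_zero ratCircle).1 ratCircle_injective _ h

section

variable {G : Type*} [AddCommGroup G] [TopologicalSpace G]

/-- a homomorphism that vanishes on an open subgroup is continuous -/
lemma continuous_of_open_ker [IsTopologicalAddGroup G] {H : Type*} [AddCommGroup H]
    [TopologicalSpace H] [IsTopologicalAddGroup H] (f : G →+ H) (V : OpenAddSubgroup G)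
    (hV : ∀ x ∈ V, f x = 0) : Continuous f := by
  apply continuous_of_continuousAt_zero f
  rw [ContinuousAt, map_zero]
  refine tendsto_nhds_of_eventually_eq ?_
  filter_upwards [V.mem_nhds_zero] with x hx using hV x hx

/-- characters separate points from open subgroups -/
lemma exists_dual_ne_zero [IsTopologicalAddGroup G] (V : OpenAddSubgroup G) {x : G}
    (hx : x ∉ V) : ∃ χ : Dual G, (∀ v ∈ V, χ v = 0) ∧ χ x ≠ 0 := by
  have h : (QuotientAddGroup.mk x : G ⧸ (V : AddSubgroup G)) ≠ 0 := by
    rwa [Ne, QuotientAddGroup.eq_zero_iff]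
  obtain ⟨f, hf⟩ := exists_char_ne_zero h
  have hV : ∀ v ∈ V, f.comp (QuotientAddGroup.mk' (V : AddSubgroup G)) v = 0 := by
    intro v hv
    have : (QuotientAddGroup.mk v : G ⧸ (V : AddSubgroup G)) = 0 := by
      rwa [QuotientAddGroup.eq_zero_iff]
    show f (QuotientAddGroup.mk v) = 0
    rw [this, map_zero]
  exact ⟨⟨f.comp (QuotientAddGroup.mk' (V : AddSubgroup G)),
    continuous_of_open_ker _ V hV⟩, hV, hf⟩

/-- a character vanishes on the subgroups in a neighbourhood of zero -/
lemma exists_nhds_vanish (χ : Dual G) : ∃ U ∈ 𝓝 (0 : G), ∀ S : AddSubgroup G, (S : Set G) ⊆ U →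
    ∀ x ∈ S, χ x = 0 := by
  refine ⟨χ ⁻¹' Metric.ball 0 (1 / 4), ?_, fun S hS x hx => eq_zero_of_small fun j => ?_⟩
  · apply χ.continuous_toFun.continuousAt.preimage_mem_nhds
    have : (χ.toFun 0 : UnitAddCircle) = 0 := map_zero χ
    rw [this]
    exact Metric.ball_mem_nhds _ (by norm_num)
  · have := hS (S.nsmul_mem hx j)
    rw [Set.mem_preimage, mem_ball_zero_iff, map_nsmul] at this
    exact this

lemma exists_open_ker [NonarchimedeanAddGroup G] (χ : Dual G) :
    ∃ V : OpenAddSubgroup G, ∀ x ∈ V, χ x = 0 := by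
  obtain ⟨U, hU, h⟩ := exists_nhds_vanish χ
  obtain ⟨V, hV⟩ := NonarchimedeanAddGroup.is_nonarchimedean U hU
  exact ⟨V, h V hV⟩

/-- `η` as a homomorphism -/
def etaHom (G : Type*) [AddCommGroup G] [TopologicalSpace G] : G →+ Dual (Dual G) where
  toFun := eta G
  map_zero' := by
    ext χ
    exact map_zero χ
  map_add' x y := by
    ext χ
    exact map_add χ x y

lemma etaHom_apply (g : G) : etaHom G g = eta G g := rfl

lemma eta_apply (g : G) (χ : Dual G) : eta G g χ = χ g := rfl

end

end Pool.Agent.Work.MP_c629c8_al
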