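import Mathlib
import Pool.Agent.Work.MP_c629c8_al.AD
import Pool.Agent.Work.MP_c629c8_al.Basic

/-!
# Quotients of uncountable powers that are not semireflexive
-/

namespace Pool.Agent.Work.MP_c629c8_al

open Topology Classical

/-- a strictly decreasing sequence of dually closed subgroups, the first one being countable -/
structure Chain (L : Type*) [AddCommGroup L] [TopologicalSpace L] where
  /-- the subgroups -/
  B : ℕ → AddSubgroup L
  anti : Antitone B
  /-- the points that witness strictness -/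
  b : ℕ → L
  b_mem : ∀ n, b n ∈ B n
  b_not : ∀ n, b n ∉ B (n + 1)
  countable : (B 0 : Set L).Countable
  sep : ∀ n, ∀ y ∉ B n, ∃ χ : Dual L, (∀ v ∈ B n, χ v = 0) ∧ χ y ≠ 0

section

variable {L : Type*} [AddCommGroup L] [TopologicalSpace L] (C : Chain L)
  {I : Type*} (ι : ℕ → I) (J : Set I) (A : I → Set ℕ)

namespace Chain

lemma isClosed_B [IsTopologicalAddGroup L] (n : ℕ) : IsClosed (C.B n : Set L) := by
  have : (C.B n : Set L) = ⋂ χ ∈ {χ : Dual L | ∀ v ∈ C.B n, χ v = 0}, χ ⁻¹' {0} := by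
    ext y
    simp only [Set.mem_iInter, Set.mem_preimage, Set.mem_singleton_iff]
    constructor
    · intro hy χ hχ
      exact hχ y hy
    · intro h
      by_contra hy
      obtain ⟨χ, h1, h2⟩ := C.sep n y hy
      exact h2 (h χ h1)
  rw [this]
  refine isClosed_biInter fun χ _ => ?_
  exact isClosed_singleton.preimage χ.continuous_toFun

/-- the closed subgroup -/
def H : AddSubgroup (I → L) where
  carrier := {x | (∀ i, x i ∈ C.B 0) ∧ (∀ k, x (ι k) ∈ C.B k) ∧
    ∀ α ∈ J, ∀ n, x α - ∑ k ∈ (Finset.range n).filter (fun k => k ∈ A α), x (ι k) ∈ C.B n}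
  zero_mem' := by
    refine ⟨fun i => (C.B 0).zero_mem, fun k => (C.B k).zero_mem, fun α _ n => ?_⟩
    simp
  add_mem' := by
    rintro x y ⟨hx1, hx2, hx3⟩ ⟨hy1, hy2, hy3⟩
    refine ⟨fun i => (C.B 0).add_mem (hx1 i) (hy1 i), fun k => (C.B k).add_mem (hx2 k) (hy2 k),
      fun α hα n => ?_⟩
    have := (C.B n).add_mem (hx3 α hα n) (hy3 α hα n)
    convert this using 1
    simp only [Pi.add_apply, Finset.sum_add_distrib]
    abel
  neg_mem' := by
    rintro x ⟨hx1, hx2, hx3⟩
    refine ⟨fun i => (C.B 0).neg_mem (hx1 i), fun k => (C.B k).neg_mem (hx2 k),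
      fun α hα n => ?_⟩
    have := (C.B n).neg_mem (hx3 α hα n)
    convert this using 1
    simp only [Pi.neg_apply, Finset.sum_neg_distrib]
    abel

lemma mem_H {x : I → L} : x ∈ C.H ι J A ↔ (∀ i, x i ∈ C.B 0) ∧ (∀ k, x (ι k) ∈ C.B k) ∧
    ∀ α ∈ J, ∀ n, x α - ∑ k ∈ (Finset.range n).filter (fun k => k ∈ A α), x (ι k) ∈ C.B n :=
  Iff.rfl

lemma isClosed_H [IsTopologicalAddGroup L] : IsClosed (C.H ι J A : Set (I → L)) := by
  have : (C.H ι J A : Set (I → L)) = {x | ∀ i, x i ∈ C.B 0} ∩ ({x | ∀ k, x (ι k) ∈ C.B k} ∩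
    {x | ∀ α ∈ J, ∀ n, x α - ∑ k ∈ (Finset.range n).filter (fun k => k ∈ A α), x (ι k) ∈ C.B n}) :=
    rfl
  rw [this]
  refine IsClosed.inter ?_ (IsClosed.inter ?_ ?_)
  · rw [Set.ofPred_forall]
    exact isClosed_iInter fun i => (C.isClosed_B 0).preimage (continuous_apply i)
  · rw [Set.ofPred_forall]
    exact isClosed_iInter fun k => (C.isClosed_B k).preimage (continuous_apply (ι k))
  · simp only [Set.ofPred_forall]
    refine isClosed_iInter fun α => isClosed_iInter fun _ => isClosed_iInter fun n => ?_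
    refine (C.isClosed_B n).preimage (f := fun x : I → L => x α -
      ∑ k ∈ (Finset.range n).filter (fun k => k ∈ A α), x (ι k)) ?_
    exact (continuous_apply α).sub (continuous_finsetSum _ fun k _ => continuous_apply (ι k))

/-- the sequence of points -/
noncomputable def pt (n : ℕ) : I → L := fun i =>
  if i ∈ J then ∑ k ∈ (Finset.range n).filter (fun k => k + 1 ∈ A i), C.b k else 0

/-- the differences of the points -/
noncomputable def dl (n : ℕ) : I → L := fun i => if i ∈ J ∧ n + 1 ∈ A i then C.b n else 0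

lemma pt_eq (n : ℕ) : C.pt J A n = ∑ m ∈ Finset.range n, C.dl J A m := by
  ext i
  rw [Finset.sum_apply]
  unfold pt dl
  by_cases hi : i ∈ J
  · rw [if_pos hi, Finset.sum_filter]
    exact Finset.sum_congr rfl fun k _ => by simp [hi]
  · rw [if_neg hi]
    exact (Finset.sum_eq_zero fun k _ => by simp [hi]).symm

/-- elements of `H` -/
noncomputable def elemH (k : ℕ) (v : L) : I → L := fun i =>
  if i ∈ J then (if k ∈ A i then v else 0) else (if i = ι k then v else 0)

lemma elemH_mem (hι : Function.Injective ι) (hιJ : ∀ n, ι n ∉ J) {k : ℕ} {v : L}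
    (hv : v ∈ C.B k) : elemH ι J A k v ∈ C.H ι J A := by
  have hv0 : v ∈ C.B 0 := C.anti (Nat.zero_le k) hv
  have hval : ∀ k', elemH ι J A k v (ι k') = if k' = k then v else 0 := by
    intro k'
    unfold elemH
    rw [if_neg (hιJ k')]
    by_cases h : k' = k
    · rw [if_pos h, if_pos (by rw [h])]
    · rw [if_neg h, if_neg fun h' => h (hι h')]
  refine ⟨fun i => ?_, fun k' => ?_, fun α hα n => ?_⟩
  · unfold elemH
    split_ifs
    all_goals first | exact hv0 | exact (C.B 0).zero_mem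
  · rw [hval]
    split_ifs with h
    · rw [h]
      exact hv
    · exact (C.B k').zero_mem
  · simp only [hval]
    rw [Finset.sum_ite_eq' ]
    unfold elemH
    rw [if_pos hα]
    by_cases h1 : k ∈ A α
    · by_cases h2 : k < n
      · simp [h1, h2]
      · have : v ∈ C.B n := C.anti (not_lt.1 h2) hv
        simpa [h1, h2] using this
    · simp [h1]

variable (hι : Function.Injective ι) (hιJ : ∀ n, ι n ∉ J) (hA : ∀ α ∈ J, (A α).Infinite)
  (hAA : ∀ α ∈ J, ∀ β ∈ J, α ≠ β → (A α ∩ A β).Finite)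

include hι hιJ hA hAA

/-- the differences tend to zero modulo `H` -/
lemma dl_small (F : Finset I) : ∃ n₀, ∀ n, n₀ ≤ n → ∃ h ∈ C.H ι J A, ∀ i ∈ F,
    h i = C.dl J A n i := by
  -- a bound
  obtain ⟨m, hm1, hm2⟩ : ∃ m : ℕ, (∀ k, ι k ∈ F → k < m) ∧
      ∀ α ∈ F, α ∈ J → ∀ β ∈ F, β ∈ J → α ≠ β → ∀ k ∈ A α ∩ A β, k < m := by
    have h1 : {k | ι k ∈ F}.Finite := F.finite_toSet.preimage hι.injOn
    have h2 : (⋃ p ∈ ((F ×ˢ F : Finset (I × I)) : Set (I × I)) ∩
        {p | p.1 ∈ J ∧ p.2 ∈ J ∧ p.1 ≠ p.2}, A p.1 ∩ A p.2).Finite := by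
      apply Set.Finite.biUnion ((Finset.finite_toSet _).inter_of_left _)
      rintro ⟨α, β⟩ ⟨-, h1, h2, h3⟩
      exact hAA α h1 β h2 h3
    obtain ⟨M, hM⟩ := (h1.union h2).bddAbove
    refine ⟨M + 1, fun k hk => Nat.lt_succ_of_le (hM (Or.inl hk)), ?_⟩
    intro α hα hαJ β hβ hβJ hne k hk
    refine Nat.lt_succ_of_le (hM (Or.inr ?_))
    simp only [Set.mem_iUnion]
    exact ⟨(α, β), ⟨by simp [hα, hβ], hαJ, hβJ, hne⟩, hk⟩
  -- the elements `k_α`
  have hk : ∀ α : I, ∃ k, α ∈ J → m ≤ k ∧ k ∈ A α := by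
    intro α
    by_cases hα : α ∈ J
    · obtain ⟨k, hk, hmk⟩ := (hA α hα).exists_gt m
      exact ⟨k, fun _ => ⟨hmk.le, hk⟩⟩
    · exact ⟨0, fun h => absurd h hα⟩
  choose κ hκ using hk
  refine ⟨F.sup κ, fun n hn => ?_⟩
  refine ⟨∑ α ∈ F.filter (fun α => α ∈ J ∧ n + 1 ∈ A α), elemH ι J A (κ α) (C.b n), ?_, ?_⟩
  · refine (C.H ι J A).sum_mem fun α hα => ?_
    rw [Finset.mem_filter] at hα
    apply C.elemH_mem ι J A hι hιJ
    exact C.anti ((Finset.le_sup hα.1).trans hn) (C.b_mem n)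
  · intro i hi
    rw [Finset.sum_apply]
    unfold dl
    by_cases hiJ : i ∈ J
    · have h1 : ∀ α ∈ F.filter (fun α => α ∈ J ∧ n + 1 ∈ A α),
          elemH ι J A (κ α) (C.b n) i = if α = i then C.b n else 0 := by
        intro α hα
        rw [Finset.mem_filter] at hα
        unfold elemH
        rw [if_pos hiJ]
        by_cases h : α = i
        · subst h
          rw [if_pos rfl, if_pos (hκ α hiJ).2]
        · rw [if_neg h, if_neg]
          intro h2
          have h3 := hm2 α hα.1 hα.2.1 i hi hiJ h (κ α) ⟨(hκ α hα.2.1).2, h2⟩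
          have h4 := (hκ α hα.2.1).1
          omega
      rw [Finset.sum_congr rfl h1, Finset.sum_ite_eq']
      simp [hi, hiJ]
    · rw [if_neg (fun h => hiJ h.1)]
      apply Finset.sum_eq_zero
      intro α hα
      rw [Finset.mem_filter] at hα
      unfold elemH
      rw [if_neg hiJ, if_neg]
      rintro rfl
      have h3 := hm1 _ hi
      have h4 := (hκ α hα.2.1).1
      omega

end Chain

end

end Pool.Agent.Work.MP_c629c8_al
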