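import Mathlib
import Pool.Agent.Work.MP_c629c8_al.Neg

/-!
# Quotients of uncountable powers that are not semireflexive: the end of the proof
-/

namespace Pool.Agent.Work.MP_c629c8_al

open Topology Classical

namespace Chain

section

variable {L : Type*} [AddCommGroup L] [TopologicalSpace L] [IsTopologicalAddGroup L] (C : Chain L)
  {I : Type*} (ι : ℕ → I) (J : Set I) (A : I → Set ℕ)
  (hι : Function.Injective ι) (hιJ : ∀ n, ι n ∉ J) (hA : ∀ α ∈ J, (A α).Infinite)
  (hAA : ∀ α ∈ J, ∀ β ∈ J, α ≠ β → (A α ∩ A β).Finite)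

/-- the classes of the differences -/
noncomputable def q (n : ℕ) : (I → L) ⧸ C.H ι J A := QuotientAddGroup.mk (C.dl J A n)

include hι hιJ hA hAA

lemma q_small {W : Set ((I → L) ⧸ C.H ι J A)} (hW : W ∈ 𝓝 0) :
    ∃ n₀, ∀ n, n₀ ≤ n → ∀ j : ℕ, j • C.q ι J A n ∈ W := by
  have h1 : (QuotientAddGroup.mk : (I → L) → (I → L) ⧸ C.H ι J A) ⁻¹' W ∈ 𝓝 (0 : I → L) :=
    (continuous_quot_mk (r := QuotientAddGroup.leftRel (C.H ι J A))).continuousAt.preimage_mem_nhds
      hW
  rw [nhds_pi, Filter.mem_pi] at h1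
  obtain ⟨F, hF, t, ht, hsub⟩ := h1
  obtain ⟨n₀, hn₀⟩ := C.dl_small ι J A hι hιJ hA hAA hF.toFinset
  refine ⟨n₀, fun n hn j => ?_⟩
  obtain ⟨h, hh, heq⟩ := hn₀ n hn
  have h2 : (j • (C.dl J A n - h) : I → L) ∈
      (QuotientAddGroup.mk : (I → L) → (I → L) ⧸ C.H ι J A) ⁻¹' W := by
    apply hsub
    intro i hi
    have : (j • (C.dl J A n - h) : I → L) i = 0 := by
      rw [Pi.smul_apply, Pi.sub_apply, heq i (by simpa using hi), sub_self, smul_zero]
    rw [this]
    exact mem_of_mem_nhds (ht i)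
  have h3 : j • C.q ι J A n = QuotientAddGroup.mk (j • (C.dl J A n - h)) := by
    have h4 : (QuotientAddGroup.mk (j • (C.dl J A n - h)) : (I → L) ⧸ C.H ι J A) =
        j • (QuotientAddGroup.mk (C.dl J A n) - QuotientAddGroup.mk h) := rfl
    have h5 : (QuotientAddGroup.mk h : (I → L) ⧸ C.H ι J A) = 0 := by
      rwa [QuotientAddGroup.eq_zero_iff]
    rw [h4, h5, sub_zero]
    rfl
  rw [h3]
  exact h2

lemma exists_char_q (χ : Dual ((I → L) ⧸ C.H ι J A)) :
    ∃ n₀, ∀ n, n₀ ≤ n → χ (C.q ι J A n) = 0 := by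
  have h1 : χ ⁻¹' Metric.ball 0 (1 / 4) ∈ 𝓝 (0 : (I → L) ⧸ C.H ι J A) := by
    apply χ.continuous_toFun.continuousAt.preimage_mem_nhds
    have : (χ.toFun 0 : UnitAddCircle) = 0 := map_zero χ
    rw [this]
    exact Metric.ball_mem_nhds _ (by norm_num)
  obtain ⟨n₀, hn₀⟩ := C.q_small ι J A hι hιJ hA hAA h1
  refine ⟨n₀, fun n hn => eq_zero_of_small fun j => ?_⟩
  have := hn₀ n hn j
  rw [Set.mem_preimage, mem_ball_zero_iff, map_nsmul] at this
  exact this

omit [IsTopologicalAddGroup L] in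
omit hι hιJ hA hAA in
lemma finsum_eq {χ : Dual ((I → L) ⧸ C.H ι J A)} {n₀ : ℕ}
    (h : ∀ n, n₀ ≤ n → χ (C.q ι J A n) = 0) :
    ∑ᶠ n, χ (C.q ι J A n) = ∑ n ∈ Finset.range n₀, χ (C.q ι J A n) := by
  apply finsum_eq_sum_of_support_subset
  intro n hn
  rw [Function.mem_support] at hn
  rw [Finset.coe_range, Set.mem_Iio]
  by_contra hcon
  exact hn (h n (not_lt.1 hcon))

/-- the limit of the partial sums, as a homomorphism -/
noncomputable def PsiHom : Dual ((I → L) ⧸ C.H ι J A) →+ UnitAddCircle where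
  toFun χ := ∑ᶠ n, χ (C.q ι J A n)
  map_zero' := by
    show ∑ᶠ _ : ℕ, (0 : UnitAddCircle) = 0
    exact finsum_zero
  map_add' χ χ' := by
    obtain ⟨n₀, hn₀⟩ := C.exists_char_q ι J A hι hιJ hA hAA χ
    obtain ⟨n₁, hn₁⟩ := C.exists_char_q ι J A hι hιJ hA hAA χ'
    have h1 : ∀ n, max n₀ n₁ ≤ n → χ (C.q ι J A n) = 0 := fun n hn =>
      hn₀ n ((le_max_left _ _).trans hn)
    have h2 : ∀ n, max n₀ n₁ ≤ n → χ' (C.q ι J A n) = 0 := fun n hn =>
      hn₁ n ((le_max_right _ _).trans hn)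
    have h3 : ∀ n, max n₀ n₁ ≤ n → (χ + χ') (C.q ι J A n) = 0 := fun n hn => by
      rw [ContinuousAddMonoidHom.add_apply, h1 n hn, h2 n hn, add_zero]
    rw [C.finsum_eq ι J A h1, C.finsum_eq ι J A h2, C.finsum_eq ι J A h3,
      ← Finset.sum_add_distrib]
    rfl

/-- the limit of the partial sums, as a character of the dual group -/
noncomputable def Psi : Dual (Dual ((I → L) ⧸ C.H ι J A)) where
  toAddMonoidHom := C.PsiHom ι J A hι hιJ hA hAA
  continuous_toFun := by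
    show Continuous (C.PsiHom ι J A hι hιJ hA hAA)
    apply continuous_of_continuousAt_zero (C.PsiHom ι J A hι hιJ hA hAA)
    rw [ContinuousAt, map_zero, Metric.tendsto_nhds]
    intro ε hε
    -- the compact set
    let g : (Σ n : ℕ, Fin (2 ^ n + 1)) → (I → L) ⧸ C.H ι J A := fun p => (p.2 : ℕ) • C.q ι J A p.1
    have hg : Filter.Tendsto g Filter.cofinite (𝓝 0) := by
      intro W hW
      rw [Filter.mem_map, Filter.mem_cofinite]
      obtain ⟨n₀, hn₀⟩ := C.q_small ι J A hι hιJ hA hAA hW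
      have hfin : (⋃ n ∈ Finset.range n₀, Set.range (fun j : Fin (2 ^ n + 1) =>
          (⟨n, j⟩ : Σ n : ℕ, Fin (2 ^ n + 1)))).Finite :=
        Set.Finite.biUnion (Finset.finite_toSet _) fun n _ => Set.finite_range _
      refine hfin.subset ?_
      rintro ⟨n, j⟩ hp
      simp only [Set.mem_iUnion]
      refine ⟨n, ?_, j, rfl⟩
      rw [Finset.mem_range]
      by_contra hcon
      exact hp (hn₀ n (not_lt.1 hcon) j)
    have hK : IsCompact (insert 0 (Set.range g)) := hg.isCompact_insert_range_of_cofinite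
    set r : ℝ := min (1 / 4) (ε / 4) with hr
    have hr0 : 0 < r := lt_min (by norm_num) (by linarith)
    have hO : IsOpen {χ : Dual ((I → L) ⧸ C.H ι J A) |
        Set.MapsTo χ (insert 0 (Set.range g)) (Metric.ball 0 r)} :=
      isOpen_induced (ContinuousMap.isOpen_setOfPred_mapsTo hK Metric.isOpen_ball)
    have h0 : (0 : Dual ((I → L) ⧸ C.H ι J A)) ∈ {χ : Dual ((I → L) ⧸ C.H ι J A) |
        Set.MapsTo χ (insert 0 (Set.range g)) (Metric.ball 0 r)} := by
      intro x _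
      exact Metric.mem_ball_self hr0
    filter_upwards [hO.mem_nhds h0] with χ hχ
    rw [dist_zero_right]
    obtain ⟨n₀, hn₀⟩ := C.exists_char_q ι J A hι hιJ hA hAA χ
    have hsmall : ∀ n, ‖χ (C.q ι J A n)‖ ≤ r * (1 / 2) ^ n := by
      intro n
      have h1 := nsmul_small (t := χ (C.q ι J A n)) (r := r) (min_le_left _ _) (2 ^ n) (by
        intro j hj
        have h2 := hχ (Set.mem_insert_of_mem _ ⟨⟨n, ⟨j, Nat.lt_succ_of_le hj⟩⟩, rfl⟩)
        rw [mem_ball_zero_iff] at h2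
        have h3 : χ (g ⟨n, ⟨j, Nat.lt_succ_of_le hj⟩⟩) = j • χ (C.q ι J A n) := by
          rw [← map_nsmul]
        rwa [h3] at h2)
      push_cast at h1
      rw [one_div, inv_pow, ← div_eq_mul_inv, le_div_iff₀ (by positivity), mul_comm]
      exact h1.le
    show ‖∑ᶠ n, χ (C.q ι J A n)‖ < ε
    rw [C.finsum_eq ι J A hn₀]
    calc ‖∑ n ∈ Finset.range n₀, χ (C.q ι J A n)‖
        ≤ ∑ n ∈ Finset.range n₀, ‖χ (C.q ι J A n)‖ := norm_sum_le _ _
      _ ≤ ∑ n ∈ Finset.range n₀, r * (1 / 2) ^ n := Finset.sum_le_sum fun n _ => hsmall n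
      _ = r * ∑ n ∈ Finset.range n₀, (1 / 2 : ℝ) ^ n := by rw [Finset.mul_sum]
      _ ≤ r * 2 := by
          gcongr
          exact sum_geometric_two_le n₀
      _ ≤ ε / 4 * 2 := by
          gcongr
          exact min_le_right _ _
      _ < ε := by linarith

lemma Psi_apply (χ : Dual ((I → L) ⧸ C.H ι J A)) {n₀ : ℕ}
    (h : ∀ n, n₀ ≤ n → χ (C.q ι J A n) = 0) :
    C.Psi ι J A hι hιJ hA hAA χ = ∑ n ∈ Finset.range n₀, χ (C.q ι J A n) :=
  C.finsum_eq ι J A h

/-- the character `Ψ` on the characters that come from the power -/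
lemma Psi_char (x : I → L) (hx : eta _ (QuotientAddGroup.mk x : (I → L) ⧸ C.H ι J A) =
    C.Psi ι J A hι hιJ hA hAA) (Θ : Dual (I → L)) (hΘ : ∀ h ∈ C.H ι J A, Θ h = 0) :
    ∃ n₀, ∀ n, n₀ ≤ n → Θ x = Θ (C.pt J A n) := by
  let χ : Dual ((I → L) ⧸ C.H ι J A) :=
    ⟨QuotientAddGroup.lift (C.H ι J A) Θ.toAddMonoidHom hΘ, by
      apply continuous_quot_lift _ Θ.continuous_toFun⟩
  have hχ : ∀ y : I → L, χ (QuotientAddGroup.mk y) = Θ y := fun y => rfl
  obtain ⟨n₀, hn₀⟩ := C.exists_char_q ι J A hι hιJ hA hAA χ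
  refine ⟨n₀, fun n hn => ?_⟩
  have h1 := DFunLike.congr_fun hx χ
  rw [C.Psi_apply ι J A hι hιJ hA hAA χ (n₀ := n) (fun m hm => hn₀ m (hn.trans hm))] at h1
  have h2 : eta _ (QuotientAddGroup.mk x : (I → L) ⧸ C.H ι J A) χ = Θ x := rfl
  rw [h2] at h1
  rw [h1, C.pt_eq, map_sum]
  rfl

/-- the quotient is not semireflexive -/
theorem not_surjective (hJ : ¬ J.Countable) :
    ¬ Function.Surjective (eta ((I → L) ⧸ C.H ι J A)) := by
  intro hs
  obtain ⟨q', hq'⟩ := hs (C.Psi ι J A hι hιJ hA hAA)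
  obtain ⟨x, rfl⟩ := QuotientAddGroup.mk_surjective q'
  have hchar := C.Psi_char ι J A hι hιJ hA hAA x hq'
  have hptB : ∀ n i, C.pt J A n i ∈ C.B 0 := by
    intro n i
    unfold pt
    split_ifs
    · exact (C.B 0).sum_mem fun k _ => C.anti (Nat.zero_le k) (C.b_mem k)
    · exact (C.B 0).zero_mem
  -- the coordinates are in `B 0`
  have h1 : ∀ i, x i ∈ C.B 0 := by
    intro i
    by_contra hcon
    obtain ⟨χ, hχ1, hχ2⟩ := C.sep 0 _ hcon
    let Θ : Dual (I → L) := χ.comp ⟨Pi.evalAddMonoidHom (fun _ => L) i, continuous_apply i⟩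
    have hΘ : ∀ y, Θ y = χ (y i) := fun y => rfl
    obtain ⟨n₀, hn₀⟩ := hchar Θ (fun h hh => hχ1 _ (hh.1 i))
    have h2 := hn₀ n₀ le_rfl
    rw [hΘ, hΘ, hχ1 _ (hptB n₀ i)] at h2
    exact hχ2 h2
  -- the relation
  have h2 : ∀ α ∈ J, ∀ n, x α - ∑ k ∈ (Finset.range n).filter (fun k => k ∈ A α), x (ι k) -
      ∑ k ∈ (Finset.range n).filter (fun k => k + 1 ∈ A α), C.b k ∈ C.B n := by
    intro α hα n
    by_contra hcon
    obtain ⟨χ, hχ1, hχ2⟩ := C.sep n _ hcon
    let Θ : Dual (I → L) :=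
      { toFun := fun y => χ (y α - ∑ k ∈ (Finset.range n).filter (fun k => k ∈ A α), y (ι k))
        map_zero' := by simp
        map_add' := fun y z => by
          rw [← map_add]
          congr 1
          simp only [Pi.add_apply, Finset.sum_add_distrib]
          abel
        continuous_toFun := by
          apply χ.continuous_toFun.comp
          exact (continuous_apply α).sub (continuous_finsetSum _ fun k _ => continuous_apply (ι k)) }
    have hΘ : ∀ y, Θ y =
      χ (y α - ∑ k ∈ (Finset.range n).filter (fun k => k ∈ A α), y (ι k)) := fun y => rfl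
    obtain ⟨n₀, hn₀⟩ := hchar Θ (fun h hh => hχ1 _ (hh.2.2 α hα n))
    have h3 := hn₀ (max n₀ n) (le_max_left _ _)
    rw [hΘ, hΘ] at h3
    have h4 : ∀ k, C.pt J A (max n₀ n) (ι k) = 0 := by
      intro k
      unfold pt
      rw [if_neg (hιJ k)]
    simp only [h4, Finset.sum_const_zero, sub_zero] at h3
    have h5 : C.pt J A (max n₀ n) α - ∑ k ∈ (Finset.range n).filter (fun k => k + 1 ∈ A α), C.b k
        ∈ C.B n := by
      unfold pt
      rw [if_pos hα, Finset.sum_filter, Finset.sum_filter,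
        ← Finset.sum_range_add_sum_Ico _ (le_max_right n₀ n), add_sub_cancel_left]
      refine (C.B n).sum_mem fun k hk => ?_
      rw [Finset.mem_Ico] at hk
      split_ifs
      · exact C.anti hk.1 (C.b_mem k)
      · exact (C.B n).zero_mem
    have h6 := hχ1 _ h5
    rw [map_sub, ← h3, ← map_sub] at h6
    exact hχ2 h6
  -- the pigeonhole principle
  have h3 : ∃ v : L, ¬ {α ∈ J | x α = v}.Countable := by
    by_contra hcon
    push Not at hcon
    apply hJ
    have h4 : J ⊆ ⋃ v ∈ (C.B 0 : Set L), {α ∈ J | x α = v} := by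
      intro α hα
      simp only [Set.mem_iUnion]
      exact ⟨x α, h1 α, hα, rfl⟩
    exact (C.countable.biUnion fun v _ => hcon v).mono h4
  obtain ⟨v, hv⟩ := h3
  obtain ⟨α, β, hα, hβ, hαv, hβv, hne, h0⟩ : ∃ α β, α ∈ J ∧ β ∈ J ∧ x α = v ∧ x β = v ∧ α ≠ β ∧
      (0 ∈ A α ↔ 0 ∈ A β) := by
    by_contra hcon
    push Not at hcon
    apply hv
    have h4 : {α ∈ J | x α = v} = {α ∈ J | x α = v} ∩ {α | 0 ∈ A α} ∪
        {α ∈ J | x α = v} ∩ {α | 0 ∈ A α}ᶜ := (Set.inter_union_compl _ _).symm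
    rw [h4]
    apply Set.Finite.countable
    refine Set.Finite.union (Set.Subsingleton.finite ?_) (Set.Subsingleton.finite ?_)
    · rintro α ⟨⟨h5, h6⟩, h7⟩ β ⟨⟨h8, h9⟩, h10⟩
      by_contra hne
      have := hcon α β h5 h8 h6 h9 hne
      rcases this with h | h
      · exact h.2 h10
      · exact h.1 h7
    · rintro α ⟨⟨h5, h6⟩, h7⟩ β ⟨⟨h8, h9⟩, h10⟩
      by_contra hne
      have := hcon α β h5 h8 h6 h9 hne
      rcases this with h | h
      · exact h7 h.1
      · exact h10 h.2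
  -- the first difference
  have hex : ∃ k, ¬ (k ∈ A α ↔ k ∈ A β) := by
    by_contra hcon
    push Not at hcon
    have h5 : A α = A β := Set.ext hcon
    have h6 := hAA α hα β hβ hne
    rw [← h5, Set.inter_self] at h6
    exact hA α hα h6
  have hΔ : ¬ (Nat.find hex ∈ A α ↔ Nat.find hex ∈ A β) := Nat.find_spec hex
  have hbelow : ∀ k < Nat.find hex, (k ∈ A α ↔ k ∈ A β) := fun k hk =>
    not_not.1 (Nat.find_min hex hk)
  obtain ⟨d, hd⟩ : ∃ d, Nat.find hex = d + 1 := by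
    refine ⟨Nat.find hex - 1, ?_⟩
    have : Nat.find hex ≠ 0 := by
      intro h
      rw [h] at hΔ
      exact hΔ h0
    omega
  rw [hd] at hΔ hbelow
  have h5 := (C.B (d + 1)).sub_mem (h2 α hα (d + 1)) (h2 β hβ (d + 1))
  have h6 : ∑ k ∈ (Finset.range (d + 1)).filter (fun k => k ∈ A α), x (ι k) =
      ∑ k ∈ (Finset.range (d + 1)).filter (fun k => k ∈ A β), x (ι k) := by
    congr 1
    apply Finset.filter_congr
    intro k hk
    exact hbelow k (Finset.mem_range.1 hk)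
  have h7 : ∑ k ∈ (Finset.range d).filter (fun k => k + 1 ∈ A α), C.b k =
      ∑ k ∈ (Finset.range d).filter (fun k => k + 1 ∈ A β), C.b k := by
    congr 1
    apply Finset.filter_congr
    intro k hk
    exact hbelow (k + 1) (Nat.succ_lt_succ (Finset.mem_range.1 hk))
  rw [hαv, hβv, h6, sub_sub_sub_cancel_left] at h5
  rw [Finset.sum_filter, Finset.sum_filter] at h5 h7
  rw [Finset.sum_range_succ, Finset.sum_range_succ, h7, add_sub_add_left_eq_sub] at h5
  by_cases h8 : d + 1 ∈ A α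
  · have h9 : d + 1 ∉ A β := fun h => hΔ ⟨fun _ => h, fun _ => h8⟩
    rw [if_neg h9, if_pos h8, zero_sub] at h5
    exact C.b_not d ((C.B (d + 1)).neg_mem_iff.1 h5)
  · have h9 : d + 1 ∈ A β := by
      by_contra h
      exact hΔ ⟨fun h' => absurd h' h8, fun h' => absurd h' h⟩
    rw [if_pos h9, if_neg h8, sub_zero] at h5
    exact C.b_not d h5

end

/-- if `I` is uncountable then `L^I` has a Hausdorff quotient that is not semireflexive -/
theorem exists_bad_quotient {L : Type*} [AddCommGroup L] [TopologicalSpace L]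
    [IsTopologicalAddGroup L] (C : Chain L) (I : Type*) [Uncountable I] :
    ∃ H : AddSubgroup (I → L), IsClosed (H : Set (I → L)) ∧
      ¬ Function.Surjective (eta ((I → L) ⧸ H)) := by
  obtain ⟨ι, J, A, h1, h2, h3, h4, h5⟩ := exists_ad I
  exact ⟨C.H ι J A, C.isClosed_H ι J A, C.not_surjective ι J A h1 h2 h4 h5 h3⟩

end Chain

end Pool.Agent.Work.MP_c629c8_al
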