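import Mathlib
import Pool.Agent.Work.MP_c629c8_al.Neg2

/-!
# Transfer of bad quotients
-/

namespace Pool.Agent.Work.MP_c629c8_al

open Topology

/-- `G` has a Hausdorff quotient that is not semireflexive -/
def Bad (G : Type*) [AddCommGroup G] [TopologicalSpace G] : Prop :=
  ∃ H : AddSubgroup G, IsClosed (H : Set G) ∧ ¬ Function.Surjective (eta (G ⧸ H))

section

variable {G G' : Type*} [AddCommGroup G] [TopologicalSpace G]
  [AddCommGroup G'] [TopologicalSpace G']

lemma Bad.not_stronglyReflexive (h : Bad G) : ¬ StronglyReflexive G := by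
  obtain ⟨H, hH, hs⟩ := h
  intro h'
  exact hs (h' H hH).2.bijective.surjective

/-- if `f : A → B` is a continuous open surjective homomorphism with kernel zero then the
surjectivity of `η` transfers -/
lemma eta_surjective_transfer {A B : Type*} [AddCommGroup A] [TopologicalSpace A]
    [AddCommGroup B] [TopologicalSpace B] (f : A →ₜ+ B) (g : B →ₜ+ A)
    (hfg : ∀ b, f (g b) = b) (hA : Function.Surjective (eta A)) : Function.Surjective (eta B) := by
  intro ψ
  -- `ψ ∘ (χ ↦ χ ∘ g)`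
  let T : Dual A →ₜ+ Dual B := ContinuousAddMonoidHom.compLeft UnitAddCircle g
  obtain ⟨a, ha⟩ := hA (ψ.comp T)
  refine ⟨f a, ContinuousAddMonoidHom.ext fun χ => ?_⟩
  have h1 := DFunLike.congr_fun ha (χ.comp f)
  have h2 : T (χ.comp f) = χ := ContinuousAddMonoidHom.ext fun b => by
    show χ (f (g b)) = χ b
    rw [hfg]
  have h3 : (ψ.comp T) (χ.comp f) = ψ (T (χ.comp f)) := rfl
  rw [h3, h2] at h1
  rw [← h1]
  rfl

/-- bad quotients of quotients -/
lemma Bad.of_quotient [IsTopologicalAddGroup G] [IsTopologicalAddGroup G'] (h : Bad G')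
    (f : G →ₜ+ G') (hf : Function.Surjective f) (hfo : IsOpenMap f) : Bad G := by
  obtain ⟨H', hH', hs⟩ := h
  let H : AddSubgroup G := H'.comap f.toAddMonoidHom
  refine ⟨H, hH'.preimage f.continuous_toFun, fun hs2 => hs ?_⟩
  -- the isomorphism of the quotients
  let F : G ⧸ H →+ G' ⧸ H' := QuotientAddGroup.map H H' f.toAddMonoidHom le_rfl
  have hFmk : ∀ x, F (QuotientAddGroup.mk x) = QuotientAddGroup.mk (f x) := fun x => rfl
  have hFc : Continuous F := by
    apply continuous_quot_lift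
    exact (continuous_quot_mk (r := QuotientAddGroup.leftRel H')).comp f.continuous_toFun
  have hFi : Function.Injective F := by
    rw [injective_iff_map_eq_zero]
    intro a ha
    obtain ⟨x, rfl⟩ := QuotientAddGroup.mk_surjective a
    rw [hFmk, QuotientAddGroup.eq_zero_iff] at ha
    rw [QuotientAddGroup.eq_zero_iff]
    exact ha
  have hFs : Function.Surjective F := by
    intro b
    obtain ⟨y, rfl⟩ := QuotientAddGroup.mk_surjective b
    obtain ⟨x, rfl⟩ := hf y
    exact ⟨QuotientAddGroup.mk x, rfl⟩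
  have hFo : IsOpenMap F := by
    intro W hW
    have h1 : F '' W = QuotientAddGroup.mk '' (f '' (QuotientAddGroup.mk ⁻¹' W)) := by
      ext b
      constructor
      · rintro ⟨a, ha, rfl⟩
        obtain ⟨x, rfl⟩ := QuotientAddGroup.mk_surjective a
        exact ⟨f x, ⟨x, ha, rfl⟩, rfl⟩
      · rintro ⟨_, ⟨x, hx, rfl⟩, rfl⟩
        exact ⟨QuotientAddGroup.mk x, hx, rfl⟩
    rw [h1]
    apply QuotientAddGroup.isOpenMap_coe
    apply hfo
    exact hW.preimage continuous_quot_mk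
  let e : G ⧸ H ≃+ G' ⧸ H' := AddEquiv.ofBijective F ⟨hFi, hFs⟩
  have hec : Continuous e.symm := by
    rw [continuous_def]
    intro W hW
    have : e.symm ⁻¹' W = F '' W := by
      ext b
      constructor
      · intro hb
        exact ⟨e.symm b, hb, e.apply_symm_apply b⟩
      · rintro ⟨a, ha, rfl⟩
        show e.symm (e a) ∈ W
        rwa [e.symm_apply_apply]
    rw [this]
    exact hFo W hW
  exact eta_surjective_transfer (⟨F, hFc⟩ : G ⧸ H →ₜ+ G' ⧸ H')
    (⟨e.symm.toAddMonoidHom, hec⟩ : G' ⧸ H' →ₜ+ G ⧸ H) (fun b => e.apply_symm_apply b) hs2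

/-- bad quotients of dually embedded, dually closed subgroups -/
lemma Bad.of_embedding [IsTopologicalAddGroup G] [NonarchimedeanAddGroup G'] (h : Bad G')
    (f : G' →ₜ+ G) (hf : Function.Injective f)
    (hcl : ∀ x, (∀ χ : Dual G, (∀ y, χ (f y) = 0) → χ x = 0) → ∃ y, f y = x)
    (hext : ∀ θ : Dual G', ∃ χ : Dual G, ∀ y, χ (f y) = θ y) : Bad G := by
  obtain ⟨H', hH', hs⟩ := h
  -- closed subgroups of `G'` are dually closed
  have hdc : ∀ y, (∀ θ : Dual G', (∀ h ∈ H', θ h = 0) → θ y = 0) → y ∈ H' := by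
    intro y hy
    by_contra hcon
    have h1 : (fun t => y - t) ⁻¹' (H' : Set G')ᶜ ∈ 𝓝 (0 : G') := by
      apply (continuous_const.sub continuous_id).continuousAt.preimage_mem_nhds
      simpa using hH'.isOpen_compl.mem_nhds hcon
    obtain ⟨N, hN⟩ := NonarchimedeanAddGroup.is_nonarchimedean _ h1
    let M : OpenAddSubgroup G' := ⟨(N : AddSubgroup G') ⊔ H',
      AddSubgroup.isOpen_mono (H₁ := (N : AddSubgroup G')) le_sup_left N.isOpen⟩
    have hyM : y ∉ M := by
      intro hyM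
      obtain ⟨v, hv, w, hw, hvw⟩ := AddSubgroup.mem_sup.1 (show y ∈ (N : AddSubgroup G') ⊔ H' from hyM)
      have h2 := hN hv
      apply h2
      show y - v ∈ H'
      rw [← hvw, add_sub_cancel_left]
      exact hw
    obtain ⟨θ, hθ1, hθ2⟩ := exists_dual_ne_zero M hyM
    exact hθ2 (hy θ fun h hh => hθ1 h (show h ∈ (N : AddSubgroup G') ⊔ H' from
      AddSubgroup.mem_sup_right hh))
  let H : AddSubgroup G := H'.map f.toAddMonoidHom
  have hmemH : ∀ x, x ∈ H ↔ ∃ y ∈ H', f y = x := fun x => Iff.rfl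
  have hdcG : ∀ x, (∀ χ : Dual G, (∀ h ∈ H, χ h = 0) → χ x = 0) → x ∈ H := by
    intro x hx
    obtain ⟨y, rfl⟩ := hcl x fun χ hχ => hx χ fun h hh => by
      obtain ⟨y, -, rfl⟩ := (hmemH h).1 hh
      exact hχ y
    refine (hmemH _).2 ⟨y, hdc y fun θ hθ => ?_, rfl⟩
    obtain ⟨χ, hχ⟩ := hext θ
    rw [← hχ]
    apply hx
    intro h hh
    obtain ⟨y', hy', rfl⟩ := (hmemH h).1 hh
    rw [hχ]
    exact hθ y' hy'
  have hHc : IsClosed (H : Set G) := by
    have : (H : Set G) = ⋂ χ ∈ {χ : Dual G | ∀ h ∈ H, χ h = 0}, χ ⁻¹' {0} := by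
      ext y
      simp only [Set.mem_iInter, Set.mem_preimage, Set.mem_singleton_iff]
      exact ⟨fun hy χ hχ => hχ y hy, fun h => hdcG y h⟩
    rw [this]
    exact isClosed_biInter fun χ _ => isClosed_singleton.preimage χ.continuous_toFun
  refine ⟨H, hHc, fun hs2 => hs ?_⟩
  intro ψ
  let F : G' ⧸ H' →ₜ+ G ⧸ H := ⟨QuotientAddGroup.map H' H f.toAddMonoidHom (by
    intro y hy
    exact ⟨y, hy, rfl⟩), by
    apply continuous_quot_lift
    exact (continuous_quot_mk (r := QuotientAddGroup.leftRel H)).comp f.continuous_toFun⟩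
  have hF : ∀ y, F (QuotientAddGroup.mk y) = QuotientAddGroup.mk (f y) := fun y => rfl
  let T : Dual (G ⧸ H) →ₜ+ Dual (G' ⧸ H') := ContinuousAddMonoidHom.compLeft UnitAddCircle F
  obtain ⟨a, ha⟩ := hs2 (ψ.comp T)
  obtain ⟨x, rfl⟩ := QuotientAddGroup.mk_surjective a
  -- the characters of `G` that vanish on `H`
  have hlift : ∀ χ : Dual G, (∀ h ∈ H, χ h = 0) → ∃ χ' : Dual (G ⧸ H), ∀ z,
      χ' (QuotientAddGroup.mk z) = χ z := fun χ hχ =>
    ⟨⟨QuotientAddGroup.lift H χ.toAddMonoidHom hχ, continuous_quot_lift _ χ.continuous_toFun⟩,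
      fun z => rfl⟩
  obtain ⟨y, rfl⟩ := hcl x (by
    intro χ hχ
    obtain ⟨χ', hχ'⟩ := hlift χ (by
      intro h hh
      obtain ⟨y, -, rfl⟩ := (hmemH h).1 hh
      exact hχ y)
    have h1 := DFunLike.congr_fun ha χ'
    have h2 : T χ' = 0 := by
      ext b
      obtain ⟨y, rfl⟩ := QuotientAddGroup.mk_surjective b
      show χ' (F (QuotientAddGroup.mk y)) = 0
      rw [hF, hχ', hχ]
    have h3 : (ψ.comp T) χ' = ψ (T χ') := rfl
    rw [h3, h2, map_zero] at h1
    rw [← hχ']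
    exact h1)
  refine ⟨QuotientAddGroup.mk y, ContinuousAddMonoidHom.ext fun θ' => ?_⟩
  obtain ⟨χ, hχ⟩ := hext (θ'.comp (⟨QuotientAddGroup.mk' H', continuous_quot_mk⟩ : G' →ₜ+ G' ⧸ H'))
  have hχ2 : ∀ z, χ (f z) = θ' (QuotientAddGroup.mk z) := hχ
  obtain ⟨χ', hχ'⟩ := hlift χ (by
    intro h hh
    obtain ⟨y, hy, rfl⟩ := (hmemH h).1 hh
    rw [hχ2, (QuotientAddGroup.eq_zero_iff y).2 hy, map_zero])
  have h1 := DFunLike.congr_fun ha χ'
  have h2 : T χ' = θ' := by
    ext b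
    obtain ⟨z, rfl⟩ := QuotientAddGroup.mk_surjective b
    show χ' (F (QuotientAddGroup.mk z)) = _
    rw [hF, hχ', hχ2]
  have h3 : (ψ.comp T) χ' = ψ (T χ') := rfl
  rw [h3, h2] at h1
  rw [← h1]
  show θ' (QuotientAddGroup.mk y) = χ' (QuotientAddGroup.mk (f y))
  rw [hχ', hχ2]

end

end Pool.Agent.Work.MP_c629c8_al
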