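import Mathlib
import Pool.Agent.Work.MP_c629c8_al.Transfer

/-!
# Limits of strongly summable sequences in semireflexive groups

If `q n` is a sequence such that all multiples of `q n` are small for large `n`, then the sum of
the `q n` exists weakly as soon as the evaluation map is surjective.
-/

namespace Pool.Agent.Work.MP_c629c8_al.Ind

open Topology

section

variable {Q : Type*} [AddCommGroup Q] [TopologicalSpace Q] [IsTopologicalAddGroup Q]
  (q : ℕ → Q) (hq : ∀ W ∈ 𝓝 (0 : Q), ∃ n₀, ∀ n, n₀ ≤ n → ∀ j : ℕ, j • q n ∈ W)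

include hq

lemma exists_char_q (χ : Dual Q) : ∃ n₀, ∀ n, n₀ ≤ n → χ (q n) = 0 := by
  have h1 : χ ⁻¹' Metric.ball 0 (1 / 4) ∈ 𝓝 (0 : Q) := by
    apply χ.continuous_toFun.continuousAt.preimage_mem_nhds
    have : (χ.toFun 0 : UnitAddCircle) = 0 := map_zero χ
    rw [this]
    exact Metric.ball_mem_nhds _ (by norm_num)
  obtain ⟨n₀, hn₀⟩ := hq _ h1
  refine ⟨n₀, fun n hn => eq_zero_of_small fun j => ?_⟩
  have := hn₀ n hn j
  rw [Set.mem_preimage, mem_ball_zero_iff, map_nsmul] at this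
  exact this

omit [IsTopologicalAddGroup Q] in
omit hq in
lemma finsum_eq {χ : Dual Q} {n₀ : ℕ} (h : ∀ n, n₀ ≤ n → χ (q n) = 0) :
    ∑ᶠ n, χ (q n) = ∑ n ∈ Finset.range n₀, χ (q n) := by
  apply finsum_eq_sum_of_support_subset
  intro n hn
  rw [Function.mem_support] at hn
  rw [Finset.coe_range, Set.mem_Iio]
  by_contra hcon
  exact hn (h n (not_lt.1 hcon))

/-- the limit of the partial sums, as a homomorphism -/
noncomputable def psiHom : Dual Q →+ UnitAddCircle where
  toFun χ := ∑ᶠ n, χ (q n)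
  map_zero' := by
    show ∑ᶠ _ : ℕ, (0 : UnitAddCircle) = 0
    exact finsum_zero
  map_add' χ χ' := by
    obtain ⟨n₀, hn₀⟩ := exists_char_q q hq χ
    obtain ⟨n₁, hn₁⟩ := exists_char_q q hq χ'
    have h1 : ∀ n, max n₀ n₁ ≤ n → χ (q n) = 0 := fun n hn => hn₀ n ((le_max_left _ _).trans hn)
    have h2 : ∀ n, max n₀ n₁ ≤ n → χ' (q n) = 0 := fun n hn => hn₁ n ((le_max_right _ _).trans hn)
    have h3 : ∀ n, max n₀ n₁ ≤ n → (χ + χ') (q n) = 0 := fun n hn => by
      rw [ContinuousAddMonoidHom.add_apply, h1 n hn, h2 n hn, add_zero]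
    rw [finsum_eq q h1, finsum_eq q h2, finsum_eq q h3, ← Finset.sum_add_distrib]
    rfl

/-- the limit of the partial sums, as a character of the dual group -/
noncomputable def psi : Dual (Dual Q) where
  toAddMonoidHom := psiHom q hq
  continuous_toFun := by
    show Continuous (psiHom q hq)
    apply continuous_of_continuousAt_zero (psiHom q hq)
    rw [ContinuousAt, map_zero, Metric.tendsto_nhds]
    intro ε hε
    -- the compact set
    let g : (Σ n : ℕ, Fin (2 ^ n + 1)) → Q := fun p => (p.2 : ℕ) • q p.1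
    have hg : Filter.Tendsto g Filter.cofinite (𝓝 0) := by
      intro W hW
      rw [Filter.mem_map, Filter.mem_cofinite]
      obtain ⟨n₀, hn₀⟩ := hq W hW
      have hfin : (⋃ n ∈ Finset.range n₀, Set.range (fun j : Fin (2 ^ n + 1) =>
          (⟨n, j⟩ : Σ n : ℕ, Fin (2 ^ n + 1)))).Finite :=
        Set.Finite.biUnion (Finset.finite_toSet _) fun n _ => Set.finite_range _
      refine hfin.subset ?_
      rintro ⟨n, j⟩ hp
      simp only [Set.mem_iUnion]
      refine ⟨n, ?_, j, rfl⟩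
      rw [Finset.mem_range]
      by_contra hcon
      exact hp (hn₀ n (not_lt.1 hcon) j)
    have hK : IsCompact (insert 0 (Set.range g)) := hg.isCompact_insert_range_of_cofinite
    set r : ℝ := min (1 / 4) (ε / 4) with hr
    have hr0 : 0 < r := lt_min (by norm_num) (by linarith)
    have hO : IsOpen {χ : Dual Q | Set.MapsTo χ (insert 0 (Set.range g)) (Metric.ball 0 r)} :=
      isOpen_induced (ContinuousMap.isOpen_setOfPred_mapsTo hK Metric.isOpen_ball)
    have h0 : (0 : Dual Q) ∈ {χ : Dual Q |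
        Set.MapsTo χ (insert 0 (Set.range g)) (Metric.ball 0 r)} := by
      intro x _
      exact Metric.mem_ball_self hr0
    filter_upwards [hO.mem_nhds h0] with χ hχ
    rw [dist_zero_right]
    obtain ⟨n₀, hn₀⟩ := exists_char_q q hq χ
    have hsmall : ∀ n, ‖χ (q n)‖ ≤ r * (1 / 2) ^ n := by
      intro n
      have h1 := nsmul_small (t := χ (q n)) (r := r) (min_le_left _ _) (2 ^ n) (by
        intro j hj
        have h2 := hχ (Set.mem_insert_of_mem _ ⟨⟨n, ⟨j, Nat.lt_succ_of_le hj⟩⟩, rfl⟩)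
        rw [mem_ball_zero_iff] at h2
        have h3 : χ (g ⟨n, ⟨j, Nat.lt_succ_of_le hj⟩⟩) = j • χ (q n) := by
          rw [← map_nsmul]
        rwa [h3] at h2)
      push_cast at h1
      rw [one_div, inv_pow, ← div_eq_mul_inv, le_div_iff₀ (by positivity), mul_comm]
      exact h1.le
    show ‖∑ᶠ n, χ (q n)‖ < ε
    rw [finsum_eq q hn₀]
    calc ‖∑ n ∈ Finset.range n₀, χ (q n)‖
        ≤ ∑ n ∈ Finset.range n₀, ‖χ (q n)‖ := norm_sum_le _ _
      _ ≤ ∑ n ∈ Finset.range n₀, r * (1 / 2) ^ n := Finset.sum_le_sum fun n _ => hsmall n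
      _ = r * ∑ n ∈ Finset.range n₀, (1 / 2 : ℝ) ^ n := by rw [Finset.mul_sum]
      _ ≤ r * 2 := by
          gcongr
          exact sum_geometric_two_le n₀
      _ ≤ ε / 4 * 2 := by
          gcongr
          exact min_le_right _ _
      _ < ε := by linarith

/-- the weak limit -/
theorem exists_weak_limit (hs : Function.Surjective (eta Q)) :
    ∃ x : Q, ∀ χ : Dual Q, ∃ n₀, ∀ n, n₀ ≤ n → χ x = χ (∑ m ∈ Finset.range n, q m) := by
  obtain ⟨x, hx⟩ := hs (psi q hq)
  refine ⟨x, fun χ => ?_⟩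
  obtain ⟨n₀, hn₀⟩ := exists_char_q q hq χ
  refine ⟨n₀, fun n hn => ?_⟩
  have h1 := DFunLike.congr_fun hx χ
  have h2 : psi q hq χ = ∑ m ∈ Finset.range n, χ (q m) :=
    finsum_eq q fun m hm => hn₀ m (hn.trans hm)
  rw [h2] at h1
  rw [map_sum]
  exact h1

end

end Pool.Agent.Work.MP_c629c8_al.Ind
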