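import Mathlib
import Pool.Agent.Work.MP_c629c8_al.Basic

/-!
# Duality for discrete groups

A separating group of characters of a compact group contains all characters (Stone-Weierstrass and
orthogonality). Hence the evaluation map of a discrete group is surjective.
-/

namespace Pool.Agent.Work.MP_c629c8_al

open Topology MeasureTheory

section

variable {K : Type*} [AddCommGroup K] [TopologicalSpace K]

/-- the complex valued continuous function of a character -/
noncomputable def cfun (φ : K →ₜ+ UnitAddCircle) : C(K, ℂ) where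
  toFun x := (AddCircle.toCircle (φ x) : ℂ)
  continuous_toFun := by
    have h1 : Continuous (fun x : K => φ x) := φ.continuous_toFun
    exact continuous_induced_dom.comp (AddCircle.continuous_toCircle.comp h1)

lemma cfun_apply (φ : K →ₜ+ UnitAddCircle) (x : K) :
    cfun φ x = (AddCircle.toCircle (φ x) : ℂ) := rfl

lemma cfun_zero : cfun (0 : K →ₜ+ UnitAddCircle) = 1 := by
  ext x
  simp [cfun_apply]

lemma cfun_add (φ ψ : K →ₜ+ UnitAddCircle) : cfun (φ + ψ) = cfun φ * cfun ψ := by
  ext x
  simp [cfun_apply, AddCircle.toCircle_add]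

lemma cfun_neg (φ : K →ₜ+ UnitAddCircle) : cfun (-φ) = star (cfun φ) := by
  ext x
  have h : ((-φ : K →ₜ+ UnitAddCircle)) x = - φ x := rfl
  rw [cfun_apply, h, ContinuousMap.star_apply, cfun_apply, AddCircle.toCircle_neg,
    Circle.coe_inv_eq_conj]
  rfl

lemma toCircle_ne {s t : UnitAddCircle} (h : s ≠ t) :
    (AddCircle.toCircle s : ℂ) ≠ (AddCircle.toCircle t : ℂ) := by
  intro hst
  exact h (AddCircle.injective_toCircle one_ne_zero (Subtype.ext hst))

variable [IsTopologicalAddGroup K] [CompactSpace K] [T2Space K]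

omit [CompactSpace K] [T2Space K] in
/-- orthogonality -/
lemma integral_cfun [MeasurableSpace K] [BorelSpace K] (μ : Measure K) [μ.IsAddHaarMeasure]
    {φ : K →ₜ+ UnitAddCircle} (hφ : φ ≠ 0) : ∫ x, cfun φ x ∂μ = 0 := by
  obtain ⟨k, hk⟩ : ∃ k, φ k ≠ 0 := by
    by_contra h
    push Not at h
    exact hφ (ContinuousAddMonoidHom.ext h)
  have h1 : ∫ x, cfun φ (k + x) ∂μ = ∫ x, cfun φ x ∂μ :=
    integral_add_left_eq_self (fun x => cfun φ x) k
  have h2 : ∀ x, cfun φ (k + x) = cfun φ k * cfun φ x := by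
    intro x
    simp [cfun_apply, AddCircle.toCircle_add, map_add]
  simp only [h2] at h1
  rw [integral_const_mul] at h1
  have h3 : cfun φ k ≠ 1 := by
    have := toCircle_ne hk
    simpa [cfun_apply] using this
  have h4 : (cfun φ k - 1) * ∫ x, cfun φ x ∂μ = 0 := by
    rw [sub_mul, h1, one_mul, sub_self]
  rcases mul_eq_zero.1 h4 with h | h
  · exact absurd (sub_eq_zero.1 h) h3
  · exact h

/-- the star subalgebra of a group of characters -/
noncomputable def charSubalgebra (S : AddSubgroup (K →ₜ+ UnitAddCircle)) :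
    StarSubalgebra ℂ C(K, ℂ) where
  toSubalgebra := Algebra.adjoin ℂ (cfun '' (S : Set (K →ₜ+ UnitAddCircle)))
  star_mem' := by
    change Algebra.adjoin ℂ (cfun '' (S : Set (K →ₜ+ UnitAddCircle))) ≤
      star (Algebra.adjoin ℂ (cfun '' (S : Set (K →ₜ+ UnitAddCircle))))
    refine Algebra.adjoin_le ?_
    rintro - ⟨φ, hφ, rfl⟩
    exact Algebra.subset_adjoin ⟨-φ, S.neg_mem hφ, cfun_neg φ⟩

lemma charSubalgebra_coe (S : AddSubgroup (K →ₜ+ UnitAddCircle)) :
    Subalgebra.toSubmodule (charSubalgebra S).toSubalgebra =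
      Submodule.span ℂ (cfun '' (S : Set (K →ₜ+ UnitAddCircle))) := by
  apply Algebra.adjoin_eq_span_of_subset
  refine Set.Subset.trans ?_ Submodule.subset_span
  intro x hx
  refine Submonoid.closure_induction (fun _ => id) ⟨0, S.zero_mem, cfun_zero⟩ ?_ hx
  rintro - - - - ⟨φ, hφ, rfl⟩ ⟨ψ, hψ, rfl⟩
  exact ⟨φ + ψ, S.add_mem hφ hψ, cfun_add φ ψ⟩

lemma charSubalgebra_dense (S : AddSubgroup (K →ₜ+ UnitAddCircle))
    (hS : ∀ x : K, x ≠ 0 → ∃ φ ∈ S, φ x ≠ 0) : (charSubalgebra S).topologicalClosure = ⊤ := by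
  apply ContinuousMap.starSubalgebra_topologicalClosure_eq_top_of_separatesPoints
  intro x y hxy
  obtain ⟨φ, hφ, h⟩ := hS (x - y) (sub_ne_zero.2 hxy)
  refine ⟨_, ⟨cfun φ, Algebra.subset_adjoin ⟨φ, hφ, rfl⟩, rfl⟩, ?_⟩
  apply toCircle_ne
  intro h2
  apply h
  rw [map_sub, h2, sub_self]

/-- a separating group of characters of a compact group contains every character -/
theorem mem_of_separates (S : AddSubgroup (K →ₜ+ UnitAddCircle))
    (hS : ∀ x : K, x ≠ 0 → ∃ φ ∈ S, φ x ≠ 0) (ψ : K →ₜ+ UnitAddCircle) : ψ ∈ S := by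
  by_contra hψ
  let _ : MeasurableSpace K := borel K
  have _ : BorelSpace K := ⟨rfl⟩
  let μ : Measure K := Measure.addHaar
  have hint : ∀ f : C(K, ℂ), Integrable (fun x => f x) μ := by
    intro f
    exact f.continuous.integrable_of_hasCompactSupport (HasCompactSupport.of_compactSpace _)
  -- everything in the subalgebra is orthogonal to `ψ`
  have horth : ∀ f ∈ Submodule.span ℂ (cfun '' (S : Set (K →ₜ+ UnitAddCircle))),
      ∫ x, (f * cfun (-ψ)) x ∂μ = 0 := by
    intro f hf
    induction hf using Submodule.span_induction with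
    | mem f hf =>
      obtain ⟨φ, hφ, rfl⟩ := hf
      rw [← cfun_add]
      apply integral_cfun
      intro h
      apply hψ
      rw [← sub_eq_add_neg, sub_eq_zero] at h
      rwa [← h]
    | zero => simp
    | add f g _ _ hf hg =>
      have : ∀ x, ((f + g) * cfun (-ψ)) x = (f * cfun (-ψ)) x + (g * cfun (-ψ)) x := by
        intro x
        rw [add_mul, ContinuousMap.add_apply]
      simp only [this]
      rw [integral_add (hint _) (hint _), hf, hg, add_zero]
    | smul c f _ hf =>
      have : ∀ x, ((c • f) * cfun (-ψ)) x = c * (f * cfun (-ψ)) x := by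
        intro x
        rw [smul_mul_assoc, ContinuousMap.smul_apply, smul_eq_mul]
      simp only [this]
      rw [integral_const_mul, hf, mul_zero]
  have hd : cfun ψ ∈ closure ((charSubalgebra S : StarSubalgebra ℂ C(K, ℂ)) : Set C(K, ℂ)) := by
    have h := charSubalgebra_dense S hS
    have h2 : cfun ψ ∈ (charSubalgebra S).topologicalClosure := by
      rw [h]
      exact StarSubalgebra.mem_top
    exact h2
  obtain ⟨f, hf, hfd⟩ := Metric.mem_closure_iff.1 hd (1 / 2) (by norm_num)
  have hf' : f ∈ Submodule.span ℂ (cfun '' (S : Set (K →ₜ+ UnitAddCircle))) := by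
    rw [← charSubalgebra_coe]
    exact hf
  have h1 : ∫ x, ((cfun ψ - f) * cfun (-ψ)) x ∂μ = (μ.real Set.univ : ℂ) := by
    have : ∀ x, ((cfun ψ - f) * cfun (-ψ)) x = 1 - (f * cfun (-ψ)) x := by
      intro x
      rw [sub_mul, ← cfun_add, add_neg_cancel, cfun_zero]
      rfl
    simp only [this]
    rw [integral_sub (integrable_const _) (hint _), horth f hf', sub_zero, integral_const]
    simp
  have h2 : ‖∫ x, ((cfun ψ - f) * cfun (-ψ)) x ∂μ‖ ≤ 1 / 2 * μ.real Set.univ := by
    apply norm_integral_le_of_norm_le_const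
    refine Filter.Eventually.of_forall fun x => ?_
    rw [ContinuousMap.mul_apply, norm_mul, cfun_apply, Circle.norm_coe, mul_one]
    have := ContinuousMap.norm_coe_le_norm (cfun ψ - f) x
    rw [dist_eq_norm] at hfd
    linarith
  rw [h1] at h2
  have h3 : 0 < μ.real Set.univ := by
    rw [Measure.real, ENNReal.toReal_pos_iff]
    exact ⟨IsOpen.measure_pos μ isOpen_univ Set.univ_nonempty, measure_lt_top μ _⟩
  rw [Complex.norm_real, Real.norm_eq_abs, abs_of_pos h3] at h2
  linarith

end

/-- the evaluation map of a discrete group is surjective -/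
theorem eta_surjective_of_discrete {D : Type*} [AddCommGroup D] [TopologicalSpace D]
    [DiscreteTopology D] : Function.Surjective (eta D) := by
  intro ψ
  have h := mem_of_separates (K := Dual D) (etaHom D).range ?_ ψ
  · obtain ⟨d, hd⟩ := h
    exact ⟨d, hd⟩
  · intro χ hχ
    obtain ⟨d, hd⟩ : ∃ d, χ d ≠ 0 := by
      by_contra h
      push Not at h
      exact hχ (ContinuousAddMonoidHom.ext h)
    exact ⟨etaHom D d, ⟨d, rfl⟩, hd⟩

end Pool.Agent.Work.MP_c629c8_al
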