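import Mathlib
import Pool.Agent.Work.MP_c629c8_al.Basic

/-!
# Linearly topologised groups whose topology is countably generated modulo Artinian groups
-/

namespace Pool.Agent.Work.MP_c629c8_al

open Topology

section defs

variable {X : Type*} [AddCommGroup X]

/-- the minimal condition on subgroups of `Q` modulo `P` -/
def ArtCond (P Q : AddSubgroup X) : Prop :=
  ∀ S : Set (AddSubgroup X), S.Nonempty → (∀ B ∈ S, B ≤ Q) →
    ∃ B₁ ∈ S, ∀ B ∈ S, B ≤ B₁ → B₁ ≤ B ⊔ P

variable (X) [TopologicalSpace X]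

/-- coherent families of points converge -/
def LinComplete : Prop :=
  ∀ x : OpenAddSubgroup X → X, (∀ N M, M ≤ N → x M - x N ∈ N) → ∃ y, ∀ N, y - x N ∈ N

/-- the condition (A) for a sequence of open subgroups -/
def GoodSeq (U : ℕ → OpenAddSubgroup X) : Prop :=
  Antitone U ∧ ∀ N : OpenAddSubgroup X, ∃ n,
    ArtCond ((U n : AddSubgroup X) ⊓ (N : AddSubgroup X)) (U n : AddSubgroup X)

end defs

section cosets

variable {X : Type*} [AddCommGroup X]

/-- the coset of `B` at `x` -/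
def cst (x : X) (B : AddSubgroup X) : Set X := {y | y - x ∈ B}

lemma mem_cst {x y : X} {B : AddSubgroup X} : y ∈ cst x B ↔ y - x ∈ B := Iff.rfl

lemma self_mem_cst (x : X) (B : AddSubgroup X) : x ∈ cst x B := by
  rw [mem_cst, sub_self]
  exact B.zero_mem

lemma cst_eq {x y : X} {B : AddSubgroup X} (h : y ∈ cst x B) : cst y B = cst x B := by
  ext z
  rw [mem_cst, mem_cst] at *
  constructor
  · intro hz
    have := B.add_mem hz h
    rwa [sub_add_sub_cancel] at this
  · intro hz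
    have := B.sub_mem hz h
    rwa [sub_sub_sub_cancel_right] at this

lemma cst_mono {x : X} {B C : AddSubgroup X} (h : B ≤ C) : cst x B ⊆ cst x C := fun _ hy => h hy

lemma cst_inter {x : X} {B C : AddSubgroup X} : cst x B ∩ cst x C = cst x (B ⊓ C) := rfl

/-- the cosets form a basis of the filter -/
def CosetBasis (F : Filter X) : Prop := ∀ s ∈ F, ∃ x B, cst x B ∈ F ∧ cst x B ⊆ s

lemma isClosed_cst [TopologicalSpace X] [IsTopologicalAddGroup X] (x : X)
    (B : AddSubgroup X) (hB : IsClosed (B : Set X)) : IsClosed (cst x B) := by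
  have : cst x B = (fun y => y - x) ⁻¹' (B : Set X) := rfl
  rw [this]
  exact hB.preimage (continuous_id.sub continuous_const)

end cosets

section main

variable {X : Type*} [AddCommGroup X] [TopologicalSpace X] [NonarchimedeanAddGroup X]

/-- a filter with a basis of cosets, that contains a coset of each `U n`, has a point that belongs
to the closures of all its members -/
theorem exists_mem_closure (hX : LinComplete X) {U : ℕ → OpenAddSubgroup X} (hU : GoodSeq X U)
    (F : Filter X) (hne : F.NeBot) (hF : CosetBasis F)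
    (hFU : ∀ n, ∃ x, cst x (U n : AddSubgroup X) ∈ F) : ∃ x, ∀ s ∈ F, x ∈ closure s := by
  classical
  let T : Set (Filter X)ᵒᵈ := {G | (OrderDual.ofDual G).NeBot ∧ CosetBasis (OrderDual.ofDual G)}
  obtain ⟨G, hFG, hG⟩ := zorn_le_nonempty₀ T (by
    intro c hc hchain y hy
    have hd : DirectedOn (· ≥ ·) (OrderDual.ofDual '' c) := by
      rintro _ ⟨a, ha, rfl⟩ _ ⟨b, hb, rfl⟩
      rcases hchain.total ha hb with h | h
      · exact ⟨_, ⟨b, hb, rfl⟩, h, le_refl _⟩
      · exact ⟨_, ⟨a, ha, rfl⟩, le_refl _, h⟩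
    have hcn : (OrderDual.ofDual '' c).Nonempty := ⟨_, y, hy, rfl⟩
    have hmem : ∀ s, s ∈ sInf (OrderDual.ofDual '' c) ↔
        ∃ G ∈ c, s ∈ (OrderDual.ofDual G : Filter X) := by
      intro s
      have hnn : Nonempty (OrderDual.ofDual '' c) := hcn.to_subtype
      rw [sInf_eq_iInf', Filter.mem_iInf_of_directed hd.directed_val]
      constructor
      · rintro ⟨⟨_, ⟨G, hG, rfl⟩⟩, h⟩
        exact ⟨G, hG, h⟩
      · rintro ⟨G, hG, h⟩
        exact ⟨⟨_, ⟨G, hG, rfl⟩⟩, h⟩
    refine ⟨OrderDual.toDual (sInf (OrderDual.ofDual '' c)), ⟨?_, ?_⟩, ?_⟩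
    · apply Filter.sInf_neBot_of_directed' hcn hd
      rintro ⟨G, hG, h⟩
      exact (hc hG).1.ne h
    · intro s hs
      obtain ⟨G, hG, h⟩ := (hmem s).1 hs
      obtain ⟨x, B, h1, h2⟩ := (hc hG).2 s h
      exact ⟨x, B, (hmem _).2 ⟨G, hG, h1⟩, h2⟩
    · intro z hz
      have hz' : (OrderDual.ofDual z : Filter X) ∈ OrderDual.ofDual '' c := ⟨z, hz, rfl⟩
      have hz2 : sInf (OrderDual.ofDual '' c) ≤ (OrderDual.ofDual z : Filter X) := sInf_le hz'
      exact hz2) (OrderDual.toDual F) ⟨hne, hF⟩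
  have hGF : OrderDual.ofDual G ≤ F := hFG
  set G' : Filter X := OrderDual.ofDual G with hG'
  have hGne : G'.NeBot := hG.prop.1
  have hGb : CosetBasis G' := hG.prop.2
  -- the maximal filter contains cosets of all open subgroups
  have key : ∀ N : OpenAddSubgroup X, ∃ x, cst x (N : AddSubgroup X) ∈ G' := by
    intro N
    obtain ⟨n, hn⟩ := hU.2 N
    obtain ⟨x₀, hx₀⟩ := hFU n
    obtain ⟨B₁, ⟨⟨x₁, hx₁⟩, hB₁⟩, hmin⟩ := hn
      {B | (∃ x, cst x B ∈ G') ∧ B ≤ (U n : AddSubgroup X)} ⟨_, ⟨x₀, hGF hx₀⟩, le_refl _⟩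
      (fun B hB => hB.2)
    refine ⟨x₁, ?_⟩
    have hmeet : ∀ s ∈ G', (s ∩ cst x₁ (N : AddSubgroup X)).Nonempty := by
      intro s hs
      obtain ⟨x₂, B₂, h2, h3⟩ := hGb _ (Filter.inter_mem hs hx₁)
      have h4 : x₂ - x₁ ∈ B₁ := (h3 (self_mem_cst x₂ B₂)).2
      have h5 : B₂ ≤ B₁ := by
        intro b hb
        have h6 : b + x₂ ∈ cst x₁ B₁ := (h3 (show b + x₂ ∈ cst x₂ B₂ by
          rw [mem_cst, add_sub_cancel_right]; exact hb)).2
        have h7 := B₁.sub_mem h6 h4
        rwa [sub_sub_sub_cancel_right, add_sub_cancel_right] at h7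
      have h6 := hmin B₂ ⟨⟨x₂, h2⟩, h5.trans hB₁⟩ h5
      have h7 : x₁ - x₂ ∈ B₂ ⊔ ((U n : AddSubgroup X) ⊓ (N : AddSubgroup X)) := by
        apply h6
        rw [← neg_sub]
        exact B₁.neg_mem h4
      obtain ⟨b, hb, p, hp, hbp⟩ := AddSubgroup.mem_sup.1 h7
      refine ⟨x₂ + b, (h3 ?_).1, ?_⟩
      · rw [mem_cst, add_sub_cancel_left]
        exact hb
      · rw [mem_cst]
        have : x₂ + b - x₁ = -p := by
          rw [eq_neg_iff_add_eq_zero, ← sub_eq_zero.2 hbp]
          abel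
        rw [this]
        exact (N : AddSubgroup X).neg_mem hp.2
    have hne' : (G' ⊓ Filter.principal (cst x₁ (N : AddSubgroup X))).NeBot :=
      Filter.inf_principal_neBot_iff.2 hmeet
    have hb' : CosetBasis (G' ⊓ Filter.principal (cst x₁ (N : AddSubgroup X))) := by
      intro s hs
      rw [Filter.mem_inf_principal] at hs
      obtain ⟨x₂, B₂, h2, h3⟩ := hGb _ hs
      obtain ⟨z, hz1, hz2⟩ := hmeet _ h2
      refine ⟨z, B₂ ⊓ (N : AddSubgroup X), ?_, ?_⟩
      · rw [← cst_inter, cst_eq hz1, cst_eq hz2]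
        exact Filter.inter_mem (Filter.mem_inf_of_left h2)
          (Filter.mem_inf_of_right (Filter.mem_principal_self _))
      · rw [← cst_inter, cst_eq hz1, cst_eq hz2]
        rintro y ⟨hy1, hy2⟩
        exact h3 hy1 hy2
    have h := hG.le_of_ge (y := OrderDual.toDual
      (G' ⊓ Filter.principal (cst x₁ (N : AddSubgroup X)))) ⟨hne', hb'⟩
      (show (G' ⊓ Filter.principal (cst x₁ (N : AddSubgroup X))) ≤ G' from inf_le_left)
    have h2 : G' ≤ G' ⊓ Filter.principal (cst x₁ (N : AddSubgroup X)) := h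
    exact h2 (Filter.mem_inf_of_right (Filter.mem_principal_self _))
  choose x hx using key
  obtain ⟨y, hy⟩ := hX x (by
    intro N M hMN
    obtain ⟨z, hz1, hz2⟩ := Filter.nonempty_of_mem (Filter.inter_mem (hx N) (hx M))
    have h1 : z - x N ∈ N := hz1
    have h2 : z - x M ∈ N := hMN hz2
    have h3 := sub_mem h1 h2
    rwa [sub_sub_sub_cancel_left] at h3)
  refine ⟨y, fun s hs => ?_⟩
  rw [mem_closure_iff_nhds]
  intro W hW
  have hW0 : (fun t => y + t) ⁻¹' W ∈ 𝓝 (0 : X) := by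
    apply (continuous_const.add continuous_id).continuousAt.preimage_mem_nhds
    simpa using hW
  obtain ⟨N, hN⟩ := NonarchimedeanAddGroup.is_nonarchimedean _ hW0
  obtain ⟨z, hz1, hz2⟩ := Filter.nonempty_of_mem (Filter.inter_mem (hx N) (hGF hs))
  refine ⟨z, ?_, hz2⟩
  have h1 : z - x N ∈ N := hz1
  have h2 : z - y ∈ N := by
    have := sub_mem h1 (hy N)
    rwa [sub_sub_sub_cancel_right] at this
  have h3 := hN h2
  simpa using h3

/-- the version for a decreasing sequence of closed cosets -/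
theorem exists_mem_iInter (hX : LinComplete X) {U : ℕ → OpenAddSubgroup X} (hU : GoodSeq X U)
    (x : ℕ → X) (B : ℕ → AddSubgroup X) (hBc : ∀ n, IsClosed (B n : Set X))
    (hB : ∀ n, B n ≤ (U n : AddSubgroup X)) (hanti : Antitone B)
    (hx : ∀ n, x (n + 1) ∈ cst (x n) (B n)) : ∃ y, ∀ n, y ∈ cst (x n) (B n) := by
  have hanti2 : Antitone (fun n => cst (x n) (B n)) := by
    apply antitone_nat_of_succ_le
    intro n
    rw [← cst_eq (hx n)]
    exact cst_mono (hanti (Nat.le_succ n))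
  let F : Filter X := ⨅ n, Filter.principal (cst (x n) (B n))
  have hdir : Directed (· ≥ ·) (fun n => Filter.principal (cst (x n) (B n))) := by
    apply directed_of_isDirected_le
    intro m n hmn
    exact Filter.principal_mono.2 (hanti2 hmn)
  have hmem : ∀ s, s ∈ F ↔ ∃ n, cst (x n) (B n) ⊆ s := by
    intro s
    rw [Filter.mem_iInf_of_directed hdir]
    simp only [Filter.mem_principal]
  obtain ⟨y, hy⟩ := exists_mem_closure hX hU F (by
    apply Filter.iInf_neBot_of_directed hdir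
    intro n
    exact Filter.principal_neBot_iff.2 ⟨_, self_mem_cst _ _⟩) (by
    intro s hs
    obtain ⟨n, hn⟩ := (hmem s).1 hs
    exact ⟨x n, B n, (hmem _).2 ⟨n, le_refl _⟩, hn⟩) (by
    intro n
    exact ⟨x n, (hmem _).2 ⟨n, cst_mono (hB n)⟩⟩)
  refine ⟨y, fun n => ?_⟩
  have := hy _ ((hmem _).2 ⟨n, le_refl _⟩)
  rwa [(isClosed_cst _ _ (hBc n)).closure_eq] at this

end main

end Pool.Agent.Work.MP_c629c8_al
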