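import Mathlib
import Pool.Agent.Work.MP_c629c8_al.Linear

/-!
# Closed subgroups and quotients
-/

namespace Pool.Agent.Work.MP_c629c8_al

open Topology

variable {X : Type*} [AddCommGroup X] [TopologicalSpace X] [NonarchimedeanAddGroup X]

section subgroup

variable (H : AddSubgroup X)

/-- the trace of an open subgroup -/
def traceOpen (N : OpenAddSubgroup X) : OpenAddSubgroup H :=
  N.comap H.subtype continuous_subtype_val

lemma mem_traceOpen {N : OpenAddSubgroup X} {h : H} : h ∈ traceOpen H N ↔ (h : X) ∈ N := Iff.rfl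

lemma exists_traceOpen_sub {W : Set H} (hW : W ∈ 𝓝 (0 : H)) :
    ∃ N : OpenAddSubgroup X, (traceOpen H N : Set H) ⊆ W := by
  rw [nhds_subtype, Filter.mem_comap] at hW
  obtain ⟨V, hV, hVW⟩ := hW
  obtain ⟨N, hN⟩ := NonarchimedeanAddGroup.is_nonarchimedean V hV
  exact ⟨N, fun h hh => hVW (hN hh)⟩

instance instNonarchSubgroup : NonarchimedeanAddGroup H where
  is_nonarchimedean := fun W hW => by
    obtain ⟨N, hN⟩ := exists_traceOpen_sub H hW
    exact ⟨traceOpen H N, hN⟩

lemma exists_traceOpen_le (M : OpenAddSubgroup H) : ∃ N : OpenAddSubgroup X,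
    traceOpen H N ≤ M := by
  obtain ⟨N, hN⟩ := exists_traceOpen_sub H M.mem_nhds_zero
  exact ⟨N, hN⟩

theorem linComplete_subgroup (hX : LinComplete X) (hH : IsClosed (H : Set X)) :
    LinComplete H := by
  intro x hx
  obtain ⟨y, hy⟩ := hX (fun N => (x (traceOpen H N) : X)) (by
    intro N M hMN
    exact hx (traceOpen H N) (traceOpen H M) (fun h hh => hMN hh))
  have hyH : y ∈ H := by
    have : y ∈ closure (H : Set X) := by
      rw [mem_closure_iff_nhds]
      intro W hW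
      have hW0 : (fun t => y - t) ⁻¹' W ∈ 𝓝 (0 : X) := by
        apply (continuous_const.sub continuous_id).continuousAt.preimage_mem_nhds
        simpa using hW
      obtain ⟨N, hN⟩ := NonarchimedeanAddGroup.is_nonarchimedean _ hW0
      refine ⟨(x (traceOpen H N) : X), ?_, (x (traceOpen H N)).2⟩
      have := hN (hy N)
      simpa using this
    rwa [hH.closure_eq] at this
  refine ⟨⟨y, hyH⟩, fun M => ?_⟩
  obtain ⟨N, hN⟩ := exists_traceOpen_le H M
  have h1 := hx M (traceOpen H N) hN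
  have h2 : (⟨y, hyH⟩ : H) - x (traceOpen H N) ∈ M := hN (hy N)
  have := add_mem h2 h1
  rwa [sub_add_sub_cancel] at this

theorem goodSeq_subgroup {U : ℕ → OpenAddSubgroup X} (hU : GoodSeq X U) :
    GoodSeq H (fun n => traceOpen H (U n)) := by
  refine ⟨fun m n hmn h hh => hU.1 hmn hh, fun M => ?_⟩
  obtain ⟨N, hN⟩ := exists_traceOpen_le H M
  obtain ⟨n, hn⟩ := hU.2 N
  refine ⟨n, fun S hS hSU => ?_⟩
  obtain ⟨_, ⟨B₁, hB₁, rfl⟩, hmin⟩ := hn ((fun B => B.map H.subtype) '' S) (hS.image _) (by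
    rintro _ ⟨B, hB, rfl⟩
    rintro _ ⟨b, hb, rfl⟩
    exact hSU B hB hb)
  refine ⟨B₁, hB₁, fun B hB hle => ?_⟩
  have h1 := hmin _ ⟨B, hB, rfl⟩ (AddSubgroup.map_mono hle)
  intro b hb
  obtain ⟨_, ⟨b', hb', rfl⟩, p, hp, hbp⟩ := AddSubgroup.mem_sup.1 (h1 ⟨b, hb, rfl⟩)
  have hpH : p = ((b - b' : H) : X) := by
    rw [AddSubgroup.coe_sub]
    exact eq_sub_of_add_eq' hbp
  refine AddSubgroup.mem_sup.2 ⟨b', hb', b - b', ⟨?_, ?_⟩, add_sub_cancel _ _⟩
  · have := hp.1
    rw [hpH] at this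
    exact this
  · have := hp.2
    rw [hpH] at this
    exact hN this

end subgroup

section quotient

variable (H : AddSubgroup X)

/-- the image of an open subgroup -/
def imageOpen (N : OpenAddSubgroup X) : OpenAddSubgroup (X ⧸ H) where
  toAddSubgroup := (N : AddSubgroup X).map (QuotientAddGroup.mk' H)
  isOpen' := by
    have := QuotientAddGroup.isOpenMap_coe (N := H) _ N.isOpen
    exact this

/-- the preimage of an open subgroup -/
def preOpen (N : OpenAddSubgroup (X ⧸ H)) : OpenAddSubgroup X :=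
  N.comap (QuotientAddGroup.mk' H) continuous_quot_mk

lemma mem_imageOpen {N : OpenAddSubgroup X} {q : X ⧸ H} :
    q ∈ imageOpen H N ↔ ∃ x ∈ N, (QuotientAddGroup.mk x : X ⧸ H) = q := Iff.rfl

lemma mem_preOpen {N : OpenAddSubgroup (X ⧸ H)} {x : X} :
    x ∈ preOpen H N ↔ (QuotientAddGroup.mk x : X ⧸ H) ∈ N := Iff.rfl

instance instNonarchQuotient : NonarchimedeanAddGroup (X ⧸ H) where
  is_nonarchimedean := fun W hW => by
    have h : (QuotientAddGroup.mk : X → X ⧸ H) ⁻¹' W ∈ 𝓝 (0 : X) :=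
      (continuous_quot_mk (r := QuotientAddGroup.leftRel H)).continuousAt.preimage_mem_nhds hW
    obtain ⟨N, hN⟩ := NonarchimedeanAddGroup.is_nonarchimedean _ h
    refine ⟨imageOpen H N, ?_⟩
    rintro _ ⟨x, hx, rfl⟩
    exact hN hx

theorem goodSeq_quotient {U : ℕ → OpenAddSubgroup X} (hU : GoodSeq X U) :
    GoodSeq (X ⧸ H) (fun n => imageOpen H (U n)) := by
  refine ⟨?_, fun M => ?_⟩
  · rintro m n hmn _ ⟨x, hx, rfl⟩
    exact ⟨x, hU.1 hmn hx, rfl⟩
  obtain ⟨n, hn⟩ := hU.2 (preOpen H M)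
  refine ⟨n, fun S hS hSU => ?_⟩
  obtain ⟨_, ⟨B₁, hB₁, rfl⟩, hmin⟩ := hn
    ((fun B => B.comap (QuotientAddGroup.mk' H) ⊓ (U n : AddSubgroup X)) '' S) (hS.image _) (by
    rintro _ ⟨B, hB, rfl⟩
    exact inf_le_right)
  refine ⟨B₁, hB₁, fun B hB hle => ?_⟩
  have h1 := hmin _ ⟨B, hB, rfl⟩ (inf_le_inf_right _ (AddSubgroup.comap_mono hle))
  intro b hb
  obtain ⟨u, hu, rfl⟩ := hSU B₁ hB₁ hb
  obtain ⟨v, hv, p, hp, hvp⟩ := AddSubgroup.mem_sup.1 (h1 ⟨hb, hu⟩)
  refine AddSubgroup.mem_sup.2 ⟨QuotientAddGroup.mk' H v, hv.1, QuotientAddGroup.mk' H p,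
    ⟨⟨p, hp.1, rfl⟩, hp.2⟩, ?_⟩
  rw [← map_add, hvp]

theorem linComplete_quotient (hX : LinComplete X) {U : ℕ → OpenAddSubgroup X}
    (hU : GoodSeq X U) : LinComplete (X ⧸ H) := by
  intro y hy
  -- a sequence of points
  choose z hz using fun n => QuotientAddGroup.mk_surjective (y (imageOpen H (U n)))
  have hstep : ∀ n, ∃ h ∈ H, z (n + 1) - z n - h ∈ U n := by
    intro n
    have h1 : imageOpen H (U (n + 1)) ≤ imageOpen H (U n) :=
      (goodSeq_quotient H hU).1 (Nat.le_succ n)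
    have h2 := hy _ _ h1
    rw [← hz n, ← hz (n + 1)] at h2
    obtain ⟨u, hu, hu2⟩ := h2
    refine ⟨z (n + 1) - z n - u, ?_, ?_⟩
    · rw [← QuotientAddGroup.eq_zero_iff]
      have : (QuotientAddGroup.mk (z (n + 1) - z n - u) : X ⧸ H) =
          QuotientAddGroup.mk (z (n + 1)) - QuotientAddGroup.mk (z n) -
            QuotientAddGroup.mk u := rfl
      rw [this, sub_eq_zero]
      exact hu2.symm
    · rw [sub_sub_cancel]
      exact hu
  choose h hhH hh using hstep
  set x : ℕ → X := fun n => z n - ∑ k ∈ Finset.range n, h k with hxdef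
  have hx1 : ∀ n, (QuotientAddGroup.mk (x n) : X ⧸ H) = y (imageOpen H (U n)) := by
    intro n
    rw [← hz n, QuotientAddGroup.eq]
    have : -x n + z n = ∑ k ∈ Finset.range n, h k := by
      show -(z n - ∑ k ∈ Finset.range n, h k) + z n = _
      abel
    rw [this]
    exact H.sum_mem fun k _ => hhH k
  have hx2 : ∀ n, x (n + 1) ∈ cst (x n) (U n : AddSubgroup X) := by
    intro n
    rw [mem_cst]
    have : x (n + 1) - x n = z (n + 1) - z n - h n := by
      simp only [hxdef, Finset.sum_range_succ]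
      abel
    rw [this]
    exact hh n
  have hanti : Antitone (fun n => cst (x n) (U n : AddSubgroup X)) := by
    apply antitone_nat_of_succ_le
    intro n
    rw [← cst_eq (hx2 n)]
    exact cst_mono (hU.1 (Nat.le_succ n))
  -- the filter
  let S : OpenAddSubgroup (X ⧸ H) → Set X := fun M => {t | (QuotientAddGroup.mk t : X ⧸ H) - y M ∈ M}
  have hSmono : ∀ M N, M ≤ N → S M ⊆ S N := by
    intro M N hMN t ht
    have h1 : (QuotientAddGroup.mk t : X ⧸ H) - y M ∈ N := hMN ht
    have := add_mem h1 (hy N M hMN)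
    rwa [sub_add_sub_cancel] at this
  have hSc : ∀ M t, t ∈ S M → S M = cst t (preOpen H M : AddSubgroup X) := by
    intro M t ht
    ext s
    have e : (QuotientAddGroup.mk (s - t) : X ⧸ H) =
      (QuotientAddGroup.mk s - y M) - (QuotientAddGroup.mk t - y M) := by
      rw [sub_sub_sub_cancel_right]
      rfl
    constructor
    · intro hs
      show (QuotientAddGroup.mk (s - t) : X ⧸ H) ∈ M
      rw [e]
      exact sub_mem hs ht
    · intro hs
      have hs' : (QuotientAddGroup.mk (s - t) : X ⧸ H) ∈ M := hs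
      rw [e] at hs'
      have := add_mem hs' ht
      rwa [sub_add_cancel] at this
  have hSne : ∀ M n, (S M ∩ cst (x n) (U n : AddSubgroup X)).Nonempty := by
    intro M n
    obtain ⟨z', hz'⟩ := QuotientAddGroup.mk_surjective (y (M ⊓ imageOpen H (U n)))
    have h1 := hy _ _ (inf_le_right : M ⊓ imageOpen H (U n) ≤ imageOpen H (U n))
    have h2 := hy _ _ (inf_le_left : M ⊓ imageOpen H (U n) ≤ M)
    rw [← hz', ← hx1 n] at h1
    obtain ⟨u, hu, hu2⟩ := h1
    have hu3 : z' - x n - u ∈ H := by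
      rw [← QuotientAddGroup.eq_zero_iff]
      have : (QuotientAddGroup.mk (z' - x n - u) : X ⧸ H) =
          QuotientAddGroup.mk z' - QuotientAddGroup.mk (x n) - QuotientAddGroup.mk u := rfl
      rw [this, sub_eq_zero]
      exact hu2.symm
    refine ⟨x n + u, ?_, ?_⟩
    · show (QuotientAddGroup.mk (x n + u) : X ⧸ H) - y M ∈ M
      have : (QuotientAddGroup.mk (x n + u) : X ⧸ H) = QuotientAddGroup.mk z' := by
        rw [QuotientAddGroup.eq]
        convert hu3 using 1
        abel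
      rw [this, hz']
      exact h2
    · rw [mem_cst, add_sub_cancel_left]
      exact hu
  let f : (OpenAddSubgroup (X ⧸ H))ᵒᵈ × ℕ → Filter X := fun p =>
    Filter.principal (S (OrderDual.ofDual p.1) ∩ cst (x p.2) (U p.2 : AddSubgroup X))
  have hdir : Directed (· ≥ ·) f := by
    apply directed_of_isDirected_le
    rintro ⟨M, m⟩ ⟨N, n⟩ ⟨h1, h2⟩
    exact Filter.principal_mono.2 (Set.inter_subset_inter (hSmono _ _ h1) (hanti h2))
  let F : Filter X := ⨅ p, f p
  have hmem : ∀ s, s ∈ F ↔ ∃ M n, S M ∩ cst (x n) (U n : AddSubgroup X) ⊆ s := by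
    intro s
    rw [Filter.mem_iInf_of_directed hdir]
    simp only [Filter.mem_principal, f, Prod.exists]
    exact Iff.rfl
  obtain ⟨t, ht⟩ := exists_mem_closure hX hU F (by
    apply Filter.iInf_neBot_of_directed hdir
    rintro ⟨M, n⟩
    exact Filter.principal_neBot_iff.2 (hSne _ n)) (by
    intro s hs
    obtain ⟨M, n, hMn⟩ := (hmem s).1 hs
    obtain ⟨w, hw1, hw2⟩ := hSne M n
    have e : S M ∩ cst (x n) (U n : AddSubgroup X) =
        cst w ((preOpen H M : AddSubgroup X) ⊓ (U n : AddSubgroup X)) := by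
      rw [hSc M w hw1, ← cst_eq hw2, cst_inter]
    exact ⟨w, _, (hmem _).2 ⟨M, n, e.le⟩, e ▸ hMn⟩) (by
    intro n
    exact ⟨x n, (hmem _).2 ⟨⊤, n, Set.inter_subset_right⟩⟩)
  refine ⟨QuotientAddGroup.mk t, fun M => ?_⟩
  have h1 := ht (S M) ((hmem _).2 ⟨M, 0, Set.inter_subset_left⟩)
  obtain ⟨w, hw1, -⟩ := hSne M 0
  rw [hSc M w hw1, (isClosed_cst _ _ (preOpen H M).isClosed).closure_eq, ← hSc M w hw1] at h1
  exact h1

end quotient

end Pool.Agent.Work.MP_c629c8_al
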