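import Mathlib
import Pool.Agent.Work.MP_c629c8_al.Inherit

/-!
# Compact sets of characters vanish on an open subgroup

A gliding hump argument.
-/

namespace Pool.Agent.Work.MP_c629c8_al

open Topology

section

variable {X : Type*} [AddCommGroup X] [TopologicalSpace X]

/-- sequences in a compact set of characters have pointwise cluster points -/
lemma exists_lim {E : Set (Dual X)} (hE : IsCompact E) (a : ℕ → Dual X) (ha : ∀ n, a n ∈ E) :
    ∃ χ ∈ E, ∀ y : X, Filter.Tendsto (fun n => a n y) (Filter.hyperfilter ℕ : Filter ℕ)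
      (𝓝 (χ y)) := by
  obtain ⟨χ, hχ, hle⟩ := hE.ultrafilter_le_nhds (Ultrafilter.map a (Filter.hyperfilter ℕ)) (by
    rw [Ultrafilter.coe_map, Filter.le_principal_iff]
    exact Filter.mem_map.2 (Filter.univ_mem' ha))
  refine ⟨χ, hχ, fun y => ?_⟩
  have h1 : Filter.Tendsto a (Filter.hyperfilter ℕ : Filter ℕ) (𝓝 χ) := hle
  have h2 : Continuous (fun ψ : Dual X => ψ y) := ContinuousEvalConst.continuous_eval_const y
  exact (h2.tendsto χ).comp h1

variable [NonarchimedeanAddGroup X]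

/-- the kernel of a character is open -/
def kerOpen (χ : Dual X) : OpenAddSubgroup X where
  toAddSubgroup := (χ.toAddMonoidHom).ker
  isOpen' := by
    obtain ⟨V, hV⟩ := exists_open_ker χ
    exact AddSubgroup.isOpen_mono (H₁ := (V : AddSubgroup X)) (fun v hv => hV v hv) V.isOpen

lemma mem_kerOpen {χ : Dual X} {x : X} : x ∈ kerOpen χ ↔ χ x = 0 := Iff.rfl

/-- characters that vanish on the intersection of a decreasing sequence of open subgroups `Z n`
with `Z n ≤ U n` vanish on one of them -/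
lemma exists_vanish (hX : LinComplete X) {U : ℕ → OpenAddSubgroup X} (hU : GoodSeq X U)
    (Z : ℕ → OpenAddSubgroup X) (hZ : Antitone Z) (hZU : ∀ n, Z n ≤ U n) (χ : Dual X)
    (hχ : ∀ y, (∀ n, y ∈ Z n) → χ y = 0) : ∃ m, ∀ y ∈ Z m, χ y = 0 := by
  obtain ⟨n₀, hn₀⟩ := hU.2 (kerOpen χ)
  obtain ⟨_, ⟨m₁, hm₁, rfl⟩, hmin⟩ := hn₀ ((fun m => (Z m : AddSubgroup X)) '' {m | n₀ ≤ m})
    ⟨_, n₀, le_refl n₀, rfl⟩ (by
    rintro _ ⟨m, hm, rfl⟩
    exact (hZU m).trans (hU.1 hm))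
  refine ⟨m₁, fun s hs => ?_⟩
  have h1 : ∀ j, ∃ b ∈ Z (m₁ + j), χ b = χ s := by
    intro j
    have h2 := hmin (Z (m₁ + j) : AddSubgroup X) ⟨m₁ + j, le_trans hm₁ (Nat.le_add_right _ _), rfl⟩
      (hZ (Nat.le_add_right _ _)) hs
    obtain ⟨b, hb, p, hp, hbp⟩ := AddSubgroup.mem_sup.1 h2
    refine ⟨b, hb, ?_⟩
    have hp0 : χ p = 0 := hp.2
    rw [← hbp, map_add, hp0, add_zero]
  choose b hb hbs using h1
  obtain ⟨y, hy⟩ := exists_mem_iInter hX hU b
    (fun j => (kerOpen χ : AddSubgroup X) ⊓ (Z (m₁ + j) : AddSubgroup X))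
    (fun j => ((kerOpen χ) ⊓ (Z (m₁ + j))).isClosed)
    (fun j => inf_le_right.trans ((hZU _).trans (hU.1 (Nat.le_add_left _ _))))
    (by
      intro i j hij
      exact inf_le_inf_left _ (hZ (Nat.add_le_add_left hij _)))
    (by
      intro j
      refine ⟨?_, ?_⟩
      · show χ (b (j + 1) - b j) = 0
        rw [map_sub, hbs, hbs, sub_self]
      · exact (Z (m₁ + j) : AddSubgroup X).sub_mem (hZ (Nat.le_succ _) (hb (j + 1))) (hb j))
  have hyZ : ∀ j, y ∈ Z (m₁ + j) := by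
    intro j
    have h2 : y - b j ∈ Z (m₁ + j) := (hy j).2
    have := add_mem h2 (hb j)
    rwa [sub_add_cancel] at this
  have h3 : χ y = 0 := hχ y fun n => hZ (Nat.le_add_left n m₁) (hyZ n)
  have h4 : χ (y - b 0) = 0 := (hy 0).1
  rw [map_sub, hbs, h3, zero_sub, neg_eq_zero] at h4
  exact h4

/-- a compact set of characters vanishes on an open subgroup -/
theorem exists_open_annihilator (hX : LinComplete X) {U : ℕ → OpenAddSubgroup X}
    (hU : GoodSeq X U) {E : Set (Dual X)} (hE : IsCompact E) :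
    ∃ N : OpenAddSubgroup X, ∀ χ ∈ E, ∀ x ∈ N, χ x = 0 := by
  by_contra hcon
  push Not at hcon
  have hstep : ∀ N : OpenAddSubgroup X, ∃ χ ∈ E, ∃ x ∈ N, 1 / 4 ≤ ‖χ x‖ := by
    intro N
    obtain ⟨χ, hχ, x, hx, hne⟩ := hcon N
    obtain ⟨j, hj⟩ := exists_large_nsmul hne
    exact ⟨χ, hχ, j • x, nsmul_mem hx j, by rwa [map_nsmul]⟩
  choose e heE x hxN hx4 using hstep
  obtain ⟨Z, hZ0, hZs⟩ : ∃ Z : ℕ → OpenAddSubgroup X, Z 0 = U 0 ∧
      ∀ n, Z (n + 1) = Z n ⊓ U (n + 1) ⊓ kerOpen (e (Z n)) :=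
    ⟨fun n => Nat.rec (U 0) (fun n N => N ⊓ U (n + 1) ⊓ kerOpen (e N)) n, rfl, fun n => rfl⟩
  have hZanti : Antitone Z := by
    apply antitone_nat_of_succ_le
    intro n
    rw [hZs]
    exact inf_le_left.trans inf_le_left
  have hZU : ∀ n, Z n ≤ U n := by
    intro n
    cases n with
    | zero => exact hZ0.le
    | succ n =>
      rw [hZs]
      exact inf_le_left.trans inf_le_right
  have hvan : ∀ n m, n < m → ∀ y ∈ Z m, e (Z n) y = 0 := by
    intro n m hnm y hy
    have h1 : y ∈ Z (n + 1) := hZanti hnm hy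
    rw [hZs] at h1
    exact h1.2
  -- the first limit
  obtain ⟨χ, hχE, hχ⟩ := exists_lim hE (fun n => e (Z n)) (fun n => heE _)
  obtain ⟨m₀, hm₀⟩ := exists_vanish hX hU Z hZanti hZU χ (by
    intro y hy
    have h1 := hχ y
    have h2 : (fun n => e (Z n) y) = fun _ => (0 : UnitAddCircle) := by
      ext n
      exact hvan n (n + 1) (Nat.lt_succ_self n) y (hy (n + 1))
    rw [h2] at h1
    exact (tendsto_nhds_unique h1 tendsto_const_nhds))
  have hhyp : (Filter.hyperfilter ℕ : Filter ℕ) ≤ Filter.atTop := by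
    rw [← Nat.cofinite_eq_atTop]
    exact Filter.hyperfilter_le_cofinite
  have hsmall : ∀ m : ℕ, ∃ n, m < n ∧ ∀ j, m₀ ≤ j → j ≤ m →
      ‖e (Z n) (x (Z j))‖ < 1 / (8 * ((m : ℝ) + 1) ^ 2) := by
    intro m
    have h1 : ∀ᶠ n in (Filter.hyperfilter ℕ : Filter ℕ), m < n :=
      hhyp (Filter.eventually_gt_atTop m)
    have h2 : ∀ᶠ n in (Filter.hyperfilter ℕ : Filter ℕ), ∀ j ∈ Finset.Icc m₀ m,
        ‖e (Z n) (x (Z j))‖ < 1 / (8 * ((m : ℝ) + 1) ^ 2) := by
      rw [Filter.eventually_all_finset]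
      intro j hj
      rw [Finset.mem_Icc] at hj
      have h3 : χ (x (Z j)) = 0 := hm₀ _ (hZanti hj.1 (hxN _))
      have h4 := (hχ (x (Z j))).norm
      rw [h3, norm_zero] at h4
      exact h4.eventually (gt_mem_nhds (by positivity))
    obtain ⟨n, hn1, hn2⟩ := (h1.and h2).exists
    exact ⟨n, hn1, fun j hj1 hj2 => hn2 j (Finset.mem_Icc.2 ⟨hj1, hj2⟩)⟩
  choose g hg1 hg2 using hsmall
  obtain ⟨k, hk00, hks⟩ : ∃ k : ℕ → ℕ, k 0 = m₀ ∧ ∀ n, k (n + 1) = g (k n) :=
    ⟨fun n => Nat.rec m₀ (fun _ m => g m) n, rfl, fun n => rfl⟩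
  have hkm : StrictMono k := strictMono_nat_of_lt_succ fun n => by
    rw [hks]
    exact hg1 _
  have hk0 : ∀ n, m₀ ≤ k n := by
    intro n
    rw [← hk00]
    exact hkm.monotone (Nat.zero_le n)
  have hkn : ∀ n, n ≤ k n := fun n => hkm.le_apply
  have hoff : ∀ i j, j < i → ‖e (Z (k i)) (x (Z (k j)))‖ < 1 / (8 * (i : ℝ) ^ 2) := by
    intro i j hji
    obtain ⟨i', rfl⟩ : ∃ i', i = i' + 1 := ⟨i - 1, by omega⟩
    rw [hks]
    refine (hg2 (k i') (k j) (hk0 j) (hkm.monotone (Nat.lt_succ_iff.1 hji))).trans_le ?_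
    have h1 : ((i' + 1 : ℕ) : ℝ) ≤ ((k i' : ℕ) : ℝ) + 1 := by
      have h3 : (i' : ℝ) ≤ ((k i' : ℕ) : ℝ) := by exact_mod_cast hkn i'
      push_cast
      linarith
    have h2 : (0 : ℝ) < ((i' + 1 : ℕ) : ℝ) := by positivity
    apply one_div_le_one_div_of_le (by positivity)
    gcongr
  -- the point
  obtain ⟨y, hy⟩ := exists_mem_iInter hX hU (fun i => ∑ j ∈ Finset.range i, x (Z (k j)))
    (fun i => (Z (k i) : AddSubgroup X)) (fun i => (Z (k i)).isClosed)
    (fun i => (hZU _).trans (hU.1 (hkn i))) (fun i j hij => hZanti (hkm.monotone hij)) (by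
      intro i
      show (∑ j ∈ Finset.range (i + 1), x (Z (k j))) - ∑ j ∈ Finset.range i, x (Z (k j)) ∈ Z (k i)
      rw [Finset.sum_range_succ, add_sub_cancel_left]
      exact hxN (Z (k i)))
  have hlow : ∀ i, 1 / 8 ≤ ‖e (Z (k i)) y‖ := by
    intro i
    have h1 : e (Z (k i)) (y - ∑ j ∈ Finset.range (i + 1), x (Z (k j))) = 0 :=
      hvan (k i) (k (i + 1)) (hkm (Nat.lt_succ_self i)) _ (hy (i + 1))
    rw [map_sub, sub_eq_zero, Finset.sum_range_succ, map_add] at h1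
    have h2 : ‖e (Z (k i)) (∑ j ∈ Finset.range i, x (Z (k j)))‖ ≤ 1 / 8 := by
      rw [map_sum]
      rcases Nat.eq_zero_or_pos i with rfl | hi
      · simp
      · have hi' : (1 : ℝ) ≤ i := by exact_mod_cast hi
        calc ‖∑ j ∈ Finset.range i, e (Z (k i)) (x (Z (k j)))‖
            ≤ ∑ j ∈ Finset.range i, ‖e (Z (k i)) (x (Z (k j)))‖ := norm_sum_le _ _
          _ ≤ ∑ j ∈ Finset.range i, 1 / (8 * (i : ℝ) ^ 2) :=
              Finset.sum_le_sum fun j hj => (hoff i j (Finset.mem_range.1 hj)).le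
          _ = i * (1 / (8 * (i : ℝ) ^ 2)) := by
              rw [Finset.sum_const, Finset.card_range, nsmul_eq_mul]
          _ = 1 / 8 * (1 / i) := by field_simp
          _ ≤ 1 / 8 * 1 := by
              gcongr
              rw [div_le_one (by linarith)]
              exact hi'
          _ = 1 / 8 := by norm_num
    have h3 := hx4 (Z (k i))
    rw [h1]
    have h4 := norm_sub_le (e (Z (k i)) (∑ j ∈ Finset.range i, x (Z (k j))) +
      e (Z (k i)) (x (Z (k i)))) (e (Z (k i)) (∑ j ∈ Finset.range i, x (Z (k j))))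
    rw [add_sub_cancel_left] at h4
    linarith
  -- the second limit
  obtain ⟨χ', hχE', hχ'⟩ := exists_lim hE (fun i => e (Z (k i))) (fun i => heE _)
  have hbig : 1 / 8 ≤ ‖χ' y‖ :=
    ge_of_tendsto (hχ' y).norm (Filter.Eventually.of_forall hlow)
  obtain ⟨m, hm⟩ := exists_vanish hX hU Z hZanti hZU χ' (by
    intro y hy
    have h1 := hχ' y
    have h2 : (fun i => e (Z (k i)) y) = fun _ => (0 : UnitAddCircle) := by
      ext i
      exact hvan (k i) (k i + 1) (Nat.lt_succ_self _) y (hy (k i + 1))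
    rw [h2] at h1
    exact (tendsto_nhds_unique h1 tendsto_const_nhds))
  have hzero : ∀ j, χ' (x (Z (k j))) = 0 := by
    intro j
    have h1 := (hχ' (x (Z (k j)))).norm
    have h2 : Filter.Tendsto (fun i : ℕ => ‖e (Z (k i)) (x (Z (k j)))‖)
        (Filter.hyperfilter ℕ : Filter ℕ) (𝓝 0) := by
      have h3 : Filter.Tendsto (fun i : ℕ => (1 : ℝ) / i) (Filter.hyperfilter ℕ : Filter ℕ)
          (𝓝 0) := tendsto_one_div_atTop_nhds_zero_nat.mono_left hhyp
      refine tendsto_of_tendsto_of_tendsto_of_le_of_le' tendsto_const_nhds h3 ?_ ?_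
      · exact Filter.Eventually.of_forall fun i => norm_nonneg _
      · have h4 : ∀ᶠ i in (Filter.hyperfilter ℕ : Filter ℕ), j < i :=
          hhyp (Filter.eventually_gt_atTop j)
        filter_upwards [h4] with i hi
        refine (hoff i j hi).le.trans ?_
        have hi' : (1 : ℝ) ≤ i := by exact_mod_cast (show 1 ≤ i by omega)
        apply one_div_le_one_div_of_le (by linarith)
        nlinarith
    have h5 := tendsto_nhds_unique h1 h2
    exact norm_eq_zero.1 h5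
  have h1 : χ' (y - ∑ j ∈ Finset.range m, x (Z (k j))) = 0 := hm _ (hZanti (hkn m) (hy m))
  rw [map_sub, map_sum, sub_eq_zero] at h1
  rw [h1, Finset.sum_eq_zero fun j _ => hzero j, norm_zero] at hbig
  norm_num at hbig

end

end Pool.Agent.Work.MP_c629c8_al
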