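import Mathlib
import Pool.Agent.Work.MP_c629c8_al.Equi
import Pool.Agent.Work.MP_c629c8_al.Duality

/-!
# Complete linear groups with the condition (A) are strongly reflexive
-/

namespace Pool.Agent.Work.MP_c629c8_al

open Topology

section

variable {G : Type*} [AddCommGroup G] [TopologicalSpace G]

/-- the characters that vanish on an open subgroup, as characters of the quotient -/
def pull [IsTopologicalAddGroup G] (N : OpenAddSubgroup G) :
    Dual (G ⧸ (N : AddSubgroup G)) →ₜ+ Dual G :=
  ContinuousAddMonoidHom.compLeft UnitAddCircle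
    (⟨QuotientAddGroup.mk' (N : AddSubgroup G), continuous_quot_mk⟩ :
      G →ₜ+ G ⧸ (N : AddSubgroup G))

lemma pull_apply [IsTopologicalAddGroup G] (N : OpenAddSubgroup G)
    (χ : Dual (G ⧸ (N : AddSubgroup G))) (x : G) :
    pull N χ x = χ (QuotientAddGroup.mk x) := rfl

lemma exists_pull [IsTopologicalAddGroup G] (N : OpenAddSubgroup G) (χ : Dual G)
    (hχ : ∀ x ∈ N, χ x = 0) : ∃ χ', pull N χ' = χ := by
  let f : G ⧸ (N : AddSubgroup G) →+ UnitAddCircle :=
    QuotientAddGroup.lift _ χ.toAddMonoidHom hχ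
  exact ⟨⟨f, continuous_of_discreteTopology⟩, ContinuousAddMonoidHom.ext fun x => rfl⟩

omit [TopologicalSpace G] in
lemma dual_nsmul_apply {G : Type*} [AddCommGroup G] [TopologicalSpace G] (j : ℕ) (χ : Dual G)
    (x : G) : (j • χ) x = j • χ x := by
  induction j with
  | zero => simp
  | succ j ih =>
    rw [succ_nsmul, succ_nsmul, ← ih]
    rfl

lemma eta_continuous [IsTopologicalAddGroup G]
    (h : ∀ E : Set (Dual G), IsCompact E → ∀ U : Set UnitAddCircle, IsOpen U → (0 : UnitAddCircle) ∈ U →
      ∀ᶠ x in 𝓝 (0 : G), ∀ χ ∈ E, χ x ∈ U) : Continuous (eta G) := by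
  apply continuous_of_continuousAt_zero (etaHom G)
  rw [ContinuousAt, (ContinuousAddMonoidHom.isInducing_toContinuousMap _ _).tendsto_nhds_iff,
    ContinuousMap.tendsto_nhds_compactOpen]
  intro E hE U hU hm
  rcases E.eq_empty_or_nonempty with rfl | ⟨χ₀, hχ₀⟩
  · exact Filter.Eventually.of_forall fun x => Set.mapsTo_empty _ _
  · have h0 : (0 : UnitAddCircle) ∈ U := by
      have := hm hχ₀
      rw [map_zero] at this
      exact this
    filter_upwards [h E hE U hU h0] with x hx χ hχ using hx χ hχ

end

section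

variable {X : Type*} [AddCommGroup X] [TopologicalSpace X] [NonarchimedeanAddGroup X]

lemma exists_open_not_mem [T2Space X] {x : X} (hx : x ≠ 0) : ∃ N : OpenAddSubgroup X, x ∉ N := by
  obtain ⟨N, hN⟩ := NonarchimedeanAddGroup.is_nonarchimedean ({x}ᶜ : Set X)
    (isOpen_compl_singleton.mem_nhds (by simpa using hx.symm))
  exact ⟨N, fun h => (hN h) rfl⟩

lemma eta_injective [T2Space X] : Function.Injective (eta X) := by
  have : Function.Injective (etaHom X) := by
    rw [injective_iff_map_eq_zero]
    intro x hx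
    by_contra hne
    obtain ⟨N, hN⟩ := exists_open_not_mem hne
    obtain ⟨χ, -, hχ⟩ := exists_dual_ne_zero N hN
    apply hχ
    exact DFunLike.congr_fun hx χ
  exact this

lemma eta_surjective (hX : LinComplete X) : Function.Surjective (eta X) := by
  intro ψ
  have h1 : ∀ N : OpenAddSubgroup X, ∃ x : X, ∀ χ : Dual X, (∀ y ∈ N, χ y = 0) → ψ χ = χ x := by
    intro N
    obtain ⟨d, hd⟩ := eta_surjective_of_discrete (D := X ⧸ (N : AddSubgroup X))
      (ψ.comp (pull N))
    obtain ⟨x, rfl⟩ := QuotientAddGroup.mk_surjective d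
    refine ⟨x, fun χ hχ => ?_⟩
    obtain ⟨χ', rfl⟩ := exists_pull N χ hχ
    have := DFunLike.congr_fun hd χ'
    exact this.symm
  choose x hx using h1
  obtain ⟨y, hy⟩ := hX x (by
    intro N M hMN
    by_contra hcon
    obtain ⟨χ, hχ1, hχ2⟩ := exists_dual_ne_zero N hcon
    apply hχ2
    rw [map_sub, ← hx N χ hχ1, ← hx M χ (fun y hy => hχ1 y (hMN hy)), sub_self])
  refine ⟨y, ContinuousAddMonoidHom.ext fun χ => ?_⟩
  have h2 : χ (y - x (kerOpen χ)) = 0 := hy (kerOpen χ)
  rw [map_sub, sub_eq_zero] at h2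
  rw [hx (kerOpen χ) χ (fun z hz => hz), ← h2]
  rfl

lemma eta_isOpenMap (hs : Function.Surjective (eta X)) : IsOpenMap (eta X) := by
  have : IsOpenMap (etaHom X) := by
    rw [IsTopologicalAddGroup.isOpenMap_iff_nhds_zero]
    intro W hW
    rw [Filter.mem_map] at hW
    obtain ⟨N, hN⟩ := NonarchimedeanAddGroup.is_nonarchimedean _ hW
    let E : Set (Dual X) := Set.range (pull N)
    have hE : IsCompact E := isCompact_range (pull N).continuous_toFun
    let O : Set (Dual (Dual X)) := {ψ | Set.MapsTo ψ E (Metric.ball 0 (1 / 4))}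
    have hO : IsOpen O := isOpen_induced
      (ContinuousMap.isOpen_setOfPred_mapsTo hE Metric.isOpen_ball)
    have h0 : (0 : Dual (Dual X)) ∈ O := by
      intro χ _
      show (0 : UnitAddCircle) ∈ _
      exact Metric.mem_ball_self (by norm_num)
    refine Filter.mem_of_superset (hO.mem_nhds h0) ?_
    intro ψ hψ
    obtain ⟨x, rfl⟩ := hs ψ
    have hx : x ∈ N := by
      by_contra hcon
      obtain ⟨χ, hχ1, hχ2⟩ := exists_dual_ne_zero N hcon
      obtain ⟨j, hj⟩ := exists_large_nsmul hχ2
      obtain ⟨χ', hχ'⟩ := exists_pull N (j • χ) (by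
        intro y hy
        rw [dual_nsmul_apply, hχ1 y hy, smul_zero])
      have h1 : (j • χ) ∈ E := ⟨χ', hχ'⟩
      have h2 := hψ h1
      rw [mem_ball_zero_iff] at h2
      have h3 : (eta X x) (j • χ) = j • χ x := dual_nsmul_apply j χ x
      rw [h3] at h2
      linarith
    exact hN hx
  exact this

theorem isReflexive_of_good [T2Space X] (hX : LinComplete X) {U : ℕ → OpenAddSubgroup X}
    (hU : GoodSeq X U) : IsReflexive X where
  continuous := by
    apply eta_continuous
    intro E hE U' _ h0
    obtain ⟨N, hN⟩ := exists_open_annihilator hX hU hE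
    filter_upwards [N.mem_nhds_zero] with x hx χ hχ
    rw [hN χ hχ x hx]
    exact h0
  isOpenMap := eta_isOpenMap (eta_surjective hX)
  bijective := ⟨eta_injective, eta_surjective hX⟩

/-- complete linear groups with a good sequence of open subgroups are strongly reflexive -/
theorem stronglyReflexive_of_good [T2Space X] (hX : LinComplete X) {U : ℕ → OpenAddSubgroup X}
    (hU : GoodSeq X U) : StronglyReflexive X := by
  intro H hH
  refine ⟨isReflexive_of_good (linComplete_subgroup H hX hH) (goodSeq_subgroup H hU), ?_⟩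
  have : T2Space (X ⧸ H) := by
    have : IsClosed (H : Set X) := hH
    infer_instance
  exact isReflexive_of_good (linComplete_quotient H hX hU) (goodSeq_quotient H hU)

end

end Pool.Agent.Work.MP_c629c8_al
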