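import Mathlib
import Pool.Agent.Work.MP_c629c8_al.Refl

/-!
# Products of discrete groups
-/

namespace Pool.Agent.Work.MP_c629c8_al

open Topology

section

variable {I : Type*} {D : I → Type*} [∀ i, AddCommGroup (D i)]

/-- the elements whose coordinates in `F` vanish -/
def coordSub (D : I → Type*) [∀ i, AddCommGroup (D i)] (F : Set I) : AddSubgroup (∀ i, D i) where
  carrier := {x | ∀ i ∈ F, x i = 0}
  zero_mem' := fun _ _ => rfl
  add_mem' := fun {x y} hx hy i hi => by rw [Pi.add_apply, hx i hi, hy i hi, add_zero]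
  neg_mem' := fun {x} hx i hi => by rw [Pi.neg_apply, hx i hi, neg_zero]

lemma mem_coordSub {F : Set I} {x : ∀ i, D i} : x ∈ coordSub D F ↔ ∀ i ∈ F, x i = 0 := Iff.rfl

variable [∀ i, TopologicalSpace (D i)] [∀ i, DiscreteTopology (D i)]

/-- the same subgroup, as an open subgroup, for a finite set -/
def coordOpen (D : I → Type*) [∀ i, AddCommGroup (D i)] [∀ i, TopologicalSpace (D i)]
    [∀ i, DiscreteTopology (D i)] (F : Finset I) : OpenAddSubgroup (∀ i, D i) where
  toAddSubgroup := coordSub D (F : Set I)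
  isOpen' := by
    have : (coordSub D (F : Set I) : Set (∀ i, D i)) = (F : Set I).pi fun _ => {0} := by
      ext x
      simp [mem_coordSub, Set.mem_pi]
    show IsOpen (coordSub D (F : Set I) : Set (∀ i, D i))
    rw [this]
    exact isOpen_set_pi F.finite_toSet fun _ _ => isOpen_discrete _

lemma mem_coordOpen {F : Finset I} {x : ∀ i, D i} : x ∈ coordOpen D F ↔ ∀ i ∈ F, x i = 0 :=
  Iff.rfl

lemma exists_coordOpen_sub {W : Set (∀ i, D i)} (hW : W ∈ 𝓝 (0 : ∀ i, D i)) :
    ∃ F : Finset I, (coordOpen D F : Set (∀ i, D i)) ⊆ W := by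
  rw [nhds_pi, Filter.mem_pi] at hW
  obtain ⟨F, hF, t, ht, hsub⟩ := hW
  refine ⟨hF.toFinset, fun x hx => hsub fun i hi => ?_⟩
  have h1 : x i = 0 := hx i (by simpa using hi)
  rw [h1]
  exact mem_of_mem_nhds (ht i)

instance instNonarchPi : NonarchimedeanAddGroup (∀ i, D i) where
  is_nonarchimedean := fun W hW => by
    obtain ⟨F, hF⟩ := exists_coordOpen_sub hW
    exact ⟨coordOpen D F, hF⟩

lemma exists_coordOpen_le (N : OpenAddSubgroup (∀ i, D i)) : ∃ F : Finset I,
    coordOpen D F ≤ N := by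
  obtain ⟨F, hF⟩ := exists_coordOpen_sub N.mem_nhds_zero
  exact ⟨F, hF⟩

lemma coordOpen_anti {F F' : Finset I} (h : F ⊆ F') : coordOpen D F' ≤ coordOpen D F :=
  fun _ hx i hi => hx i (h hi)

theorem linComplete_pi : LinComplete (∀ i, D i) := by
  classical
  intro x hx
  refine ⟨fun i => x (coordOpen D {i}) i, fun N => ?_⟩
  obtain ⟨F, hF⟩ := exists_coordOpen_le N
  have h1 : x (coordOpen D F) - x N ∈ N := hx N _ hF
  have h2 : (fun i => x (coordOpen D {i}) i) - x (coordOpen D F) ∈ N := by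
    apply hF
    intro i hi
    have h3 := hx (coordOpen D {i}) (coordOpen D F)
      (coordOpen_anti (Finset.singleton_subset_iff.2 hi))
    have h4 := h3 i (Finset.mem_singleton_self i)
    rw [Pi.sub_apply, sub_eq_zero] at h4 ⊢
    exact h4.symm
  have := add_mem h2 h1
  rwa [sub_add_sub_cancel] at this

end

section artinian

/-- the minimal condition from the quotient -/
lemma artCond_of_quotient {X : Type*} [AddCommGroup X] {Q : Type*} [AddCommGroup Q]
    [IsArtinian ℤ Q] (P U : AddSubgroup X) (f : U →+ Q) (hf : ∀ u, f u = 0 → (u : X) ∈ P) :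
    ArtCond P U := by
  intro S hS hSU
  -- the images
  let g : AddSubgroup X → Submodule ℤ Q := fun B =>
    AddSubgroup.toIntSubmodule ((B.addSubgroupOf U).map f)
  have hwf : WellFounded ((· < ·) : Submodule ℤ Q → Submodule ℤ Q → Prop) :=
    (inferInstance : WellFoundedLT (Submodule ℤ Q)).wf
  obtain ⟨m, ⟨B₁, hB₁, rfl⟩, hmin⟩ := hwf.has_min (g '' S) (hS.image g)
  refine ⟨B₁, hB₁, fun B hB hle => ?_⟩
  have h1 : g B ≤ g B₁ := by
    apply (AddSubgroup.toIntSubmodule).monotone
    exact AddSubgroup.map_mono fun u hu => hle hu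
  have h2 : g B = g B₁ := by
    by_contra hne
    exact hmin (g B) ⟨B, hB, rfl⟩ (lt_of_le_of_ne h1 hne)
  intro b hb
  have h3 : f ⟨b, hSU B₁ hB₁ hb⟩ ∈ g B := by
    rw [h2]
    exact ⟨⟨b, hSU B₁ hB₁ hb⟩, hb, rfl⟩
  obtain ⟨b', hb', heq⟩ := h3
  have h4 := hf (⟨b, hSU B₁ hB₁ hb⟩ - b') (by rw [map_sub, heq, sub_self])
  exact AddSubgroup.mem_sup.2 ⟨b', hb', b - b', h4, by abel⟩

end artinian

section

variable {I : Type*} {D : I → Type*} [∀ i, AddCommGroup (D i)] [∀ i, TopologicalSpace (D i)]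
  [∀ i, DiscreteTopology (D i)]

theorem exists_goodSeq_pi (h : {i | ¬ IsArtinian ℤ (D i)}.Countable) :
    ∃ U : ℕ → OpenAddSubgroup (∀ i, D i), GoodSeq (∀ i, D i) U := by
  classical
  -- an increasing sequence of finite sets
  obtain ⟨Fs, hmono, hFs⟩ : ∃ Fs : ℕ → Finset I, Monotone Fs ∧
      ∀ i, ¬ IsArtinian ℤ (D i) → ∃ n, i ∈ Fs n := by
    rcases Set.eq_empty_or_nonempty {i | ¬ IsArtinian ℤ (D i)} with he | hne
    · refine ⟨fun _ => ∅, fun _ _ _ => le_refl _, fun i hi => ?_⟩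
      have : i ∈ {i | ¬ IsArtinian ℤ (D i)} := hi
      rw [he] at this
      exact absurd this (Set.notMem_empty i)
    · obtain ⟨e, he⟩ := h.exists_eq_range hne
      refine ⟨fun n => (Finset.range (n + 1)).image e, fun m n hmn =>
        Finset.image_subset_image (Finset.range_mono (Nat.succ_le_succ hmn)), fun i hi => ?_⟩
      have : i ∈ {i | ¬ IsArtinian ℤ (D i)} := hi
      rw [he] at this
      obtain ⟨n, rfl⟩ := this
      exact ⟨n, Finset.mem_image.2 ⟨n, Finset.self_mem_range_succ n, rfl⟩⟩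
  refine ⟨fun n => coordOpen D (Fs n), fun m n hmn => coordOpen_anti (hmono hmn), fun N => ?_⟩
  obtain ⟨F, hF⟩ := exists_coordOpen_le N
  -- all the bad coordinates in `F` are in `Fs n`
  obtain ⟨n, hn⟩ : ∃ n, ∀ i ∈ F, ¬ IsArtinian ℤ (D i) → i ∈ Fs n := by
    have h1 : ∀ i, ∃ n, ¬ IsArtinian ℤ (D i) → i ∈ Fs n := by
      intro i
      by_cases hi : IsArtinian ℤ (D i)
      · exact ⟨0, fun h => absurd hi h⟩
      · obtain ⟨n, hn⟩ := hFs i hi
        exact ⟨n, fun _ => hn⟩
    choose ν hν using h1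
    exact ⟨F.sup ν, fun i hi h2 => hmono (Finset.le_sup hi) (hν i h2)⟩
  refine ⟨n, ?_⟩
  -- the product of the good coordinates
  let F' : Finset I := F.filter (fun i => IsArtinian ℤ (D i))
  have hart : ∀ i : F', IsArtinian ℤ (D i) := fun i => (Finset.mem_filter.1 i.2).2
  have : IsArtinian ℤ (∀ i : F', D i) := inferInstance
  let f : (coordOpen D (Fs n) : AddSubgroup (∀ i, D i)) →+ (∀ i : F', D i) :=
    { toFun := fun x i => (x : ∀ i, D i) i
      map_zero' := rfl
      map_add' := fun _ _ => rfl }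
  apply artCond_of_quotient _ _ f
  intro u hu
  refine ⟨u.2, hF ?_⟩
  intro i hi
  by_cases h2 : IsArtinian ℤ (D i)
  · exact congrFun hu ⟨i, Finset.mem_filter.2 ⟨hi, h2⟩⟩
  · exact u.2 i (hn i hi h2)

/-- If all but countably many of the discrete groups `D i` are Artinian then their product is
strongly reflexive. -/
theorem stronglyReflexive_pi (h : {i | ¬ IsArtinian ℤ (D i)}.Countable) :
    StronglyReflexive (∀ i, D i) := by
  obtain ⟨U, hU⟩ := exists_goodSeq_pi h
  exact stronglyReflexive_of_good linComplete_pi hU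

end

end Pool.Agent.Work.MP_c629c8_al
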