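import Mathlib
import Pool.Agent.Work.MP_c629c8_al.PiGood

/-!
# The condition (A), completeness, and products
-/

namespace Pool.Agent.Work.MP_c629c8_al

open Topology Uniformity

/-- Condition (A): there is a decreasing sequence `U` of open subgroups such that for every open
subgroup `N` the group `U n / (N ∩ U n)` is Artinian for some `n`. -/
def CondA (X : Type*) [AddCommGroup X] [TopologicalSpace X] : Prop :=
  ∃ U : ℕ → AddSubgroup X, Antitone U ∧ (∀ n, IsOpen (U n : Set X)) ∧
    ∀ N : AddSubgroup X, IsOpen (N : Set X) → ∃ n, IsArtinian ℤ (U n ⧸ N.addSubgroupOf (U n))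

/-- All discrete quotients are Artinian (satisfy the minimal condition on subgroups). -/
def ArtinianQuotients (X : Type*) [AddCommGroup X] [TopologicalSpace X] : Prop :=
  ∀ N : AddSubgroup X, IsOpen (N : Set X) → IsArtinian ℤ (X ⧸ N)

section

variable {X : Type*} [AddCommGroup X] [TopologicalSpace X]

lemma CondA.exists_goodSeq (h : CondA X) : ∃ U : ℕ → OpenAddSubgroup X, GoodSeq X U := by
  obtain ⟨U, hU, hUo, hN⟩ := h
  refine ⟨fun n => ⟨U n, hUo n⟩, fun m n hmn => hU hmn, fun N => ?_⟩
  obtain ⟨n, hn⟩ := hN (N : AddSubgroup X) N.isOpen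
  refine ⟨n, ?_⟩
  refine artCond_of_quotient (Q := U n ⧸ (N : AddSubgroup X).addSubgroupOf (U n)) _ _
    (QuotientAddGroup.mk' _) ?_
  intro u hu
  refine ⟨u.2, ?_⟩
  have : (QuotientAddGroup.mk u : U n ⧸ (N : AddSubgroup X).addSubgroupOf (U n)) = 0 := hu
  rw [QuotientAddGroup.eq_zero_iff] at this
  exact this

lemma isArtinian_mono {A B N N' : AddSubgroup X} (h : B ≤ A) (hN : N ≤ N')
    (hA : IsArtinian ℤ (A ⧸ N.addSubgroupOf A)) : IsArtinian ℤ (B ⧸ N'.addSubgroupOf B) := by
  -- the image of `B` in `A / N`, then modulo `N'`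
  have h1 : IsArtinian ℤ (B ⧸ N.addSubgroupOf B) := by
    let f : (B ⧸ N.addSubgroupOf B) →+ (A ⧸ N.addSubgroupOf A) :=
      QuotientAddGroup.map _ _ (AddSubgroup.inclusion h) (fun x hx => hx)
    refine isArtinian_of_injective f.toIntLinearMap ?_
    show Function.Injective f
    rw [injective_iff_map_eq_zero]
    intro a ha
    obtain ⟨x, rfl⟩ := QuotientAddGroup.mk_surjective a
    have h2 : (QuotientAddGroup.mk (AddSubgroup.inclusion h x) : A ⧸ N.addSubgroupOf A) = 0 := ha
    rw [QuotientAddGroup.eq_zero_iff] at h2 ⊢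
    exact h2
  let g : (B ⧸ N.addSubgroupOf B) →+ (B ⧸ N'.addSubgroupOf B) :=
    QuotientAddGroup.map _ _ (AddMonoidHom.id B) (fun x hx => hN hx)
  refine isArtinian_of_surjective _ g.toIntLinearMap ?_
  intro b
  obtain ⟨x, rfl⟩ := QuotientAddGroup.mk_surjective b
  exact ⟨QuotientAddGroup.mk x, rfl⟩

lemma condA_of_discrete [DiscreteTopology X] : CondA X := by
  refine ⟨fun _ => ⊥, fun _ _ _ => le_refl _, fun _ => isOpen_discrete _, fun N _ => ⟨0, ?_⟩⟩
  have : Subsingleton ((⊥ : AddSubgroup X) ⧸ N.addSubgroupOf ⊥) := by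
    constructor
    intro a b
    obtain ⟨x, rfl⟩ := QuotientAddGroup.mk_surjective a
    obtain ⟨y, rfl⟩ := QuotientAddGroup.mk_surjective b
    rw [Subsingleton.elim x y]
  infer_instance

end

section complete

variable {X : Type*} [AddCommGroup X] [UniformSpace X] [IsUniformAddGroup X] [CompleteSpace X]

theorem linComplete_of_complete [NonarchimedeanAddGroup X] : LinComplete X := by
  intro x hx
  -- the filter generated by the cosets
  let F : Filter X := ⨅ N : OpenAddSubgroup X, Filter.principal (cst (x N) (N : AddSubgroup X))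
  have hdir : Directed (· ≥ ·) fun N : OpenAddSubgroup X =>
      Filter.principal (cst (x N) (N : AddSubgroup X)) := by
    intro N M
    refine ⟨N ⊓ M, ?_, ?_⟩
    · show Filter.principal _ ≤ Filter.principal _
      rw [Filter.principal_mono]
      intro y hy
      have h1 : y - x (N ⊓ M) ∈ N ⊓ M := hy
      have h2 := N.add_mem h1.1 (hx N (N ⊓ M) inf_le_left)
      rwa [sub_add_sub_cancel] at h2
    · show Filter.principal _ ≤ Filter.principal _
      rw [Filter.principal_mono]
      intro y hy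
      have h1 : y - x (N ⊓ M) ∈ N ⊓ M := hy
      have h2 := M.add_mem h1.2 (hx M (N ⊓ M) inf_le_right)
      rwa [sub_add_sub_cancel] at h2
  have hmem : ∀ s : Set X, s ∈ F ↔ ∃ N : OpenAddSubgroup X, cst (x N) (N : AddSubgroup X) ⊆ s := by
    intro s
    rw [Filter.mem_iInf_of_directed hdir]
    simp [Filter.mem_principal]
  have hF : Cauchy F := by
    constructor
    · rw [Filter.neBot_iff]
      intro hbot
      rw [← Filter.empty_mem_iff_bot, hmem] at hbot
      obtain ⟨N, hN⟩ := hbot
      exact hN (self_mem_cst (x N) _)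
    · rw [uniformity_eq_comap_nhds_zero X, ← Filter.tendsto_iff_comap]
      intro W hW
      obtain ⟨N, hN⟩ := NonarchimedeanAddGroup.is_nonarchimedean W hW
      rw [Filter.mem_map]
      refine Filter.mem_of_superset (Filter.prod_mem_prod ((hmem _).2 ⟨N, subset_rfl⟩)
        ((hmem _).2 ⟨N, subset_rfl⟩)) ?_
      rintro ⟨a, b⟩ ⟨ha, hb⟩
      apply hN
      have h1 : a - x N ∈ N := ha
      have h2 : b - x N ∈ N := hb
      have h3 := N.sub_mem h2 h1
      rw [sub_sub_sub_cancel_right] at h3
      exact h3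
  obtain ⟨y, hy⟩ := CompleteSpace.complete hF
  refine ⟨y, fun N => ?_⟩
  have h1 : IsClosed (cst (x N) (N : AddSubgroup X)) := isClosed_cst _ _ N.isClosed
  have h2 : cst (x N) (N : AddSubgroup X) ∈ F := (hmem _).2 ⟨N, subset_rfl⟩
  have h3 : y ∈ closure (cst (x N) (N : AddSubgroup X)) := by
    rw [mem_closure_iff_clusterPt]
    have : F.NeBot := hF.1
    exact Filter.NeBot.mono this (le_inf hy (Filter.le_principal_iff.2 h2))
  rw [h1.closure_eq] at h3
  exact h3

end complete

section pi

variable {I : Type*} {X : I → Type*} [∀ i, AddCommGroup (X i)] [∀ i, TopologicalSpace (X i)]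

/-- boxes of open subgroups -/
def box (F : Finset I) (N : ∀ i, AddSubgroup (X i)) : AddSubgroup (∀ i, X i) where
  carrier := {x | ∀ i ∈ F, x i ∈ N i}
  zero_mem' := fun i _ => (N i).zero_mem
  add_mem' := fun {x y} hx hy i hi => (N i).add_mem (hx i hi) (hy i hi)
  neg_mem' := fun {x} hx i hi => (N i).neg_mem (hx i hi)

lemma mem_box {F : Finset I} {N : ∀ i, AddSubgroup (X i)} {x : ∀ i, X i} :
    x ∈ box F N ↔ ∀ i ∈ F, x i ∈ N i := Iff.rfl

lemma isOpen_box {F : Finset I} {N : ∀ i, AddSubgroup (X i)} (h : ∀ i, IsOpen (N i : Set (X i))) :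
    IsOpen (box F N : Set (∀ i, X i)) := by
  have : (box F N : Set (∀ i, X i)) = (F : Set I).pi fun i => (N i : Set (X i)) := by
    ext x
    simp [mem_box, Set.mem_pi]
  rw [this]
  exact isOpen_set_pi F.finite_toSet fun i _ => h i

lemma exists_box [∀ i, NonarchimedeanAddGroup (X i)] {W : Set (∀ i, X i)}
    (hW : W ∈ 𝓝 (0 : ∀ i, X i)) : ∃ (F : Finset I) (N : ∀ i, AddSubgroup (X i)),
      (∀ i, IsOpen (N i : Set (X i))) ∧ (box F N : Set (∀ i, X i)) ⊆ W := by
  rw [nhds_pi, Filter.mem_pi] at hW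
  obtain ⟨F, hF, t, ht, hsub⟩ := hW
  have h1 : ∀ i, ∃ N : AddSubgroup (X i), IsOpen (N : Set (X i)) ∧ (N : Set (X i)) ⊆ t i := by
    intro i
    obtain ⟨N, hN⟩ := NonarchimedeanAddGroup.is_nonarchimedean (t i) (ht i)
    exact ⟨N, N.isOpen, hN⟩
  choose N hN1 hN2 using h1
  refine ⟨hF.toFinset, N, hN1, fun x hx => hsub fun i hi => ?_⟩
  exact hN2 i (hx i (by simpa using hi))

instance instNonarchPi' [∀ i, NonarchimedeanAddGroup (X i)] :
    NonarchimedeanAddGroup (∀ i, X i) where
  is_nonarchimedean := fun W hW => by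
    obtain ⟨F, N, h1, h2⟩ := exists_box hW
    exact ⟨⟨box F N, isOpen_box h1⟩, h2⟩

theorem condA_pi [∀ i, NonarchimedeanAddGroup (X i)] (hA : ∀ i, CondA (X i))
    (hE : {i | ¬ ArtinianQuotients (X i)}.Countable) : CondA (∀ i, X i) := by
  classical
  choose U hU1 hU2 hU3 using hA
  -- an increasing sequence of finite sets
  obtain ⟨Fs, hmono, hFs⟩ : ∃ Fs : ℕ → Finset I, Monotone Fs ∧
      ∀ i, ¬ ArtinianQuotients (X i) → ∃ n, i ∈ Fs n := by
    rcases Set.eq_empty_or_nonempty {i | ¬ ArtinianQuotients (X i)} with he | hne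
    · refine ⟨fun _ => ∅, fun _ _ _ => le_refl _, fun i hi => ?_⟩
      have : i ∈ {i | ¬ ArtinianQuotients (X i)} := hi
      rw [he] at this
      exact absurd this (Set.notMem_empty i)
    · obtain ⟨e, he⟩ := hE.exists_eq_range hne
      refine ⟨fun n => (Finset.range (n + 1)).image e, fun m n hmn =>
        Finset.image_subset_image (Finset.range_mono (Nat.succ_le_succ hmn)), fun i hi => ?_⟩
      have : i ∈ {i | ¬ ArtinianQuotients (X i)} := hi
      rw [he] at this
      obtain ⟨n, rfl⟩ := this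
      exact ⟨n, Finset.mem_image.2 ⟨n, Finset.self_mem_range_succ n, rfl⟩⟩
  refine ⟨fun n => box (Fs n) (fun i => U i n), ?_, fun n => isOpen_box fun i => hU2 i n, ?_⟩
  · intro m n hmn x hx i hi
    exact hU1 i hmn (hx i (hmono hmn hi))
  · intro M hM
    obtain ⟨F, N, hN1, hN2⟩ := exists_box (hM.mem_nhds M.zero_mem)
    -- a common `n`
    have h1 : ∀ i, ∃ n, IsArtinian ℤ (U i n ⧸ (N i).addSubgroupOf (U i n)) ∧
        (¬ ArtinianQuotients (X i) → i ∈ Fs n) := by
      intro i
      obtain ⟨n, hn⟩ := hU3 i (N i) (hN1 i)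
      by_cases hi : ArtinianQuotients (X i)
      · exact ⟨n, hn, fun h => absurd hi h⟩
      · obtain ⟨n', hn'⟩ := hFs i hi
        exact ⟨max n n', isArtinian_mono (hU1 i (le_max_left _ _)) le_rfl hn,
          fun _ => hmono (le_max_right _ _) hn'⟩
    choose ν hν1 hν2 using h1
    refine ⟨F.sup ν, ?_⟩
    set n := F.sup ν with hn
    -- the two parts of `F`
    let F1 : Finset I := F.filter (fun i => i ∈ Fs n)
    let F2 : Finset I := F.filter (fun i => i ∉ Fs n)
    have hart1 : ∀ i : F1, IsArtinian ℤ (U i n ⧸ (N i).addSubgroupOf (U i n)) := fun i =>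
      isArtinian_mono (hU1 i (Finset.le_sup (Finset.mem_filter.1 i.2).1)) le_rfl (hν1 i)
    have hart2 : ∀ i : F2, IsArtinian ℤ (X i ⧸ (N i)) := fun i => by
      obtain ⟨hi1, hi2⟩ := Finset.mem_filter.1 i.2
      have h2 : ArtinianQuotients (X i) := by
        by_contra hcon
        exact hi2 (hmono (Finset.le_sup hi1) (hν2 i hcon))
      exact h2 (N i) (hN1 i)
    let P := (∀ i : F1, U i n ⧸ (N i).addSubgroupOf (U i n)) × (∀ i : F2, X i ⧸ (N i))
    have hP : IsArtinian ℤ P := inferInstance
    -- the map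
    let f0 : box (Fs n) (fun i => U i n) →+ P :=
      { toFun := fun x =>
          (fun i => QuotientAddGroup.mk ⟨(x : ∀ i, X i) i, x.2 i (Finset.mem_filter.1 i.2).2⟩,
            fun i => QuotientAddGroup.mk ((x : ∀ i, X i) i))
        map_zero' := rfl
        map_add' := fun _ _ => rfl }
    -- its kernel is contained in `M`
    have hker : ∀ x, f0 x = 0 → (x : ∀ i, X i) ∈ M := by
      intro x hx
      apply hN2
      intro i hi
      by_cases hi2 : i ∈ Fs n
      · have h3 := congrFun (congrArg Prod.fst hx) ⟨i, Finset.mem_filter.2 ⟨hi, hi2⟩⟩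
        have h4 : (QuotientAddGroup.mk ⟨(x : ∀ i, X i) i, x.2 i hi2⟩ :
            U i n ⧸ (N i).addSubgroupOf (U i n)) = 0 := h3
        rw [QuotientAddGroup.eq_zero_iff] at h4
        exact h4
      · have h3 := congrFun (congrArg Prod.snd hx) ⟨i, Finset.mem_filter.2 ⟨hi, hi2⟩⟩
        have h4 : (QuotientAddGroup.mk ((x : ∀ i, X i) i) : X i ⧸ N i) = 0 := h3
        rw [QuotientAddGroup.eq_zero_iff] at h4
        exact h4
    -- the quotient of the range
    have hQ : IsArtinian ℤ f0.range :=
      isArtinian_of_injective f0.range.subtype.toIntLinearMap Subtype.val_injective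
    have hQ2 : IsArtinian ℤ (box (Fs n) (fun i => U i n) ⧸ f0.ker) :=
      isArtinian_of_linearEquiv
        (QuotientAddGroup.quotientKerEquivRange f0).symm.toIntLinearEquiv
    let g : (box (Fs n) (fun i => U i n) ⧸ f0.ker) →+
        (box (Fs n) (fun i => U i n) ⧸ M.addSubgroupOf (box (Fs n) (fun i => U i n))) :=
      QuotientAddGroup.map _ _ (AddMonoidHom.id _) (fun x hx => hker x hx)
    refine isArtinian_of_surjective _ g.toIntLinearMap ?_
    intro b
    obtain ⟨x, rfl⟩ := QuotientAddGroup.mk_surjective b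
    exact ⟨QuotientAddGroup.mk x, rfl⟩

end pi

/-- complete prodiscrete groups with the condition (A) are strongly reflexive -/
theorem stronglyReflexive_of_condA {X : Type*} [AddCommGroup X] [UniformSpace X]
    [IsUniformAddGroup X] [CompleteSpace X] [T2Space X] [NonarchimedeanAddGroup X]
    (h : CondA X) : StronglyReflexive X := by
  obtain ⟨U, hU⟩ := h.exists_goodSeq
  exact stronglyReflexive_of_good linComplete_of_complete hU

end Pool.Agent.Work.MP_c629c8_al
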