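import Mathlib
import Pool.Agent.Work.MP_c629c8_al.Basic

/-!
# Totally ordered neighbourhood bases: biorthogonal systems
-/

namespace Pool.Agent.Work.MP_c629c8_al

open Topology

section refl

variable {L Q : Type*} [AddCommGroup L] [TopologicalSpace L] [AddCommGroup Q] [TopologicalSpace Q]

/-- A biorthogonal system that accumulates at zero gives a non-reflexive group, if the compact
sets are finite. -/
theorem not_isReflexive_of_system [IsTopologicalAddGroup L] {ι : Type*} (p : L →ₜ+ Q) (x : ι → Q)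
    (χ : ι → Dual Q)
    (hcpt : ∀ K : Set Q, IsCompact K → K.Finite)
    (hfin : ∀ h : L, {i | χ i (p h) ≠ 0}.Finite) (hbig : ∀ i, 1 / 4 ≤ ‖χ i (x i)‖)
    (hacc : ∀ U ∈ 𝓝 (0 : L), ∃ i, ∃ h ∈ U, p h = x i) : ¬ IsReflexive L := by
  intro hr
  -- the characters tend to zero
  let f : ι → Dual L := fun i => (χ i).comp p
  have hf : Filter.Tendsto f Filter.cofinite (𝓝 0) := by
    rw [(ContinuousAddMonoidHom.isInducing_toContinuousMap _ _).tendsto_nhds_iff,
      ContinuousMap.tendsto_nhds_compactOpen]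
    intro K hK U _ hm
    have h1 : (p '' K).Finite := hcpt _ (hK.image p.continuous_toFun)
    have h2 : (⋃ q ∈ p '' K, {i | χ i q ≠ 0}).Finite := by
      apply h1.biUnion
      rintro _ ⟨h, -, rfl⟩
      exact hfin h
    rw [Filter.eventually_cofinite]
    refine h2.subset fun i hi => ?_
    by_contra hcon
    apply hi
    intro h hh
    have h3 : χ i (p h) = 0 := by
      by_contra h4
      exact hcon (Set.mem_biUnion (Set.mem_image_of_mem p hh) h4)
    have h5 : (0 : UnitAddCircle) ∈ U := hm hh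
    show (χ i) (p h) ∈ U
    rwa [h3]
  have hC : IsCompact (insert 0 (Set.range f)) := hf.isCompact_insert_range_of_cofinite
  let O : Set (Dual (Dual L)) := {ψ | Set.MapsTo ψ (insert 0 (Set.range f))
    (Metric.ball (0 : UnitAddCircle) (1 / 4))}
  have hO : IsOpen O := isOpen_induced
    (ContinuousMap.isOpen_setOfPred_mapsTo hC Metric.isOpen_ball)
  have h0 : eta L 0 ∈ O := by
    intro φ _
    show φ 0 ∈ _
    rw [map_zero]
    exact Metric.mem_ball_self (by norm_num)
  have h1 : eta L ⁻¹' O ∈ 𝓝 (0 : L) := hr.continuous.continuousAt.preimage_mem_nhds (hO.mem_nhds h0)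
  obtain ⟨i, h, hh, hp⟩ := hacc _ h1
  have h2 := hh (Set.mem_insert_of_mem _ ⟨i, rfl⟩ : f i ∈ insert 0 (Set.range f))
  rw [mem_ball_zero_iff] at h2
  have h3 : (eta L h) (f i) = χ i (p h) := rfl
  rw [h3, hp] at h2
  linarith [hbig i]

end refl

section base

variable {Q : Type*} [AddCommGroup Q] [TopologicalSpace Q]

/-- countable intersections of neighbourhoods of zero are neighbourhoods of zero -/
def CInter (Q : Type*) [AddCommGroup Q] [TopologicalSpace Q] : Prop :=
  ∀ U : ℕ → Set Q, (∀ n, U n ∈ 𝓝 (0 : Q)) → (⋂ n, U n) ∈ 𝓝 (0 : Q)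

/-- a countably generated neighbourhood filter at zero -/
lemma firstCountable_of_zero [IsTopologicalAddGroup Q] (h : (𝓝 (0 : Q)).IsCountablyGenerated) :
    FirstCountableTopology Q :=
  ⟨fun a => by rw [← map_add_left_nhds_zero a]; infer_instance⟩

/-- a totally ordered base at zero is countable or gives countable intersections -/
lemma cInter_of_chain [IsTopologicalAddGroup Q] {B : Set (Set Q)}
    (hB : (𝓝 (0 : Q)).HasBasis (· ∈ B) id)
    (hchain : IsChain (· ⊆ ·) B) (hn : ¬ FirstCountableTopology Q) : CInter Q := by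
  intro U hU
  by_contra hcon
  apply hn
  choose b hb hbU using fun n => hB.mem_iff.1 (hU n)
  have h1 : (𝓝 (0 : Q)).IsCountablyGenerated := by
    refine ⟨Set.range b, Set.countable_range b, ?_⟩
    apply le_antisymm
    · rw [Filter.le_generate_iff]
      rintro _ ⟨n, rfl⟩
      exact hB.mem_of_mem (hb n)
    · intro s hs
      obtain ⟨V, hV, hVs⟩ := hB.mem_iff.1 hs
      -- some `b n` is contained in `V`
      have h2 : ∃ n, b n ⊆ V := by
        by_contra h3
        push Not at h3
        apply hcon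
        refine Filter.mem_of_superset (hB.mem_of_mem hV) (Set.subset_iInter fun n => ?_)
        rcases hchain.total hV (hb n) with h4 | h4
        · exact h4.trans (hbU n)
        · exact absurd h4 (h3 n)
      obtain ⟨n, hn'⟩ := h2
      exact Filter.mem_of_superset (Filter.mem_generate_of_mem ⟨n, rfl⟩) (hn'.trans hVs)
  exact firstCountable_of_zero h1

variable [IsTopologicalAddGroup Q]

/-- open subgroups form a base -/
lemma CInter.nonarchimedean (h : CInter Q) : NonarchimedeanAddGroup Q := by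
  refine ⟨fun U hU => ?_⟩
  -- a sequence of neighbourhoods
  have h1 : ∀ V : Set Q, ∃ W : Set Q, V ∈ 𝓝 (0 : Q) → W ∈ 𝓝 (0 : Q) ∧ W ⊆ V ∧
      ∀ x ∈ W, ∀ y ∈ W, x - y ∈ V := by
    intro V
    by_cases hV : V ∈ 𝓝 (0 : Q)
    · obtain ⟨W, hW, hsub⟩ := exists_nhds_half_neg hV
      refine ⟨W ∩ V, fun _ => ⟨Filter.inter_mem hW hV, Set.inter_subset_right, ?_⟩⟩
      intro x hx y hy
      exact hsub x hx.1 y hy.1
    · exact ⟨∅, fun h => absurd h hV⟩
  choose s hs using h1
  let V : ℕ → Set Q := fun n => s^[n] U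
  have hV : ∀ n, V n ∈ 𝓝 (0 : Q) := by
    intro n
    induction n with
    | zero => exact hU
    | succ n ih =>
      show s^[n + 1] U ∈ _
      rw [Function.iterate_succ_apply']
      exact (hs _ ih).1
  have hV2 : ∀ n, V (n + 1) ⊆ V n ∧ ∀ x ∈ V (n + 1), ∀ y ∈ V (n + 1), x - y ∈ V n := by
    intro n
    have : V (n + 1) = s (V n) := Function.iterate_succ_apply' s n U
    rw [this]
    exact (hs _ (hV n)).2
  let N : AddSubgroup Q := AddSubgroup.ofSub (⋂ n, V n)
    ⟨0, Set.mem_iInter.2 fun n => mem_of_mem_nhds (hV n)⟩ (by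
      intro x hx y hy
      rw [Set.mem_iInter] at hx hy ⊢
      intro n
      have := (hV2 n).2 x (hx (n + 1)) y (hy (n + 1))
      rwa [sub_eq_add_neg] at this)
  have hN : (N : Set Q) ∈ 𝓝 (0 : Q) := h V hV
  exact ⟨⟨N, AddSubgroup.isOpen_of_mem_nhds N hN⟩, fun x hx => Set.mem_iInter.1 hx 0⟩

/-- countable intersections at any point -/
lemma CInter.at (h : CInter Q) (x : Q) (U : ℕ → Set Q) (hU : ∀ n, U n ∈ 𝓝 x) :
    (⋂ n, U n) ∈ 𝓝 x := by
  have h1 := h (fun n => (fun y => x + y) ⁻¹' U n) (fun n => by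
    have : Filter.Tendsto (fun y => x + y) (𝓝 0) (𝓝 x) := by
      simpa using (continuous_const_add x).tendsto (0 : Q)
    exact this (hU n))
  have h2 : (fun y => x + y) ⁻¹' (⋂ n, U n) ∈ 𝓝 (0 : Q) := by
    rw [Set.preimage_iInter]
    exact h1
  rw [← map_add_left_nhds_zero x]
  exact h2

/-- compact sets are finite -/
lemma CInter.finite_of_isCompact [T2Space Q] (h : CInter Q) {K : Set Q} (hK : IsCompact K) :
    K.Finite := by
  by_contra hinf
  have hinf' : K.Infinite := hinf
  let a : ℕ → Q := fun n => (hinf'.natEmbedding K n : Q)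
  have hainj : Function.Injective a := fun m n hmn =>
    (hinf'.natEmbedding K).injective (Subtype.ext hmn)
  have ha : (Set.range a).Infinite := Set.infinite_range_of_injective hainj
  obtain ⟨x, -, hx⟩ := ha.exists_accPt_of_subset_isCompact hK (by
    rintro _ ⟨n, rfl⟩
    exact (hinf'.natEmbedding K n).2)
  rw [accPt_iff_nhds] at hx
  obtain ⟨y, ⟨hy1, n, rfl⟩, hy2⟩ := hx _ (h.at x (fun n => {y | y = x ∨ y ≠ a n}) (fun n => by
    by_cases hn : a n = x
    · refine Filter.mem_of_superset Filter.univ_mem fun y _ => ?_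
      by_cases hy : y = x
      · exact Or.inl hy
      · exact Or.inr (hn ▸ hy)
    · refine Filter.mem_of_superset (isOpen_compl_singleton.mem_nhds
        (show x ∈ ({a n}ᶜ : Set Q) from fun h => hn h.symm)) fun y hy => Or.inr hy))
  rcases Set.mem_iInter.1 hy1 n with h1 | h1
  · exact hy2 h1
  · exact h1 rfl

/-- the elements on which only finitely many of the given characters are nonzero -/
def finSub {ι : Type*} (χ : ι → Dual Q) : AddSubgroup Q where
  carrier := {q | {i | χ i q ≠ 0}.Finite}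
  zero_mem' := by
    refine Set.finite_empty.subset fun i hi => ?_
    exact absurd (map_zero (χ i)) hi
  add_mem' := by
    intro a b ha hb
    refine (ha.union hb).subset fun i hi => ?_
    by_contra hcon
    rw [Set.mem_union, not_or] at hcon
    have h1 : χ i a = 0 := by simpa using hcon.1
    have h2 : χ i b = 0 := by simpa using hcon.2
    exact hi (by rw [map_add, h1, h2, add_zero])
  neg_mem' := by
    intro a ha
    refine ha.subset fun i hi => ?_
    intro h1
    exact hi (by rw [map_neg, h1, neg_zero])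

omit [IsTopologicalAddGroup Q] in
lemma mem_finSub {ι : Type*} {χ : ι → Dual Q} {q : Q} :
    q ∈ finSub χ ↔ {i | χ i q ≠ 0}.Finite := Iff.rfl

lemma CInter.isClosed_finSub (h : CInter Q) {ι : Type*} (χ : ι → Dual Q) :
    IsClosed (finSub χ : Set Q) := by
  rw [← isOpen_compl_iff, isOpen_iff_mem_nhds]
  intro q hq
  have hinf : {i | χ i q ≠ 0}.Infinite := hq
  let a : ℕ → ι := fun n => (hinf.natEmbedding _ n : ι)
  have hainj : Function.Injective a := fun m n hmn =>
    (hinf.natEmbedding _).injective (Subtype.ext hmn)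
  refine Filter.mem_of_superset (h.at q (fun n => {y | χ (a n) y ≠ 0}) (fun n => ?_)) ?_
  · have h1 : χ (a n) q ≠ 0 := (hinf.natEmbedding _ n).2
    exact (χ (a n)).continuous_toFun.continuousAt.preimage_mem_nhds
      (isOpen_compl_singleton.mem_nhds h1)
  · intro y hy hy2
    have h1 : (Set.range a).Infinite := Set.infinite_range_of_injective hainj
    apply h1
    refine (mem_finSub.1 hy2).subset ?_
    rintro _ ⟨n, rfl⟩
    exact Set.mem_iInter.1 hy n

end base

section zorn

variable {Q : Type*} [AddCommGroup Q] [TopologicalSpace Q]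

/-- systems of triples (open subgroup, point, character) -/
structure Sys (𝒩 : Set (AddSubgroup Q)) (E : Set (AddSubgroup Q × Q × Dual Q)) : Prop where
  mem : ∀ e ∈ E, e.1 ∈ 𝒩
  ker : ∀ e ∈ E, ∀ v ∈ e.1, e.2.2 v = 0
  big : ∀ e ∈ E, 1 / 4 ≤ ‖e.2.2 e.2.1‖
  ord : ∀ e ∈ E, ∀ f ∈ E, e ≠ f → f.2.1 ∈ e.1 ∨ e.2.1 ∈ f.1
  bio : ∀ e ∈ E, ∀ f ∈ E, e ≠ f → e.2.2 f.2.1 = 0
  ind : ∀ f ∈ E, ∀ F : Set (AddSubgroup Q × Q × Dual Q), F.Finite → F ⊆ E →
    (∀ e ∈ F, e.2.1 ∉ f.1) → ∀ s ∈ AddSubgroup.closure ((fun e => e.2.1) '' F), s ∈ f.1 → s = 0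

lemma Sys.mono {𝒩 : Set (AddSubgroup Q)} {E F : Set (AddSubgroup Q × Q × Dual Q)} (h : Sys 𝒩 E)
    (hF : F ⊆ E) : Sys 𝒩 F where
  mem e he := h.mem e (hF he)
  ker e he := h.ker e (hF he)
  big e he := h.big e (hF he)
  ord e he f hf := h.ord e (hF he) f (hF hf)
  bio e he f hf := h.bio e (hF he) f (hF hf)
  ind f hf G hG hGF := h.ind f (hF hf) G hG (hGF.trans hF)

lemma sys_finite_character (𝒩 : Set (AddSubgroup Q)) :
    Order.IsOfFiniteCharacter {E : Set (AddSubgroup Q × Q × Dual Q) | Sys 𝒩 E} := by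
  intro E
  refine ⟨fun h F hF _ => Sys.mono h hF, fun h => ?_⟩
  have h1 : ∀ e ∈ E, Sys 𝒩 {e} := fun e he =>
    h {e} (Set.singleton_subset_iff.2 he) (Set.finite_singleton e)
  have h2 : ∀ e ∈ E, ∀ f ∈ E, Sys 𝒩 {e, f} := fun e he f hf =>
    h {e, f} (Set.insert_subset he (Set.singleton_subset_iff.2 hf))
      ((Set.finite_singleton f).insert e)
  refine ⟨fun e he => (h1 e he).mem e rfl, fun e he => (h1 e he).ker e rfl,
    fun e he => (h1 e he).big e rfl, fun e he f hf => (h2 e he f hf).ord e (by simp) f (by simp),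
    fun e he f hf => (h2 e he f hf).bio e (by simp) f (by simp), ?_⟩
  intro f hf F hF hFE
  have h3 : Sys 𝒩 (insert f F) := h (insert f F) (Set.insert_subset hf hFE) (hF.insert f)
  exact h3.ind f (Set.mem_insert _ _) F hF (Set.subset_insert _ _)

variable [IsTopologicalAddGroup Q] [T2Space Q]

/-- a maximal system accumulates at zero -/
theorem exists_system (hC : CInter Q) {𝒩 : Set (AddSubgroup Q)}
    (hopen : ∀ N ∈ 𝒩, IsOpen (N : Set Q)) (hchain : IsChain (· ≤ ·) 𝒩)
    (hbase : ∀ U ∈ 𝓝 (0 : Q), ∃ N ∈ 𝒩, (N : Set Q) ⊆ U)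
    (hnd : ∀ U ∈ 𝓝 (0 : Q), ∃ x ∈ U, x ≠ 0) :
    ∃ E : Set (AddSubgroup Q × Q × Dual Q), Sys 𝒩 E ∧ ∀ U ∈ 𝓝 (0 : Q), ∃ e ∈ E, e.2.1 ∈ U := by
  obtain ⟨E, -, hEmax⟩ := (sys_finite_character (Q := Q) 𝒩).exists_maximal
    (x := (∅ : Set (AddSubgroup Q × Q × Dual Q)))
    ⟨by simp, by simp, by simp, by simp, by simp, by simp⟩
  have hE : Sys 𝒩 E := hEmax.prop
  refine ⟨E, hE, ?_⟩
  by_contra hcon
  push Not at hcon
  obtain ⟨U, hU, hUE⟩ := hcon
  obtain ⟨N, hN, hNU⟩ := hbase U hU
  have hNE : ∀ e ∈ E, e.2.1 ∉ N := fun e he h => hUE e he (hNU h)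
  have hself : ∀ e ∈ E, e.2.1 ∉ e.1 := by
    intro e he h
    have h1 := hE.big e he
    rw [hE.ker e he _ h, norm_zero] at h1
    linarith
  -- finite subsets suffice
  have hfin : ∀ s ∈ AddSubgroup.closure ((fun e => e.2.1) '' E),
      ∃ F : Set (AddSubgroup Q × Q × Dual Q), F.Finite ∧ F ⊆ E ∧
        s ∈ AddSubgroup.closure ((fun e => e.2.1) '' F) := by
    intro s hs
    induction hs using AddSubgroup.closure_induction with
    | mem x hx =>
      obtain ⟨e, he, rfl⟩ := hx
      exact ⟨{e}, Set.finite_singleton e, Set.singleton_subset_iff.2 he,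
        AddSubgroup.subset_closure ⟨e, rfl, rfl⟩⟩
    | zero => exact ⟨∅, Set.finite_empty, Set.empty_subset _, zero_mem _⟩
    | add x y _ _ hx hy =>
      obtain ⟨F, hF, hFE, hxF⟩ := hx
      obtain ⟨F', hF', hFE', hxF'⟩ := hy
      refine ⟨F ∪ F', hF.union hF', Set.union_subset hFE hFE', add_mem ?_ ?_⟩
      · exact AddSubgroup.closure_mono (Set.image_mono Set.subset_union_left) hxF
      · exact AddSubgroup.closure_mono (Set.image_mono Set.subset_union_right) hxF'
    | neg x _ hx =>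
      obtain ⟨F, hF, hFE, hxF⟩ := hx
      exact ⟨F, hF, hFE, neg_mem hxF⟩
  -- step A
  obtain ⟨N₁, hN₁, hN₁E, hN₁s⟩ : ∃ N₁ ∈ 𝒩, (∀ e ∈ E, N₁ ≤ e.1) ∧
      ∀ s ∈ AddSubgroup.closure ((fun e => e.2.1) '' E), s ∈ N₁ → s = 0 := by
    by_cases hlast : ∃ f ∈ E, ∀ e ∈ E, e ≠ f → f.2.1 ∈ e.1
    · obtain ⟨f, hf, hfl⟩ := hlast
      have h1 : ∀ e ∈ E, f.1 ≤ e.1 := by
        intro e he
        by_cases hef : e = f
        · rw [hef]
        · rcases hchain.total (hE.mem e he) (hE.mem f hf) with h2 | h2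
          · exact absurd (h2 (hfl e he hef)) (hself f hf)
          · exact h2
      refine ⟨f.1, hE.mem f hf, h1, fun s hs hsf => ?_⟩
      obtain ⟨F, hF, hFE, hsF⟩ := hfin s hs
      exact hE.ind f hf F hF hFE (fun e he h2 => hself e (hFE he) (h1 e (hFE he) h2)) s hsF hsf
    · push Not at hlast
      -- a later element
      have hlater : ∀ f ∈ E, ∃ e ∈ E, e.2.1 ∈ f.1 ∧ f.2.1 ∉ e.1 := by
        intro f hf
        obtain ⟨e, he, hne, hfe⟩ := hlast f hf
        rcases hE.ord e he f hf hne with h | h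
        · exact absurd h hfe
        · exact ⟨e, he, h, hfe⟩
      have h1 : ∀ f ∈ E, N ≤ f.1 := by
        intro f hf
        obtain ⟨e, he, h2, -⟩ := hlater f hf
        rcases hchain.total hN (hE.mem f hf) with h3 | h3
        · exact h3
        · exact absurd (h3 h2) (hNE e he)
      refine ⟨N, hN, h1, fun s hs hsN => ?_⟩
      obtain ⟨F, hF, hFE, hsF⟩ := hfin s hs
      rcases E.eq_empty_or_nonempty with hemp | ⟨e₀, he₀⟩
      · have : F = ∅ := Set.subset_empty_iff.1 (hemp ▸ hFE)
        rw [this, Set.image_empty, AddSubgroup.closure_empty, AddSubgroup.mem_bot] at hsF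
        exact hsF
      · have h2 : ∃ f ∈ E, ∀ e ∈ F, e.2.1 ∉ f.1 := by
          clear hsF
          induction F, hF using Set.Finite.induction_on with
          | empty => exact ⟨e₀, he₀, by simp⟩
          | @insert a F' _ _ ih =>
            obtain ⟨f', hf', h3⟩ := ih ((Set.subset_insert _ _).trans hFE)
            obtain ⟨g, hg, -, h4⟩ := hlater a (hFE (Set.mem_insert _ _))
            rcases hchain.total (hE.mem f' hf') (hE.mem g hg) with h5 | h5
            · refine ⟨f', hf', fun e he => ?_⟩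
              rcases he with rfl | he
              · exact fun h6 => h4 (h5 h6)
              · exact h3 e he
            · refine ⟨g, hg, fun e he => ?_⟩
              rcases he with rfl | he
              · exact h4
              · exact fun h6 => h3 e he (h5 h6)
        obtain ⟨f, hf, h3⟩ := h2
        exact hE.ind f hf F hF hFE h3 s hsF (h1 f hf hsN)
  -- step B
  obtain ⟨x, hx, hx0⟩ := hnd N₁ ((hopen N₁ hN₁).mem_nhds (zero_mem N₁))
  -- step C
  obtain ⟨N₂, hN₂, hN₂sub⟩ := hbase _ (Filter.inter_mem ((hopen N₁ hN₁).mem_nhds (zero_mem N₁))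
    (hC (fun n => {y | y = 0 ∨ y ≠ n • x}) (fun n => by
      by_cases hn : n • x = 0
      · refine Filter.mem_of_superset Filter.univ_mem fun y _ => ?_
        by_cases hy : y = 0
        · exact Or.inl hy
        · exact Or.inr (by rw [hn]; exact hy)
      · exact Filter.mem_of_superset (isOpen_compl_singleton.mem_nhds
          (show (0 : Q) ∈ ({n • x}ᶜ : Set Q) from fun h => hn h.symm)) fun y hy => Or.inr hy)))
  have hN₂N₁ : N₂ ≤ N₁ := fun y hy => (hN₂sub hy).1
  have hmul : ∀ k : ℕ, k • x ∈ N₂ → k • x = 0 := by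
    intro k hk
    rcases Set.mem_iInter.1 (hN₂sub hk).2 k with h | h
    · exact h
    · exact absurd rfl h
  have hmulz : ∀ k : ℤ, k • x ∈ N₂ → k • x = 0 := by
    intro k hk
    obtain ⟨m, rfl | rfl⟩ := k.eq_nat_or_neg
    · rw [natCast_zsmul] at hk ⊢
      exact hmul m hk
    · rw [neg_smul, natCast_zsmul] at hk ⊢
      rw [neg_mem_iff] at hk
      rw [hmul m hk, neg_zero]
  -- step D
  have hD : ∀ s ∈ AddSubgroup.closure ((fun e => e.2.1) '' E), ∀ k : ℤ, s + k • x ∈ N₂ →
      s = 0 ∧ k • x = 0 := by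
    intro s hs k hk
    have h1 : s = 0 := hN₁s s hs (by
      have h2 := N₁.sub_mem (hN₂N₁ hk) (N₁.zsmul_mem hx k)
      rwa [add_sub_cancel_right] at h2)
    rw [h1, zero_add] at hk
    exact ⟨h1, hmulz k hk⟩
  -- step E
  let M : AddSubgroup Q := N₂ ⊔ AddSubgroup.closure ((fun e => e.2.1) '' E)
  have hMo : IsOpen (M : Set Q) := AddSubgroup.isOpen_mono le_sup_left (hopen N₂ hN₂)
  have hxM : x ∉ M := by
    intro h
    obtain ⟨v, hv, s, hs, hvs⟩ := AddSubgroup.mem_sup.1 h
    have h1 : (-s) + (1 : ℤ) • x ∈ N₂ := by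
      rw [one_smul, ← hvs]
      have : -s + (v + s) = v := by abel
      rw [this]
      exact hv
    have := (hD (-s) (neg_mem hs) 1 h1).2
    rw [one_smul] at this
    exact hx0 this
  obtain ⟨χ₀, hχ₀, hχ₀x⟩ := exists_dual_ne_zero (⟨M, hMo⟩ : OpenAddSubgroup Q) hxM
  obtain ⟨j, hj⟩ := exists_large_nsmul hχ₀x
  have hjapp : ∀ y : Q, (j • χ₀) y = j • χ₀ y := by
    intro y
    clear hj
    induction j with
    | zero => simp
    | succ j ih =>
      rw [succ_nsmul, succ_nsmul, ← ih]
      rfl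
  have hkill : ∀ y ∈ M, (j • χ₀) y = 0 := by
    intro y hy
    rw [hjapp, hχ₀ y hy, smul_zero]
  -- step F
  set g : AddSubgroup Q × Q × Dual Q := (N₂, x, j • χ₀) with hg
  have hgE : g ∉ E := by
    intro h
    have h1 := hself g h
    have h2 := hE.mem g h
    exact absurd (hN₁E g h hx) h1
  have hxf : ∀ f ∈ E, x ∈ f.1 := fun f hf => hN₁E f hf hx
  have hsys : Sys 𝒩 (insert g E) := by
    refine ⟨?_, ?_, ?_, ?_, ?_, ?_⟩
    · rintro e (rfl | he)
      · exact hN₂
      · exact hE.mem e he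
    · rintro e (rfl | he)
      · exact fun v hv => hkill v (AddSubgroup.mem_sup_left hv)
      · exact hE.ker e he
    · rintro e (rfl | he)
      · show 1 / 4 ≤ ‖(j • χ₀) x‖
        rw [hjapp]
        exact hj
      · exact hE.big e he
    · rintro e (rfl | he) f (rfl | hf) hne
      · exact absurd rfl hne
      · exact Or.inr (hxf f hf)
      · exact Or.inl (hxf e he)
      · exact hE.ord e he f hf hne
    · rintro e (rfl | he) f (rfl | hf) hne
      · exact absurd rfl hne
      · exact hkill _ (AddSubgroup.mem_sup_right (AddSubgroup.subset_closure ⟨f, hf, rfl⟩))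
      · exact hE.ker e he _ (hxf e he)
      · exact hE.bio e he f hf hne
    · rintro f (rfl | hf) F hF hFE hFf s hs hsf
      · have h1 : s ∈ AddSubgroup.closure ((fun e => e.2.1) '' E) ⊔ AddSubgroup.zmultiples x := by
          refine (AddSubgroup.closure_le _).2 ?_ hs
          rintro _ ⟨e, he, rfl⟩
          rcases hFE he with rfl | he'
          · exact AddSubgroup.mem_sup_right (AddSubgroup.mem_zmultiples x)
          · exact AddSubgroup.mem_sup_left (AddSubgroup.subset_closure ⟨e, he', rfl⟩)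
        obtain ⟨t, ht, y, hy, hty⟩ := AddSubgroup.mem_sup.1 h1
        obtain ⟨k, rfl⟩ := AddSubgroup.mem_zmultiples_iff.1 hy
        have h2 := hD t ht k (by rw [hty]; exact hsf)
        rw [← hty, h2.1, h2.2, add_zero]
      · refine hE.ind f hf F hF (fun e he => ?_) hFf s hs hsf
        rcases hFE he with rfl | he'
        · exact absurd (hxf f hf) (hFf _ he)
        · exact he'
  exact hgE (hEmax.eq_of_subset hsys (Set.subset_insert _ _) ▸ Set.mem_insert g E)

end zorn

end Pool.Agent.Work.MP_c629c8_al
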