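import Mathlib
import Pool.Agent.Work.MP_c629c8_al.Transfer
import Pool.Agent.Work.MP_c629c8_al.PiGood

/-!
# Families with uncountably many bad members
-/

namespace Pool.Agent.Work.MP_c629c8_al

open Topology

section chain

/-- a countable discrete group that is not Artinian has a chain -/
lemma exists_chain {D : Type*} [AddCommGroup D] [Countable D] [TopologicalSpace D]
    [DiscreteTopology D] (h : ¬ IsArtinian ℤ D) : Nonempty (Chain D) := by
  have h1 : ¬ WellFounded ((· < ·) : Submodule ℤ D → Submodule ℤ D → Prop) := by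
    intro h2
    exact h ⟨h2⟩
  rw [wellFounded_iff_isEmpty_descending_chain, not_isEmpty_iff] at h1
  obtain ⟨s, hs⟩ := h1
  have h3 : ∀ n, ∃ b, b ∈ s n ∧ b ∉ s (n + 1) := fun n => SetLike.exists_of_lt (hs n)
  choose b hb1 hb2 using h3
  refine ⟨⟨fun n => (s n).toAddSubgroup, ?_, b, fun n => hb1 n, fun n => hb2 n,
    Set.to_countable _, ?_⟩⟩
  · apply antitone_nat_of_succ_le
    intro n x hx
    exact (hs n).le hx
  · intro n y hy
    exact exists_dual_ne_zero ⟨(s n).toAddSubgroup, isOpen_discrete _⟩ hy

end chain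

section product

variable {D₀ : Type*} [AddCommGroup D₀] [TopologicalSpace D₀] [DiscreteTopology D₀]
  {J : Type*} {Q : J → Type*} [∀ i, AddCommGroup (Q i)] [∀ i, TopologicalSpace (Q i)]
  [∀ i, DiscreteTopology (Q i)]

/-- products of discrete groups in which `D₀` embeds -/
lemma bad_of_discrete (h : Bad (J → D₀)) (φ : ∀ i, D₀ →+ Q i)
    (hφ : ∀ i, Function.Injective (φ i)) : Bad (∀ i, Q i) := by
  classical
  let f : (J → D₀) →ₜ+ (∀ i, Q i) :=
    { toFun := fun x i => φ i (x i)
      map_zero' := by
        ext i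
        exact map_zero _
      map_add' := fun x y => by
        ext i
        exact map_add _ _ _
      continuous_toFun := continuous_pi fun i =>
        (continuous_of_discreteTopology (f := φ i)).comp (continuous_apply i) }
  have hf : ∀ x i, f x i = φ i (x i) := fun x i => rfl
  refine h.of_embedding f ?_ ?_ ?_
  · intro x y hxy
    ext i
    apply hφ i
    rw [← hf, ← hf, hxy]
  · intro x hx
    have h1 : ∀ i, ∃ d, φ i d = x i := by
      intro i
      by_contra hcon
      have h2 : x i ∉ (⟨(φ i).range, isOpen_discrete _⟩ : OpenAddSubgroup (Q i)) := by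
        rintro ⟨d, hd⟩
        exact hcon ⟨d, hd⟩
      obtain ⟨χ, hχ1, hχ2⟩ := exists_dual_ne_zero _ h2
      let Θ : Dual (∀ i, Q i) := χ.comp ⟨Pi.evalAddMonoidHom Q i, continuous_apply i⟩
      have hΘ : ∀ y, Θ y = χ (y i) := fun y => rfl
      apply hχ2
      rw [← hΘ]
      apply hx Θ
      intro y
      rw [hΘ]
      exact hχ1 _ ⟨y i, rfl⟩
    choose d hd using h1
    exact ⟨d, funext fun i => hd i⟩
  · intro θ
    obtain ⟨V, hV⟩ := exists_open_ker θ
    obtain ⟨F, hF⟩ := exists_coordOpen_le V
    -- the components of `θ`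
    let θc : J → D₀ →+ UnitAddCircle := fun i => θ.toAddMonoidHom.comp (AddMonoidHom.single (fun _ => D₀) i)
    have h1 : ∀ i, ∃ h : Q i →+ UnitAddCircle, ∀ d, h (φ i d) = θc i d := fun i =>
      exists_extension (φ i) (hφ i) (θc i)
    choose g hg using h1
    let χ : Dual (∀ i, Q i) :=
      { toFun := fun y => ∑ i ∈ F, g i (y i)
        map_zero' := by simp
        map_add' := fun y z => by simp [Finset.sum_add_distrib]
        continuous_toFun := continuous_finsetSum _ fun i _ =>
          (continuous_of_discreteTopology (f := g i)).comp (continuous_apply i) }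
    refine ⟨χ, fun y => ?_⟩
    show ∑ i ∈ F, g i (φ i (y i)) = θ y
    have h2 : y - ∑ i ∈ F, Pi.single i (y i) ∈ V := by
      apply hF
      intro i hi
      rw [Pi.sub_apply, Finset.sum_apply, Finset.sum_eq_single i, Pi.single_eq_same, sub_self]
      · intro j _ hj
        rw [Pi.single_eq_of_ne hj.symm]
      · exact fun h => absurd hi h
    have h3 := hV _ h2
    rw [map_sub, sub_eq_zero, map_sum] at h3
    rw [h3]
    exact Finset.sum_congr rfl fun i _ => hg i _

end product

section restrict

variable {I : Type*} {X : I → Type*} [∀ i, AddCommGroup (X i)] [∀ i, TopologicalSpace (X i)]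
  [∀ i, IsTopologicalAddGroup (X i)] (J : Set I) {Q : J → Type*} [∀ i, AddCommGroup (Q i)]
  [∀ i, TopologicalSpace (Q i)] [∀ i, IsTopologicalAddGroup (Q i)]

/-- bad products of quotients of some of the factors -/
lemma bad_of_restrict (h : Bad (∀ i, Q i)) (f : ∀ i : J, X i →ₜ+ Q i)
    (hs : ∀ i, Function.Surjective (f i)) (ho : ∀ i, IsOpenMap (f i)) : Bad (∀ i, X i) := by
  classical
  let g : (∀ i, X i) →ₜ+ (∀ i : J, Q i) :=
    { toFun := fun x i => f i (x i)
      map_zero' := by
        ext i
        exact map_zero _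
      map_add' := fun x y => by
        ext i
        exact map_add _ _ _
      continuous_toFun := continuous_pi fun i =>
        (f i).continuous_toFun.comp (continuous_apply (i : I)) }
  have hg : ∀ x i, g x i = f i (x i) := fun x i => rfl
  refine h.of_quotient g ?_ ?_
  · intro y
    choose x hx using fun i => hs i (y i)
    refine ⟨fun i => if hi : i ∈ J then x ⟨i, hi⟩ else 0, ?_⟩
    ext i
    rw [hg, dif_pos i.2]
    exact hx i
  · apply IsOpenMap.of_nhds_le
    intro x
    -- translate to zero
    intro W hW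
    rw [Filter.mem_map, nhds_pi, Filter.mem_pi] at hW
    obtain ⟨F, hF, t, ht, hsub⟩ := hW
    -- the neighbourhood
    have h1 : ∀ i : J, f i '' (t i) ∈ 𝓝 (f i (x i)) := fun i => (ho i).image_mem_nhds (ht i)
    have h2 : ((Subtype.val ⁻¹' F : Set J).pi fun i => f i '' (t i)) ∈ 𝓝 (g x) :=
      set_pi_mem_nhds (hF.preimage Subtype.val_injective.injOn) fun i _ => h1 i
    refine Filter.mem_of_superset h2 ?_
    intro y hy
    -- a preimage
    have h3 : ∀ i : J, ∃ z : X i, f i z = y i ∧ ((i : I) ∈ F → z ∈ t i) := by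
      intro i
      by_cases hi : (i : I) ∈ F
      · obtain ⟨z, hz, hzy⟩ := hy i hi
        exact ⟨z, hzy, fun _ => hz⟩
      · obtain ⟨z, hz⟩ := hs i (y i)
        exact ⟨z, hz, fun h => absurd h hi⟩
    choose z hz1 hz2 using h3
    have h4 : (fun i => if hi : i ∈ J then z ⟨i, hi⟩ else x i) ∈ F.pi t := by
      intro i hi
      by_cases hiJ : i ∈ J
      · simp only [dif_pos hiJ]
        exact hz2 ⟨i, hiJ⟩ hi
      · simp only [dif_neg hiJ]
        exact mem_of_mem_nhds (ht i)
    have h5 := hsub h4
    have h6 : g (fun i => if hi : i ∈ J then z ⟨i, hi⟩ else x i) = y := by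
      ext i
      rw [hg, dif_pos i.2]
      exact hz1 i
    rw [Set.mem_preimage, h6] at h5
    exact h5

end restrict

/-- the general necessary condition: if a countable group that is not Artinian embeds in discrete
quotients of uncountably many factors then the product is not strongly reflexive -/
theorem bad_of_family {D₀ : Type*} [AddCommGroup D₀] [Countable D₀] (h0 : ¬ IsArtinian ℤ D₀)
    {I : Type*} {X : I → Type*} [∀ i, AddCommGroup (X i)] [∀ i, TopologicalSpace (X i)]
    [∀ i, IsTopologicalAddGroup (X i)]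
    (h : ¬ {i | ∃ (N : OpenAddSubgroup (X i)) (φ : D₀ →+ X i ⧸ (N : AddSubgroup (X i))),
      Function.Injective φ}.Countable) : Bad (∀ i, X i) := by
  let _ : TopologicalSpace D₀ := ⊥
  have : DiscreteTopology D₀ := ⟨rfl⟩
  obtain ⟨C⟩ := exists_chain h0
  set J := {i | ∃ (N : OpenAddSubgroup (X i)) (φ : D₀ →+ X i ⧸ (N : AddSubgroup (X i))),
      Function.Injective φ} with hJ
  have hJu : Uncountable J := by
    rw [← not_countable_iff]
    intro h1
    exact h (Set.countable_coe_iff.1 h1)
  have h1 : Bad (J → D₀) := C.exists_bad_quotient J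
  choose N φ hφ using fun i : J => i.2
  have h2 : Bad (∀ i : J, X i ⧸ (N i : AddSubgroup (X i))) := bad_of_discrete h1 φ hφ
  exact bad_of_restrict J h2
    (fun i => ⟨QuotientAddGroup.mk' (N i : AddSubgroup (X i)), continuous_quot_mk⟩)
    (fun i => QuotientAddGroup.mk_surjective) (fun i => QuotientAddGroup.isOpenMap_coe)

end Pool.Agent.Work.MP_c629c8_al
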