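import Mathlib
import Pool.Agent.Work.MP_c629c8_al.Family

/-!
# Uncountable powers of the real line
-/

namespace Pool.Agent.Work.MP_c629c8_al

open Topology

/-- the chain `2^n ℤ` in `ℝ` -/
noncomputable def realChain : Chain ℝ where
  B n := AddSubgroup.zmultiples ((2 : ℝ) ^ n)
  anti := by
    apply antitone_nat_of_succ_le
    intro n
    rw [AddSubgroup.zmultiples_le]
    refine AddSubgroup.mem_zmultiples_iff.2 ⟨2, ?_⟩
    rw [pow_succ, zsmul_eq_mul]
    push_cast
    ring
  b n := (2 : ℝ) ^ n
  b_mem n := AddSubgroup.mem_zmultiples _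
  b_not n := by
    intro h
    obtain ⟨k, hk⟩ := AddSubgroup.mem_zmultiples_iff.1 h
    rw [zsmul_eq_mul, pow_succ] at hk
    have h1 : (2 : ℝ) ^ n ≠ 0 := by positivity
    have h2 : (k : ℝ) * 2 = 1 := by
      apply mul_left_cancel₀ h1
      linarith
    have h3 : k * 2 = 1 := by exact_mod_cast h2
    omega
  countable := (Set.countable_range fun k : ℤ => k • (2 : ℝ) ^ 0).mono (by
    rintro x hx
    exact AddSubgroup.mem_zmultiples_iff.1 hx)
  sep n y hy := by
    have h1 : (2 : ℝ) ^ n ≠ 0 := by positivity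
    let χ : Dual ℝ :=
      { toFun := fun x => ((x / 2 ^ n : ℝ) : UnitAddCircle)
        map_zero' := by simp
        map_add' := fun x y => by
          rw [add_div]
          exact AddCircle.coe_add _ _ _
        continuous_toFun := (AddCircle.continuous_mk' 1).comp (continuous_id.div_const _) }
    have hχ : ∀ x, χ x = ((x / 2 ^ n : ℝ) : UnitAddCircle) := fun x => rfl
    refine ⟨χ, fun v hv => ?_, fun h => hy ?_⟩
    · obtain ⟨k, rfl⟩ := AddSubgroup.mem_zmultiples_iff.1 hv
      rw [hχ, AddCircle.coe_eq_zero_iff]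
      refine ⟨k, ?_⟩
      rw [zsmul_eq_mul, zsmul_eq_mul, mul_one, mul_div_cancel_right₀ _ h1]
    · rw [hχ, AddCircle.coe_eq_zero_iff] at h
      obtain ⟨k, hk⟩ := h
      refine AddSubgroup.mem_zmultiples_iff.2 ⟨k, ?_⟩
      rw [zsmul_eq_mul, mul_one] at hk
      rw [zsmul_eq_mul, hk, div_mul_cancel₀ _ h1]

/-- products with uncountably many factors that have the real line as a quotient -/
theorem bad_of_real {I : Type*} {X : I → Type*} [∀ i, AddCommGroup (X i)]
    [∀ i, TopologicalSpace (X i)] [∀ i, IsTopologicalAddGroup (X i)]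
    (h : ¬ {i | ∃ f : X i →ₜ+ ℝ, Function.Surjective f ∧ IsOpenMap f}.Countable) :
    Bad (∀ i, X i) := by
  set J := {i | ∃ f : X i →ₜ+ ℝ, Function.Surjective f ∧ IsOpenMap f} with hJ
  have hJu : Uncountable J := by
    rw [← not_countable_iff]
    intro h1
    exact h (Set.countable_coe_iff.1 h1)
  have h1 : Bad (J → ℝ) := realChain.exists_bad_quotient J
  choose f hf1 hf2 using fun i : J => i.2
  exact bad_of_restrict J h1 f hf1 hf2

/-- `ℝ^I × M` -/
theorem bad_real_prod {I : Type*} [Uncountable I] (M : Type*) [AddCommGroup M]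
    [TopologicalSpace M] [IsTopologicalAddGroup M] : Bad ((I → ℝ) × M) := by
  have h1 : Bad (I → ℝ) := realChain.exists_bad_quotient I
  exact h1.of_quotient (ContinuousAddMonoidHom.fst (I → ℝ) M) Prod.fst_surjective isOpenMap_fst

end Pool.Agent.Work.MP_c629c8_al
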