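import Mathlib

/-!
# Torsion groups with finite socles
-/

namespace Pool.Agent.Work.MP_c629c8_al

section

variable {D : Type*} [AddCommGroup D]

/-- the `k`-th layer of a subgroup -/
def layer (m : ℕ) (B : Submodule ℤ D) (k : ℕ) : Set D :=
  {y | ∃ b ∈ B, m ^ k • b = y ∧ m ^ (k + 1) • b = 0}

lemma layer_subset (m : ℕ) (B : Submodule ℤ D) (k : ℕ) : layer m B k ⊆ {x | m • x = 0} := by
  rintro y ⟨b, -, rfl, h⟩
  show m • (m ^ k • b) = 0
  rw [← mul_nsmul', ← pow_succ']
  exact h

lemma layer_mono {m : ℕ} {B C : Submodule ℤ D} (h : B ≤ C) (k : ℕ) :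
    layer m B k ⊆ layer m C k := by
  rintro y ⟨b, hb, h1, h2⟩
  exact ⟨b, h hb, h1, h2⟩

lemma layer_succ (m : ℕ) (B : Submodule ℤ D) (k : ℕ) : layer m B (k + 1) ⊆ layer m B k := by
  rintro y ⟨b, hb, rfl, h2⟩
  refine ⟨m • b, B.smul_of_tower_mem m hb, ?_, ?_⟩
  · rw [← mul_nsmul, ← pow_succ']
  · rw [← mul_nsmul, ← pow_succ']
    exact h2

lemma layer_anti (m : ℕ) (B : Submodule ℤ D) : Antitone (layer m B) :=
  antitone_nat_of_succ_le (layer_succ m B)

lemma eq_of_layer {m : ℕ} (htor : ∀ x : D, ∃ k, m ^ k • x = 0) {B C : Submodule ℤ D} (h : B ≤ C)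
    (hl : ∀ k, layer m C k ⊆ layer m B k) : B = C := by
  have key : ∀ k, ∀ c ∈ C, m ^ k • c = 0 → c ∈ B := by
    intro k
    induction k with
    | zero =>
      intro c _ h0
      rw [pow_zero, one_nsmul] at h0
      rw [h0]
      exact B.zero_mem
    | succ k ih =>
      intro c hc h0
      obtain ⟨b, hb, h1, h2⟩ := hl k ⟨c, hc, rfl, h0⟩
      have h3 : c - b ∈ B := by
        apply ih _ (C.sub_mem hc (h hb))
        rw [nsmul_sub, h1, sub_self]
      have := B.add_mem h3 hb
      rwa [sub_add_cancel] at this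
  refine le_antisymm h fun c hc => ?_
  obtain ⟨k, hk⟩ := htor c
  exact key k c hc hk

/-- if `D[m]` is finite and `D` is `m`-primary then `D` is Artinian -/
theorem isArtinian_of_finite_socle {m : ℕ} (hfin : {x : D | m • x = 0}.Finite)
    (htor : ∀ x : D, ∃ k, m ^ k • x = 0) : IsArtinian ℤ D := by
  rw [← monotone_stabilizes_iff_artinian]
  intro f
  have hanti : ∀ i j, i ≤ j → (OrderDual.ofDual (f j)) ≤ OrderDual.ofDual (f i) := fun i j h =>
    f.monotone h
  have hlf : ∀ n k, (layer m (OrderDual.ofDual (f n)) k).Finite := fun n k =>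
    hfin.subset (layer_subset m _ k)
  -- the pair with the smallest layer
  obtain ⟨⟨n₀, k₀⟩, hmin⟩ : ∃ p : ℕ × ℕ, ∀ q : ℕ × ℕ,
      (layer m (OrderDual.ofDual (f p.1)) p.2).ncard ≤
        (layer m (OrderDual.ofDual (f q.1)) q.2).ncard := by
    obtain ⟨p, -, hp⟩ := (measure fun p : ℕ × ℕ =>
      (layer m (OrderDual.ofDual (f p.1)) p.2).ncard).wf.has_min Set.univ ⟨(0, 0), trivial⟩
    exact ⟨p, fun q => not_lt.1 (hp q trivial)⟩
  have hmin' : ∀ k, ∃ n, ∀ n', (layer m (OrderDual.ofDual (f n)) k).ncard ≤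
      (layer m (OrderDual.ofDual (f n')) k).ncard := by
    intro k
    obtain ⟨p, -, hp⟩ := (measure fun n : ℕ =>
      (layer m (OrderDual.ofDual (f n)) k).ncard).wf.has_min Set.univ ⟨0, trivial⟩
    exact ⟨p, fun q => not_lt.1 (hp q trivial)⟩
  choose ν hν using hmin'
  set n₁ := max n₀ ((Finset.range k₀).sup ν) with hn₁
  refine ⟨n₁, fun n hn => ?_⟩
  have h1 : OrderDual.ofDual (f n) = OrderDual.ofDual (f n₁) := by
    apply eq_of_layer htor (hanti _ _ hn)
    intro k
    by_cases hk : k < k₀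
    · have h2 : ν k ≤ n₁ := (Finset.le_sup (f := ν) (Finset.mem_range.2 hk)).trans
        (le_max_right _ _)
      have h3 : layer m (OrderDual.ofDual (f n)) k = layer m (OrderDual.ofDual (f (ν k))) k :=
        Set.eq_of_subset_of_ncard_le (layer_mono (hanti _ _ (h2.trans hn)) k) (hν k n) (hlf _ _)
      rw [h3]
      exact layer_mono (hanti _ _ h2) k
    · rw [not_lt] at hk
      have h2 : n₀ ≤ n₁ := le_max_left _ _
      have h3 : layer m (OrderDual.ofDual (f n)) k = layer m (OrderDual.ofDual (f n₀)) k₀ :=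
        Set.eq_of_subset_of_ncard_le ((layer_mono (hanti _ _ (h2.trans hn)) k).trans
          (layer_anti m _ hk)) (hmin (n, k)) (hlf _ _)
      rw [h3]
      exact (layer_mono (hanti _ _ h2) k).trans (layer_anti m _ hk)
  exact h1.symm

lemma finite_socle_mul {a b : ℕ} (ha : {x : D | a • x = 0}.Finite)
    (hb : {x : D | b • x = 0}.Finite) : {x : D | (a * b) • x = 0}.Finite := by
  refine Set.Finite.of_finite_fibers (fun x => a • x) ?_ ?_
  · refine hb.subset ?_
    rintro _ ⟨x, hx, rfl⟩
    show b • (a • x) = 0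
    rw [← mul_nsmul]
    exact hx
  · intro y _
    rcases Set.eq_empty_or_nonempty ({x : D | (a * b) • x = 0} ∩ (fun x => a • x) ⁻¹' {y})
      with he | ⟨x₀, -, hx₀⟩
    · rw [he]
      exact Set.finite_empty
    · refine (ha.image (fun z => x₀ + z)).subset ?_
      rintro x ⟨-, hx⟩
      refine ⟨x - x₀, ?_, by simp⟩
      show a • (x - x₀) = 0
      have h1 : a • x = y := hx
      have h2 : a • x₀ = y := hx₀
      rw [nsmul_sub, h1, h2, sub_self]

lemma finite_socle_prod (s : Finset ℕ) (h : ∀ p ∈ s, {x : D | p • x = 0}.Finite) :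
    {x : D | (∏ p ∈ s, p) • x = 0}.Finite := by
  classical
  induction s using Finset.induction_on with
  | empty =>
    refine (Set.finite_singleton (0 : D)).subset ?_
    intro x hx
    simpa using hx
  | insert p s hp ih =>
    rw [Finset.prod_insert hp]
    exact finite_socle_mul (h p (Finset.mem_insert_self p s))
      (ih fun q hq => h q (Finset.mem_insert_of_mem hq))

/-- a torsion group with finite socles, for finitely many primes -/
theorem isArtinian_of_finite_primes (htor : ∀ x : D, ∃ n : ℕ, 0 < n ∧ n • x = 0)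
    (hπ : {p : ℕ | p.Prime ∧ ∃ x : D, x ≠ 0 ∧ p • x = 0}.Finite)
    (hfin : ∀ p : ℕ, p.Prime → {x : D | p • x = 0}.Finite) : IsArtinian ℤ D := by
  have h1 := finite_socle_prod (D := D) hπ.toFinset (fun p hp => hfin p (by
    rw [Set.Finite.mem_toFinset] at hp
    exact hp.1))
  refine isArtinian_of_finite_socle h1 ?_
  have key : ∀ n : ℕ, 0 < n → ∀ x : D, n • x = 0 → ∃ k, (∏ p ∈ hπ.toFinset, p) ^ k • x = 0 := by
    intro n
    induction n using Nat.strong_induction_on with
    | _ n ih =>
      intro hn x hx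
      by_cases hx0 : x = 0
      · exact ⟨0, by simp [hx0]⟩
      by_cases hn1 : n = 1
      · subst hn1
        exact ⟨0, by simpa using hx⟩
      obtain ⟨q, hq, r, rfl⟩ := Nat.exists_prime_and_dvd hn1
      by_cases hr : r • x = 0
      · have hr0 : 0 < r := Nat.pos_of_ne_zero (by rintro rfl; simp at hn)
        exact ih r (by nlinarith [hq.two_le]) hr0 x hr
      · have hr0 : 0 < r := Nat.pos_of_ne_zero (by rintro rfl; simp at hn)
        have hqm : q ∈ hπ.toFinset := by
          rw [Set.Finite.mem_toFinset]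
          refine ⟨hq, r • x, hr, ?_⟩
          rw [← mul_nsmul']
          exact hx
        obtain ⟨c, hc⟩ := Finset.dvd_prod_of_mem (fun p => p) hqm
        obtain ⟨k, hk⟩ := ih r (by nlinarith [hq.two_le]) hr0 (q • x) (by
          rw [← mul_nsmul]
          exact hx)
        refine ⟨k + 1, ?_⟩
        have : (∏ p ∈ hπ.toFinset, p) ^ (k + 1) =
          q * (∏ p ∈ hπ.toFinset, p) ^ k * c := by
          rw [pow_succ]
          conv_lhs => rw [hc]
          rw [show (∏ p ∈ hπ.toFinset, p) = q * c from hc]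
          ring
        rw [this, mul_nsmul, mul_nsmul, hk, nsmul_zero]
  intro x
  obtain ⟨n, hn, hx⟩ := htor x
  exact key n hn x hx

lemma exists_int_embedding {x : D} (hx : ∀ n : ℕ, 0 < n → n • x ≠ 0) :
    ∃ φ : ℤ →+ D, Function.Injective φ := by
  refine ⟨zmultiplesHom D x, ?_⟩
  rw [injective_iff_map_eq_zero]
  intro n hn
  rw [zmultiplesHom_apply] at hn
  by_contra hne
  have h1 : n.natAbs • x = 0 := by
    rcases Int.natAbs_eq n with h | h
    · rw [h, natCast_zsmul] at hn
      exact hn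
    · rw [h, neg_zsmul, natCast_zsmul, neg_eq_zero] at hn
      exact hn
  exact hx _ (Int.natAbs_pos.2 hne) h1

lemma not_isArtinian_int : ¬ IsArtinian ℤ ℤ := by
  intro h
  have : IsArtinianRing ℤ := h
  exact Int.not_isField (IsArtinianRing.isField_of_isDomain ℤ)

lemma exists_socle_embedding {p : ℕ} (hp : p.Prime) (h : {x : D | p • x = 0}.Infinite) :
    ∃ φ : (ℕ →₀ ZMod p) →+ D, Function.Injective φ := by
  have : Fact p.Prime := ⟨hp⟩
  let S : AddSubgroup D :=
    { carrier := {x : D | p • x = 0}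
      zero_mem' := nsmul_zero p
      add_mem' := fun {a b} ha hb => by
        show p • (a + b) = 0
        rw [nsmul_add, show p • a = 0 from ha, show p • b = 0 from hb, add_zero]
      neg_mem' := fun {a} ha => by
        show p • (-a) = 0
        rw [smul_neg, show p • a = 0 from ha, neg_zero] }
  let _ : Module (ZMod p) S := AddCommGroup.zmodModule (n := p) (fun x => Subtype.ext x.2)
  have hS : Infinite S := h.to_subtype
  let b := Module.Basis.ofVectorSpace (ZMod p) S
  have hι : Infinite (Module.Basis.ofVectorSpaceIndex (ZMod p) S) := by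
    by_contra hcon
    rw [not_infinite_iff_finite] at hcon
    have : Finite (Module.Basis.ofVectorSpaceIndex (ZMod p) S → ZMod p) := inferInstance
    have h2 : Finite S := Finite.of_equiv _ b.equivFun.symm.toEquiv
    exact not_finite S
  let e : ℕ ↪ Module.Basis.ofVectorSpaceIndex (ZMod p) S := Infinite.natEmbedding _
  refine ⟨(S.subtype.comp b.repr.symm.toAddEquiv.toAddMonoidHom).comp
    (Finsupp.embDomain.addMonoidHom e), ?_⟩
  intro f g hfg
  have h1 : b.repr.symm (Finsupp.embDomain e f) = b.repr.symm (Finsupp.embDomain e g) :=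
    Subtype.ext hfg
  exact Finsupp.embDomain_injective e (b.repr.symm.injective h1)

lemma not_isArtinian_finsupp {p : ℕ} (hp : p.Prime) : ¬ IsArtinian ℤ (ℕ →₀ ZMod p) := by
  intro h
  have : Fact p.Prime := ⟨hp⟩
  let B : ℕ → Submodule ℤ (ℕ →₀ ZMod p) := fun n =>
    { carrier := {f | ∀ i < n, f i = 0}
      zero_mem' := fun _ _ => rfl
      add_mem' := fun {f g} hf hg i hi => by rw [Finsupp.add_apply, hf i hi, hg i hi, add_zero]
      smul_mem' := fun c f hf i hi => by rw [Finsupp.smul_apply, hf i hi, smul_zero] }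
  have hB : Antitone B := fun m n hmn f hf i hi => hf i (hi.trans_le hmn)
  obtain ⟨n, hn⟩ := monotone_stabilizes_iff_artinian.2 h
    ⟨fun n => OrderDual.toDual (B n), fun m n hmn => hB hmn⟩
  have h1 : B n = B (n + 1) := hn (n + 1) (Nat.le_succ n)
  have h2 : Finsupp.single n (1 : ZMod p) ∈ B n := by
    intro i hi
    rw [Finsupp.single_apply, if_neg hi.ne']
  rw [h1] at h2
  have h3 := h2 n (Nat.lt_succ_self n)
  rw [Finsupp.single_apply, if_pos rfl] at h3
  exact one_ne_zero h3

/-- every group that is not Artinian has a countable subgroup that is not Artinian -/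
lemma exists_countable_not_artinian (h : ¬ IsArtinian ℤ D) :
    ∃ S : AddSubgroup D, Countable S ∧ ¬ IsArtinian ℤ S := by
  have h1 : ¬ WellFounded ((· < ·) : Submodule ℤ D → Submodule ℤ D → Prop) := by
    intro h2
    exact h ⟨h2⟩
  rw [wellFounded_iff_isEmpty_descending_chain, not_isEmpty_iff] at h1
  obtain ⟨s, hs⟩ := h1
  have h3 : ∀ n, ∃ b, b ∈ s n ∧ b ∉ s (n + 1) := fun n => SetLike.exists_of_lt (hs n)
  choose b hb1 hb2 using h3
  have hanti : Antitone s := antitone_nat_of_succ_le fun n => (hs n).le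
  let Φ : (ℕ →₀ ℤ) →+ D := (Finsupp.linearCombination ℤ b).toAddMonoidHom
  have hb : ∀ n, b n ∈ Φ.range := fun n => ⟨Finsupp.single n 1, by
    show Finsupp.linearCombination ℤ b (Finsupp.single n 1) = b n
    rw [Finsupp.linearCombination_single, one_smul]⟩
  refine ⟨Φ.range, Φ.rangeRestrict_surjective.countable, fun hA => ?_⟩
  let B : ℕ → Submodule ℤ Φ.range := fun n => (s n).comap Φ.range.subtype.toIntLinearMap
  have hB : Antitone B := fun m n hmn => Submodule.comap_mono (hanti hmn)
  obtain ⟨n, hn⟩ := monotone_stabilizes_iff_artinian.2 hA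
    ⟨fun n => OrderDual.toDual (B n), fun m n hmn => hB hmn⟩
  have h1 : B n = B (n + 1) := hn (n + 1) (Nat.le_succ n)
  have h2 : (⟨b n, hb n⟩ : Φ.range) ∈ B n := hb1 n
  rw [h1] at h2
  exact hb2 n h2

end

end Pool.Agent.Work.MP_c629c8_al
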