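import Mathlib
import Pool.Agent.Work.MP_c629c8_al.RealLine
import Pool.Agent.Work.MP_c629c8_al.CondA
import Pool.Agent.Work.MP_c629c8_al.Struct

/-!
# Products: the main theorems
-/

namespace Pool.Agent.Work.MP_c629c8_al

open Topology

section necessary

variable {I : Type*} {X : I → Type*} [∀ i, AddCommGroup (X i)] [∀ i, TopologicalSpace (X i)]
  [∀ i, IsTopologicalAddGroup (X i)]

lemma countable_embeds {D₀ : Type*} [AddCommGroup D₀] [Countable D₀] (h0 : ¬ IsArtinian ℤ D₀)
    (hs : StronglyReflexive (∀ i, X i)) :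
    {i | ∃ N : AddSubgroup (X i), IsOpen (N : Set (X i)) ∧
      ∃ φ : D₀ →+ X i ⧸ N, Function.Injective φ}.Countable := by
  by_contra hcon
  refine (bad_of_family (X := X) h0 ?_).not_stronglyReflexive hs
  intro h
  apply hcon
  refine h.mono ?_
  rintro i ⟨N, hN, φ, hφ⟩
  exact ⟨⟨N, hN⟩, φ, hφ⟩

lemma countable_real (hs : StronglyReflexive (∀ i, X i)) :
    {i | ∃ f : X i →ₜ+ ℝ, Function.Surjective f ∧ IsOpenMap f}.Countable := by
  by_contra hcon
  exact (bad_of_real hcon).not_stronglyReflexive hs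

lemma countable_torsion (hs : StronglyReflexive (∀ i, X i)) :
    {i | ¬ ∀ N : AddSubgroup (X i), IsOpen (N : Set (X i)) →
      (∀ x : X i ⧸ N, ∃ n : ℕ, 0 < n ∧ n • x = 0) ∧
      ∀ p : ℕ, p.Prime → {x : X i ⧸ N | p • x = 0}.Finite}.Countable := by
  have h1 := countable_embeds not_isArtinian_int hs
  have h2 : ∀ p : ℕ, p.Prime → {i | ∃ N : AddSubgroup (X i), IsOpen (N : Set (X i)) ∧
      ∃ φ : (ℕ →₀ ZMod p) →+ X i ⧸ N, Function.Injective φ}.Countable := by
    intro p hp
    have : NeZero p := ⟨hp.ne_zero⟩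
    exact countable_embeds (not_isArtinian_finsupp hp) hs
  have h3 : (⋃ p ∈ {p : ℕ | p.Prime}, {i | ∃ N : AddSubgroup (X i), IsOpen (N : Set (X i)) ∧
      ∃ φ : (ℕ →₀ ZMod p) →+ X i ⧸ N, Function.Injective φ}).Countable :=
    (Set.to_countable {p : ℕ | p.Prime}).biUnion fun p hp => h2 p hp
  refine (h1.union h3).mono ?_
  intro i hi
  simp only [Set.mem_ofPred_eq] at hi
  push Not at hi
  obtain ⟨N, hN, h4⟩ := hi
  by_cases h5 : ∀ x : X i ⧸ N, ∃ n : ℕ, 0 < n ∧ n • x = 0
  · right
    obtain ⟨p, hp, h6⟩ := h4 h5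
    simp only [Set.mem_iUnion]
    exact ⟨p, hp, N, hN, exists_socle_embedding hp h6⟩
  · left
    push Not at h5
    obtain ⟨x, hx⟩ := h5
    exact ⟨N, hN, exists_int_embedding hx⟩

end necessary

section characterisation

variable {I : Type*} {X : I → Type*} [∀ i, AddCommGroup (X i)] [∀ i, UniformSpace (X i)]
  [∀ i, IsUniformAddGroup (X i)] [∀ i, CompleteSpace (X i)] [∀ i, T2Space (X i)]
  [∀ i, NonarchimedeanAddGroup (X i)]

theorem stronglyReflexive_prod (hA : ∀ i, CondA (X i))
    (h : {i | ¬ ArtinianQuotients (X i)}.Countable) : StronglyReflexive (∀ i, X i) :=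
  stronglyReflexive_of_condA (condA_pi hA h)

theorem countable_of_finite_primes
    (hπ : ∀ i, ∀ N : AddSubgroup (X i), IsOpen (N : Set (X i)) →
      {p : ℕ | p.Prime ∧ ∃ x : X i ⧸ N, x ≠ 0 ∧ p • x = 0}.Finite)
    (hs : StronglyReflexive (∀ i, X i)) : {i | ¬ ArtinianQuotients (X i)}.Countable := by
  refine (countable_torsion hs).mono ?_
  intro i hi h1
  apply hi
  intro N hN
  exact isArtinian_of_finite_primes (h1 N hN).1 (hπ i N hN) (h1 N hN).2

theorem countable_of_types (κ : I → ℕ) (hκ : ∀ i j, κ i = κ j → Nonempty (X i ≃ₜ+ X j))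
    (hs : StronglyReflexive (∀ i, X i)) : {i | ¬ ArtinianQuotients (X i)}.Countable := by
  have h1 : {i | ¬ ArtinianQuotients (X i)} ⊆ ⋃ n : ℕ, {i | ¬ ArtinianQuotients (X i) ∧ κ i = n} := by
    intro i hi
    simp only [Set.mem_iUnion]
    exact ⟨κ i, hi, rfl⟩
  refine (Set.countable_iUnion fun n => ?_).mono h1
  rcases Set.eq_empty_or_nonempty {i | ¬ ArtinianQuotients (X i) ∧ κ i = n} with he | ⟨j, hj, hjn⟩
  · rw [he]
    exact Set.countable_empty
  · unfold ArtinianQuotients at hj
    push Not at hj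
    obtain ⟨N, hN, hNA⟩ := hj
    obtain ⟨S, hS1, hS2⟩ := exists_countable_not_artinian hNA
    refine (countable_embeds hS2 hs).mono ?_
    rintro i ⟨-, hi⟩
    obtain ⟨e⟩ := hκ j i (hjn.trans hi.symm)
    refine ⟨N.comap e.symm.toAddEquiv.toAddMonoidHom, hN.preimage e.symm.continuous, ?_⟩
    let g : X j ⧸ N →+ X i ⧸ N.comap e.symm.toAddEquiv.toAddMonoidHom :=
      QuotientAddGroup.map _ _ e.toAddEquiv.toAddMonoidHom (by
        intro x hx
        show e.symm (e x) ∈ N
        rwa [e.symm_apply_apply])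
    refine ⟨g.comp S.subtype, ?_⟩
    have hg : Function.Injective g := by
      rw [injective_iff_map_eq_zero]
      intro a ha
      obtain ⟨x, rfl⟩ := QuotientAddGroup.mk_surjective a
      have h2 : (QuotientAddGroup.mk (e x) :
        X i ⧸ N.comap e.symm.toAddEquiv.toAddMonoidHom) = 0 := ha
      rw [QuotientAddGroup.eq_zero_iff] at h2 ⊢
      have h3 : e.symm (e x) ∈ N := h2
      rwa [e.symm_apply_apply] at h3
    exact hg.comp Subtype.val_injective

end characterisation

section powers

variable (X : Type*) [AddCommGroup X] [UniformSpace X] [IsUniformAddGroup X] [CompleteSpace X]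
  [T2Space X] [NonarchimedeanAddGroup X]

theorem power_iff (hA : CondA X) (I : Type*) :
    StronglyReflexive (I → X) ↔ Countable I ∨ ArtinianQuotients X := by
  constructor
  · intro hs
    by_cases h : ArtinianQuotients X
    · exact Or.inr h
    · left
      have h1 := countable_of_types (X := fun _ : I => X) (fun _ => 0)
        (fun _ _ _ => ⟨ContinuousAddEquiv.refl X⟩) hs
      rw [← Set.countable_univ_iff]
      exact h1.mono fun i _ => h
  · rintro (h | h)
    · exact stronglyReflexive_prod (X := fun _ : I => X) (fun _ => hA) (Set.to_countable _)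
    · refine stronglyReflexive_prod (X := fun _ : I => X) (fun _ => hA) ?_
      refine Set.countable_empty.mono ?_
      intro i hi
      exact (hi h).elim

end powers

section discrete

lemma artinianQuotients_iff (D : Type*) [AddCommGroup D] [TopologicalSpace D]
    [DiscreteTopology D] : ArtinianQuotients D ↔ IsArtinian ℤ D := by
  constructor
  · intro h
    have h1 : IsArtinian ℤ (D ⧸ (⊥ : AddSubgroup D)) := h ⊥ (isOpen_discrete _)
    exact isArtinian_of_linearEquiv
      (QuotientAddGroup.quotientBot (G := D)).toIntLinearEquiv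
  · intro h N _
    exact isArtinian_of_surjective D (QuotientAddGroup.mk' N).toIntLinearMap
      QuotientAddGroup.mk_surjective

end discrete

end Pool.Agent.Work.MP_c629c8_al
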