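import Pool.Agent.Work.MP_c629c8_al.AD

/-!
# Almost disjoint refinements of uncountable families
-/

namespace Pool.Agent.Work.MP_c629c8_al

open Set

/-- a set that is not almost covered by finitely many members of a countable family has an
infinite subset that is almost disjoint from all members -/
lemma exists_subset_ad {S : Set ℕ} {P : Set (Set ℕ)} (hP : P.Countable)
    (h : ∀ F : Finset (Set ℕ), (∀ A ∈ F, A ∈ P) → (S \ ⋃₀ (F : Set (Set ℕ))).Infinite) :
    ∃ T ⊆ S, T.Infinite ∧ ∀ A ∈ P, (T ∩ A).Finite := by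
  classical
  rcases P.eq_empty_or_nonempty with rfl | hne
  · refine ⟨S, subset_rfl, ?_, fun A hA => absurd hA (notMem_empty A)⟩
    simpa using h ∅ (by simp)
  · obtain ⟨a, rfl⟩ := hP.exists_eq_range hne
    have h1 : ∀ n m : ℕ, ∃ x, m < x ∧ x ∈ S ∧ ∀ k ≤ n, x ∉ a k := by
      intro n m
      obtain ⟨x, hx, hmx⟩ := (h ((Finset.range (n + 1)).image a) (by
        intro A hA
        obtain ⟨k, -, rfl⟩ := Finset.mem_image.1 hA
        exact ⟨k, rfl⟩)).exists_gt m
      refine ⟨x, hmx, hx.1, fun k hk hxk => hx.2 ⟨a k, ?_, hxk⟩⟩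
      rw [Finset.mem_coe, Finset.mem_image]
      exact ⟨k, Finset.mem_range.2 (by omega), rfl⟩
    choose f hf1 hf2 hf3 using h1
    let t : ℕ → ℕ := fun n => Nat.rec (f 0 0) (fun n r => f (n + 1) r) n
    have ht : StrictMono t := strictMono_nat_of_lt_succ fun n => hf1 (n + 1) (t n)
    have h2 : ∀ n, t n ∈ S ∧ ∀ k ≤ n, t n ∉ a k := by
      intro n
      cases n with
      | zero => exact ⟨hf2 0 0, hf3 0 0⟩
      | succ n => exact ⟨hf2 (n + 1) (t n), hf3 (n + 1) (t n)⟩
    refine ⟨range t, ?_, infinite_range_of_injective ht.injective, ?_⟩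
    · rintro _ ⟨n, rfl⟩
      exact (h2 n).1
    · rintro _ ⟨k, rfl⟩
      refine ((Set.finite_Iio k).image t).subset ?_
      rintro _ ⟨⟨n, rfl⟩, hn⟩
      refine ⟨n, ?_, rfl⟩
      by_contra hk
      exact (h2 n).2 k (not_lt.1 hk) hn

/-- every infinite set of natural numbers contains an almost disjoint family of size continuum -/
lemma exists_ad_below {S : Set ℕ} (hS : S.Infinite) : ∃ A : (ℕ → Bool) → Set ℕ,
    (∀ x, A x ⊆ S ∧ (A x).Infinite) ∧ ∀ x y, x ≠ y → (A x ∩ A y).Finite := by
  have : Infinite S := hS.to_subtype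
  let g : ℕ ↪ S := Infinite.natEmbedding S
  have hg : Function.Injective fun n => (g n : ℕ) := fun m n h => g.injective (Subtype.ext h)
  refine ⟨fun x => (fun n => (g n : ℕ)) '' segs x, fun x => ⟨?_, ?_⟩, fun x y hxy => ?_⟩
  · rintro _ ⟨n, -, rfl⟩
    exact (g n).2
  · exact (segs_infinite x).image hg.injOn
  · rw [← image_inter hg]
    exact (segs_inter_finite hxy).image _

section

variable {I : Type*} (S : I → Set ℕ)

/-- partial almost disjoint refinements that do not almost cover any member of the family -/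
structure PartRef (P : Set (I × Set ℕ)) : Prop where
  fn : ∀ x ∈ P, ∀ y ∈ P, x.1 = y.1 → x = y
  sub : ∀ x ∈ P, x.2 ⊆ S x.1 ∧ x.2.Infinite
  ad : ∀ x ∈ P, ∀ y ∈ P, x ≠ y → (x.2 ∩ y.2).Finite
  cov : ∀ i, ∀ F : Finset (Set ℕ), (∀ A ∈ F, ∃ j, (j, A) ∈ P) →
    (S i \ ⋃₀ (F : Set (Set ℕ))).Infinite

variable {S}

lemma exists_maximal_partRef (hS : ∀ i, (S i).Infinite) :
    ∃ P, Maximal (PartRef S) P := by
  obtain ⟨P, -, hP⟩ := zorn_subset_nonempty {P | PartRef S P} (by
    intro c hc hch hne
    refine ⟨⋃₀ c, ⟨?_, ?_, ?_, ?_⟩, fun s hs => subset_sUnion_of_mem hs⟩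
    · rintro x ⟨s, hs, hx⟩ y ⟨t, ht, hy⟩ h
      rcases hch.total hs ht with h1 | h1
      · exact (hc ht).fn x (h1 hx) y hy h
      · exact (hc hs).fn x hx y (h1 hy) h
    · rintro x ⟨s, hs, hx⟩
      exact (hc hs).sub x hx
    · rintro x ⟨s, hs, hx⟩ y ⟨t, ht, hy⟩ h
      rcases hch.total hs ht with h1 | h1
      · exact (hc ht).ad x (h1 hx) y hy h
      · exact (hc hs).ad x hx y (h1 hy) h
    · intro i F hF
      have h1 : ∃ s ∈ c, ∀ A ∈ F, ∃ j, (j, A) ∈ s := by
        classical
        induction F using Finset.induction_on with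
        | empty =>
          obtain ⟨s, hs⟩ := hne
          exact ⟨s, hs, by simp⟩
        | insert A F _ ih =>
          obtain ⟨s, hs, h2⟩ := ih fun B hB => hF B (Finset.mem_insert_of_mem hB)
          obtain ⟨j, t, ht, hj⟩ := hF A (Finset.mem_insert_self A F)
          rcases hch.total hs ht with h3 | h3
          · refine ⟨t, ht, fun B hB => ?_⟩
            rcases Finset.mem_insert.1 hB with rfl | hB
            · exact ⟨j, hj⟩
            · obtain ⟨k, hk⟩ := h2 B hB
              exact ⟨k, h3 hk⟩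
          · refine ⟨s, hs, fun B hB => ?_⟩
            rcases Finset.mem_insert.1 hB with rfl | hB
            · exact ⟨j, h3 hj⟩
            · exact h2 B hB
      obtain ⟨s, hs, h2⟩ := h1
      exact (hc hs).cov i F h2) ∅ ⟨by simp, by simp, by simp, by
        intro i F hF
        have : F = ∅ := by
          rw [Finset.eq_empty_iff_forall_notMem]
          intro A hA
          obtain ⟨j, hj⟩ := hF A hA
          exact hj
        subst this
        simpa using hS i⟩
  exact ⟨P, hP⟩

end

/-- Every uncountable family of infinite sets of natural numbers has an uncountable subfamily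
with an almost disjoint refinement. -/
theorem exists_ad_refinement {I : Type*} [Uncountable I] (S : I → Set ℕ)
    (hS : ∀ i, (S i).Infinite) : ∃ (J : Set I) (T : I → Set ℕ), ¬ J.Countable ∧
      (∀ j ∈ J, T j ⊆ S j ∧ (T j).Infinite) ∧
      ∀ j ∈ J, ∀ k ∈ J, j ≠ k → (T j ∩ T k).Finite := by
  classical
  obtain ⟨P, hP, hmax⟩ := exists_maximal_partRef hS
  by_cases hc : P.Countable
  · -- the countable case
    have h1 : ∃ i, i ∉ Prod.fst '' P := by
      by_contra h
      push Not at h
      have h2 : (Prod.fst '' P : Set I) = univ := eq_univ_of_forall h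
      have h3 := hc.image Prod.fst
      rw [h2] at h3
      exact not_countable_univ h3
    obtain ⟨i, hi⟩ := h1
    obtain ⟨S', hS'1, hS'2, hS'3⟩ := exists_subset_ad (S := S i) (P := Prod.snd '' P)
      (hc.image _) (by
        intro F hF
        apply hP.cov i F
        intro A hA
        obtain ⟨⟨j, B⟩, hx, rfl⟩ := hF A hA
        exact ⟨j, hx⟩)
    obtain ⟨A, hA1, hA2⟩ := exists_ad_below hS'2
    have h2 : ∀ x, ∃ (j : I) (F : Finset (Prod.snd '' P : Set (Set ℕ))),
        (S j \ ((⋃₀ ((F.image Subtype.val : Finset (Set ℕ)) : Set (Set ℕ))) ∪ A x)).Finite := by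
      intro x
      by_contra hcon
      push Not at hcon
      have h3 : PartRef S (insert (i, A x) P) := by
        refine ⟨?_, ?_, ?_, ?_⟩
        · rintro y (rfl | hy) z (rfl | hz) h
          · rfl
          · exact absurd ⟨z, hz, h.symm⟩ hi
          · exact absurd ⟨y, hy, h⟩ hi
          · exact hP.fn y hy z hz h
        · rintro y (rfl | hy)
          · exact ⟨(hA1 x).1.trans hS'1, (hA1 x).2⟩
          · exact hP.sub y hy
        · rintro y (rfl | hy) z (rfl | hz) h
          · exact absurd rfl h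
          · exact (hS'3 z.2 ⟨z, hz, rfl⟩).subset (inter_subset_inter_left _ (hA1 x).1)
          · rw [inter_comm]
            exact (hS'3 y.2 ⟨y, hy, rfl⟩).subset (inter_subset_inter_left _ (hA1 x).1)
          · exact hP.ad y hy z hz h
        · intro j F hF
          let G : Finset (Prod.snd '' P : Set (Set ℕ)) :=
            F.subtype (fun B => B ∈ Prod.snd '' P)
          refine Infinite.mono ?_ (hcon j G)
          rintro n ⟨hn1, hn2⟩
          refine ⟨hn1, ?_⟩
          rintro ⟨B, hB, hnB⟩
          apply hn2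
          obtain ⟨k, hk⟩ := hF B hB
          rcases hk with hk | hk
          · right
            rw [Prod.mk.injEq] at hk
            rw [← hk.2]
            exact hnB
          · left
            refine ⟨B, ?_, hnB⟩
            rw [Finset.mem_coe, Finset.mem_image]
            exact ⟨⟨B, ⟨(k, B), hk, rfl⟩⟩, Finset.mem_subtype.2 hB, rfl⟩
      have h4 := hmax h3 (subset_insert _ _) (mem_insert _ _)
      exact hi ⟨_, h4, rfl⟩
    choose j F hF using h2
    have hcs : Countable (Prod.snd '' P : Set (Set ℕ)) := (hc.image _).to_subtype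
    have h3 : ∃ F0, ¬ (F ⁻¹' {F0}).Countable := by
      by_contra h
      push Not at h
      have h4 : (univ : Set (ℕ → Bool)) = ⋃ F0, F ⁻¹' {F0} := by
        ext x
        simp
      have h5 : (univ : Set (ℕ → Bool)).Countable := by
        rw [h4]
        exact countable_iUnion h
      have h6 : Uncountable (ℕ → Bool) := by
        rw [← Cardinal.aleph0_lt_mk_iff]
        simpa using Cardinal.aleph0_lt_continuum
      exact not_countable_univ h5
    obtain ⟨F0, hF0⟩ := h3
    let D : I → Set ℕ := fun i =>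
      S i \ ⋃₀ ((F0.image Subtype.val : Finset (Set ℕ)) : Set (Set ℕ))
    have hD : ∀ i, (D i).Infinite := by
      intro i
      apply hP.cov i
      intro B hB
      obtain ⟨⟨_, ⟨k, B'⟩, hk, rfl⟩, -, rfl⟩ := Finset.mem_image.1 hB
      exact ⟨k, hk⟩
    have h7 : ∀ x ∈ F ⁻¹' {F0}, (D (j x) \ A x).Finite := by
      intro x hx
      have h8 := hF x
      rw [show F x = F0 from hx] at h8
      rwa [← sdiff_sdiff] at h8
    have h9 : ∀ x ∈ F ⁻¹' {F0}, ∀ y ∈ F ⁻¹' {F0}, x ≠ y → (D (j x) ∩ D (j y)).Finite := by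
      intro x hx y hy hxy
      refine (((h7 x hx).union (h7 y hy)).union (hA2 x y hxy)).subset ?_
      rintro n ⟨hn1, hn2⟩
      by_cases h10 : n ∈ A x
      · by_cases h11 : n ∈ A y
        · exact Or.inr ⟨h10, h11⟩
        · exact Or.inl (Or.inr ⟨hn2, h11⟩)
      · exact Or.inl (Or.inl ⟨hn1, h10⟩)
    have hinj : InjOn j (F ⁻¹' {F0}) := by
      intro x hx y hy hxy
      by_contra hne
      have := h9 x hx y hy hne
      rw [hxy, inter_self] at this
      exact hD (j y) this
    refine ⟨j '' (F ⁻¹' {F0}), D, ?_, ?_, ?_⟩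
    · intro h
      exact hF0 (countable_of_injective_of_countable_image hinj h)
    · rintro _ ⟨x, -, rfl⟩
      exact ⟨sdiff_subset, hD _⟩
    · rintro _ ⟨x, hx, rfl⟩ _ ⟨y, hy, rfl⟩ hxy
      exact h9 x hx y hy fun h => hxy (by rw [h])
  · have hfn : InjOn Prod.fst P := fun x hx y hy h => hP.fn x hx y hy h
    let T : I → Set ℕ := fun i => if h : ∃ A, (i, A) ∈ P then h.choose else ∅
    have hT : ∀ x ∈ P, T x.1 = x.2 := by
      intro x hx
      have h : ∃ A, (x.1, A) ∈ P := ⟨x.2, hx⟩
      simp only [T, dif_pos h]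
      exact congrArg Prod.snd (hP.fn _ h.choose_spec x hx rfl)
    refine ⟨Prod.fst '' P, T, fun h => hc (countable_of_injective_of_countable_image hfn h),
      ?_, ?_⟩
    · rintro _ ⟨x, hx, rfl⟩
      rw [hT x hx]
      exact hP.sub x hx
    · rintro _ ⟨x, hx, rfl⟩ _ ⟨y, hy, rfl⟩ hxy
      rw [hT x hx, hT y hy]
      exact hP.ad x hx y hy fun h => hxy (by rw [h])

end Pool.Agent.Work.MP_c629c8_al
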