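import Mathlib
import Pool.Agent.Work.MP_c629c8_al.ADRef
import Pool.Agent.Work.MP_c629c8_al.Family

/-!
# Colourings and the quotient by the constant functions

For a family `T` of almost disjoint sets of primes the quotient of the product of the groups
`⨁_{p ∈ T j} ℤ/p` by the subgroup of the functions that are constant at every prime is
semireflexive only if every colouring is uniform modulo finite sets.
-/

namespace Pool.Agent.Work.MP_c629c8_al

open Topology

lemma isCompact_insert_iUnion {Y ι : Type*} [TopologicalSpace Y] {K : ι → Set Y} {y : Y}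
    (hK : ∀ i, IsCompact (K i)) (h : ∀ W ∈ 𝓝 y, {i | ¬ K i ⊆ W}.Finite) :
    IsCompact (insert y (⋃ i, K i)) := by
  rw [isCompact_iff_ultrafilter_le_nhds]
  intro f hf
  by_cases hy : (f : Filter Y) ≤ 𝓝 y
  · exact ⟨y, Set.mem_insert _ _, hy⟩
  · obtain ⟨W, hW, hWf⟩ := Filter.not_le.1 hy
    have h1 : Wᶜ ∈ f := Ultrafilter.compl_mem_iff_notMem.2 hWf
    have h2 : (⋃ i ∈ {i | ¬ K i ⊆ W}, K i) ∈ f := by
      filter_upwards [h1, Filter.le_principal_iff.1 hf] with z hz1 hz2
      rcases hz2 with rfl | hz2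
      · exact absurd (mem_of_mem_nhds hW) hz1
      · obtain ⟨i, hi⟩ := Set.mem_iUnion.1 hz2
        exact Set.mem_biUnion (show ¬ K i ⊆ W from fun h3 => hz1 (h3 hi)) hi
    have h3 : IsCompact (⋃ i ∈ {i | ¬ K i ⊆ W}, K i) :=
      (h W hW).isCompact_biUnion fun i _ => hK i
    obtain ⟨x, hx, hfx⟩ := isCompact_iff_ultrafilter_le_nhds.1 h3 f (Filter.le_principal_iff.2 h2)
    refine ⟨x, ?_, hfx⟩
    obtain ⟨i, -, hi⟩ := Set.mem_iUnion₂.1 hx
    exact Set.mem_insert_of_mem _ (Set.mem_iUnion.2 ⟨i, hi⟩)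

/-- the direct sum of the groups `ℤ/p`, `p ∈ S` -/
abbrev Sock (S : Set ℕ) : Type := Π₀ p : S, ZMod p

instance (S : Set ℕ) : TopologicalSpace (Sock S) := ⊥

instance (S : Set ℕ) : DiscreteTopology (Sock S) := ⟨rfl⟩

namespace Sock

open Classical in
/-- the components -/
noncomputable def ev (S : Set ℕ) (p : ℕ) : Sock S →+ ZMod p :=
  if h : p ∈ S then (DFinsupp.evalAddMonoidHom (⟨p, h⟩ : S) : (Π₀ p : S, ZMod p) →+ _) else 0

open Classical in
/-- the inclusions -/
noncomputable def sg (S : Set ℕ) (p : ℕ) : ZMod p →+ Sock S :=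
  if h : p ∈ S then (DFinsupp.singleAddHom (fun p : S => ZMod p) (⟨p, h⟩ : S)) else 0

variable {S : Set ℕ} {p q : ℕ}

lemma ev_sg_same (h : p ∈ S) (t : ZMod p) : ev S p (sg S p t) = t := by
  classical
  unfold ev sg
  rw [dif_pos h, dif_pos h]
  exact DFinsupp.single_eq_same

lemma sg_of_notMem (h : p ∉ S) (t : ZMod p) : sg S p t = 0 := by
  unfold sg
  rw [dif_neg h]
  rfl

lemma ev_sg_ne (h : q ≠ p) (t : ZMod q) : ev S p (sg S q t) = 0 := by
  classical
  unfold ev sg
  by_cases hp : p ∈ S
  · by_cases hq : q ∈ S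
    · rw [dif_pos hp, dif_pos hq]
      have h1 : (⟨p, hp⟩ : S) ≠ ⟨q, hq⟩ := fun h2 => h (Subtype.mk.inj h2).symm
      exact DFinsupp.single_eq_of_ne h1
    · rw [dif_neg hq]
      exact map_zero _
  · rw [dif_neg hp]
    rfl

lemma finite_ev (b : Sock S) : {p | ev S p b ≠ 0}.Finite := by
  classical
  have h1 : {p | ev S p b ≠ 0} ⊆ Subtype.val '' ((DFinsupp.support (b : Π₀ p : S, ZMod p) :
      Finset S) : Set S) := by
    intro p hp
    by_cases h : p ∈ S
    · refine ⟨⟨p, h⟩, ?_, rfl⟩
      rw [Finset.mem_coe, DFinsupp.mem_support_iff]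
      intro h0
      apply hp
      unfold ev
      rw [dif_pos h]
      exact h0
    · exfalso
      apply hp
      unfold ev
      rw [dif_neg h]
      rfl
  exact ((Finset.finite_toSet _).image _).subset h1

lemma hom_ext {A : Type*} [AddCommGroup A] {f g : Sock S →+ A}
    (h : ∀ p ∈ S, ∀ t, f (sg S p t) = g (sg S p t)) : f = g := by
  classical
  have : (f : (Π₀ p : S, ZMod p) →+ A) = g := by
    apply DFinsupp.addHom_ext
    rintro ⟨p, hp⟩ t
    have h1 := h p hp t
    unfold sg at h1
    rw [dif_pos hp] at h1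
    exact h1
  exact this

end Sock

section

variable {J : Type*} (T : J → Set ℕ)

/-- the functions that are constant at every prime -/
noncomputable def constSub : AddSubgroup (∀ j, Sock (T j)) where
  carrier := {c | ∀ j k p, p ∈ T j → p ∈ T k → Sock.ev (T j) p (c j) = Sock.ev (T k) p (c k)}
  zero_mem' := fun j k p _ _ => by simp
  add_mem' := fun {c d} hc hd j k p hj hk => by
    simp only [Pi.add_apply, map_add]
    rw [hc j k p hj hk, hd j k p hj hk]
  neg_mem' := fun {c} hc j k p hj hk => by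
    simp only [Pi.neg_apply, map_neg]
    rw [hc j k p hj hk]

lemma mem_constSub {c : ∀ j, Sock (T j)} : c ∈ constSub T ↔
    ∀ j k p, p ∈ T j → p ∈ T k → Sock.ev (T j) p (c j) = Sock.ev (T k) p (c k) := Iff.rfl

lemma isClosed_constSub : IsClosed (constSub T : Set (∀ j, Sock (T j))) := by
  have h1 : (constSub T : Set (∀ j, Sock (T j))) = {c | ∀ j k p, p ∈ T j → p ∈ T k →
      Sock.ev (T j) p (c j) = Sock.ev (T k) p (c k)} := rfl
  rw [h1]
  simp only [Set.ofPred_forall]
  refine isClosed_iInter fun j => isClosed_iInter fun k => isClosed_iInter fun p =>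
    isClosed_iInter fun _ => isClosed_iInter fun _ => ?_
  exact isClosed_eq ((continuous_of_discreteTopology (f := Sock.ev (T j) p)).comp
    (continuous_apply j)) ((continuous_of_discreteTopology (f := Sock.ev (T k) p)).comp
    (continuous_apply k))

/-- the functions at one prime -/
noncomputable def atPrime (p : ℕ) : (J → ZMod p) →+ ∀ j, Sock (T j) where
  toFun v j := Sock.sg (T j) p (v j)
  map_zero' := funext fun j => map_zero (Sock.sg (T j) p)
  map_add' v w := funext fun j => map_add (Sock.sg (T j) p) (v j) (w j)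

lemma atPrime_apply (p : ℕ) (v : J → ZMod p) (j : J) :
    atPrime T p v j = Sock.sg (T j) p (v j) := rfl

lemma continuous_atPrime (p : ℕ) : Continuous (atPrime T p) :=
  continuous_pi fun j => (continuous_of_discreteTopology (f := Sock.sg (T j) p)).comp
    (continuous_apply j)

/-- the functions at one prime in the quotient -/
noncomputable def qAt (p : ℕ) : (J → ZMod p) →+ (∀ j, Sock (T j)) ⧸ constSub T :=
  (QuotientAddGroup.mk' (constSub T)).comp (atPrime T p)

lemma continuous_qAt (p : ℕ) : Continuous (qAt T p) :=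
  (continuous_quot_mk (r := QuotientAddGroup.leftRel (constSub T))).comp (continuous_atPrime T p)

variable {T} (hT : ∀ j, ∀ p ∈ T j, p.Prime)
  (hTT : ∀ j k, j ≠ k → (T j ∩ T k).Finite)

include hT in
lemma isCompact_range_qAt (p : ℕ) : IsCompact (Set.range (qAt T p)) := by
  rcases Nat.eq_zero_or_pos p with rfl | hp
  · have h1 : Set.range (qAt T 0) = {0} := by
      ext y
      constructor
      · rintro ⟨v, rfl⟩
        have h2 : atPrime T 0 v = 0 := by
          funext j
          rw [atPrime_apply]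
          exact Sock.sg_of_notMem (fun h => Nat.not_prime_zero (hT j 0 h)) _
        show QuotientAddGroup.mk (atPrime T 0 v) = (0 : (∀ j, Sock (T j)) ⧸ constSub T)
        rw [h2]
        rfl
      · intro h
        exact ⟨0, by rw [map_zero]; exact h.symm⟩
    rw [h1]
    exact isCompact_singleton
  · have : NeZero p := ⟨hp.ne'⟩
    exact isCompact_range (continuous_qAt T p)

include hTT in
lemma qAt_small {W : Set ((∀ j, Sock (T j)) ⧸ constSub T)} (hW : W ∈ 𝓝 0) :
    {p | ¬ Set.range (qAt T p) ⊆ W}.Finite := by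
  classical
  have h1 : (QuotientAddGroup.mk : (∀ j, Sock (T j)) → (∀ j, Sock (T j)) ⧸ constSub T) ⁻¹' W ∈
      𝓝 (0 : ∀ j, Sock (T j)) :=
    (continuous_quot_mk (r := QuotientAddGroup.leftRel (constSub T))).continuousAt.preimage_mem_nhds
      hW
  obtain ⟨F, hF⟩ := exists_coordOpen_sub h1
  have h2 : (⋃ x ∈ ((F ×ˢ F : Finset (J × J)) : Set (J × J)) ∩ {x | x.1 ≠ x.2},
      T x.1 ∩ T x.2).Finite := by
    apply Set.Finite.biUnion ((Finset.finite_toSet _).inter_of_left _)
    rintro ⟨j, k⟩ ⟨-, h⟩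
    exact hTT j k h
  refine h2.subset ?_
  intro p hp
  by_contra hcon
  apply hp
  rintro _ ⟨v, rfl⟩
  have h3 : ∀ j ∈ F, ∀ k ∈ F, p ∈ T j → p ∈ T k → j = k := by
    intro j hj k hk hpj hpk
    by_contra hne
    apply hcon
    simp only [Set.mem_iUnion]
    exact ⟨(j, k), ⟨by simp [hj, hk], hne⟩, hpj, hpk⟩
  let c : ZMod p := if h : ∃ j ∈ F, p ∈ T j then v h.choose else 0
  have h4 : atPrime T p (fun _ => c) ∈ constSub T := by
    intro j k q hj hk
    rw [atPrime_apply, atPrime_apply]
    by_cases hq : p = q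
    · subst hq
      rw [Sock.ev_sg_same hj, Sock.ev_sg_same hk]
    · rw [Sock.ev_sg_ne hq, Sock.ev_sg_ne hq]
  have h5 : atPrime T p v - atPrime T p (fun _ => c) ∈ coordOpen (fun j => Sock (T j)) F := by
    intro j hj
    rw [Pi.sub_apply, atPrime_apply, atPrime_apply, sub_eq_zero]
    by_cases hpj : p ∈ T j
    · have h6 : ∃ j ∈ F, p ∈ T j := ⟨j, hj, hpj⟩
      have h7 : h6.choose = j := h3 _ h6.choose_spec.1 _ hj h6.choose_spec.2 hpj
      have h8 : c = v j := by
        simp only [c, dif_pos h6]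
        rw [h7]
      rw [h8]
    · rw [Sock.sg_of_notMem hpj, Sock.sg_of_notMem hpj]
  have h6 : qAt T p v = QuotientAddGroup.mk (atPrime T p v - atPrime T p (fun _ => c)) := by
    have h7 : (QuotientAddGroup.mk (atPrime T p (fun _ => c)) :
        (∀ j, Sock (T j)) ⧸ constSub T) = 0 := by
      rwa [QuotientAddGroup.eq_zero_iff]
    have h8 : (QuotientAddGroup.mk (atPrime T p v - atPrime T p (fun _ => c)) :
        (∀ j, Sock (T j)) ⧸ constSub T) =
        QuotientAddGroup.mk (atPrime T p v) - QuotientAddGroup.mk (atPrime T p (fun _ => c)) := rfl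
    rw [h8, h7, sub_zero]
    rfl
  rw [h6]
  exact hF h5

lemma char_ball_mem (χ : Dual ((∀ j, Sock (T j)) ⧸ constSub T)) :
    χ ⁻¹' Metric.ball 0 (1 / 4) ∈ 𝓝 (0 : (∀ j, Sock (T j)) ⧸ constSub T) := by
  apply χ.continuous_toFun.continuousAt.preimage_mem_nhds
  have : (χ.toFun 0 : UnitAddCircle) = 0 := map_zero χ
  rw [this]
  exact Metric.ball_mem_nhds _ (by norm_num)

lemma char_qAt_eq_zero {χ : Dual ((∀ j, Sock (T j)) ⧸ constSub T)} {p : ℕ}
    (h : ∀ v, χ (qAt T p v) ∈ Metric.ball (0 : UnitAddCircle) (1 / 4)) (v : J → ZMod p) :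
    χ (qAt T p v) = 0 := by
  refine eq_zero_of_small fun n => ?_
  have h1 := h (n • v)
  rw [map_nsmul, map_nsmul, mem_ball_zero_iff] at h1
  exact h1

include hTT in
lemma finite_char_qAt (χ : Dual ((∀ j, Sock (T j)) ⧸ constSub T)) :
    {p | ∃ v, χ (qAt T p v) ≠ 0}.Finite := by
  refine (qAt_small hTT (char_ball_mem χ)).subset ?_
  rintro p ⟨v, hv⟩ hsub
  exact hv (char_qAt_eq_zero (fun w => hsub ⟨w, rfl⟩) v)

lemma char_eq_zero {χ : Dual ((∀ j, Sock (T j)) ⧸ constSub T)}
    (h : ∀ p v, χ (qAt T p v) = 0) : χ = 0 := by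
  classical
  let θ : Dual (∀ j, Sock (T j)) := χ.comp ⟨QuotientAddGroup.mk' (constSub T), continuous_quot_mk⟩
  have hθ : ∀ x, θ x = χ (QuotientAddGroup.mk x) := fun x => rfl
  have h0 : ∀ x, θ x = 0 := by
    intro x
    obtain ⟨V, hV⟩ := exists_open_ker θ
    obtain ⟨F, hF⟩ := exists_coordOpen_le V
    have h2 : x - ∑ i ∈ F, Pi.single i (x i) ∈ V := by
      apply hF
      intro i hi
      rw [Pi.sub_apply, Finset.sum_apply, Finset.sum_eq_single i, Pi.single_eq_same, sub_self]
      · intro j _ hj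
        rw [Pi.single_eq_of_ne hj.symm]
      · exact fun h => absurd hi h
    have h3 := hV _ h2
    rw [map_sub, sub_eq_zero, map_sum] at h3
    rw [h3]
    refine Finset.sum_eq_zero fun j _ => ?_
    have h4 : (θ.toAddMonoidHom.comp (AddMonoidHom.single (fun j => Sock (T j)) j)) = 0 := by
      apply Sock.hom_ext
      intro p hp t
      show θ (Pi.single j (Sock.sg (T j) p t)) = 0
      have h5 : (Pi.single j (Sock.sg (T j) p t) : ∀ j, Sock (T j)) =
          atPrime T p (Pi.single j t) := by
        funext k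
        rw [atPrime_apply]
        by_cases hk : k = j
        · subst hk
          rw [Pi.single_eq_same, Pi.single_eq_same]
        · rw [Pi.single_eq_of_ne hk, Pi.single_eq_of_ne hk, map_zero]
      rw [h5]
      exact h p _
    exact DFunLike.congr_fun h4 (x j)
  ext y
  obtain ⟨x, rfl⟩ := QuotientAddGroup.mk_surjective y
  exact h0 x

include hT hTT

lemma nhds_zero_dual : ({0} : Set (Dual ((∀ j, Sock (T j)) ⧸ constSub T))) ∈ 𝓝 0 := by
  have hK : IsCompact (insert 0 (⋃ p, Set.range (qAt T p))) :=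
    isCompact_insert_iUnion (isCompact_range_qAt hT) fun W hW => qAt_small hTT hW
  have hO : IsOpen {χ : Dual ((∀ j, Sock (T j)) ⧸ constSub T) |
      Set.MapsTo χ (insert 0 (⋃ p, Set.range (qAt T p))) (Metric.ball 0 (1 / 4))} :=
    isOpen_induced (ContinuousMap.isOpen_setOfPred_mapsTo hK Metric.isOpen_ball)
  have h0 : (0 : Dual ((∀ j, Sock (T j)) ⧸ constSub T)) ∈
      {χ : Dual ((∀ j, Sock (T j)) ⧸ constSub T) |
        Set.MapsTo χ (insert 0 (⋃ p, Set.range (qAt T p))) (Metric.ball 0 (1 / 4))} := by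
    intro x _
    exact Metric.mem_ball_self (by norm_num)
  refine Filter.mem_of_superset (hO.mem_nhds h0) ?_
  intro χ hχ
  refine char_eq_zero fun p v => char_qAt_eq_zero (fun w => ?_) v
  exact hχ (Set.mem_insert_of_mem _ (Set.mem_iUnion.2 ⟨p, w, rfl⟩))

/-- the sum of the values at all the primes, as a homomorphism -/
noncomputable def colHom (f : ∀ p : ℕ, J → ZMod p) :
    Dual ((∀ j, Sock (T j)) ⧸ constSub T) →+ UnitAddCircle where
  toFun χ := ∑ᶠ p, χ (qAt T p (f p))
  map_zero' := by
    show ∑ᶠ _ : ℕ, (0 : UnitAddCircle) = 0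
    exact finsum_zero
  map_add' χ χ' := by
    show ∑ᶠ p, (χ (qAt T p (f p)) + χ' (qAt T p (f p))) = _
    apply finsum_add_distrib
    · exact (finite_char_qAt hTT χ).subset fun p hp => ⟨f p, hp⟩
    · exact (finite_char_qAt hTT χ').subset fun p hp => ⟨f p, hp⟩

/-- the same, as a character of the dual group -/
noncomputable def colChar (f : ∀ p : ℕ, J → ZMod p) :
    Dual (Dual ((∀ j, Sock (T j)) ⧸ constSub T)) where
  toAddMonoidHom := colHom hTT f
  continuous_toFun := by
    show Continuous (colHom hTT f)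
    apply continuous_of_continuousAt_zero (colHom hTT f)
    rw [ContinuousAt, map_zero]
    refine tendsto_nhds_of_eventually_eq ?_
    filter_upwards [nhds_zero_dual hT hTT] with χ hχ
    have : χ = 0 := hχ
    rw [this, map_zero]

lemma colChar_apply (f : ∀ p : ℕ, J → ZMod p) (χ : Dual ((∀ j, Sock (T j)) ⧸ constSub T)) :
    colChar hT hTT f χ = ∑ᶠ p, χ (qAt T p (f p)) := rfl

/-- if the quotient is semireflexive then every colouring is uniform modulo finite sets -/
theorem exists_unif (hs : Function.Surjective (eta ((∀ j, Sock (T j)) ⧸ constSub T)))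
    (f : ∀ p : ℕ, J → ZMod p) : ∃ h : ∀ p : ℕ, ZMod p, ∀ j, {p ∈ T j | f p j ≠ h p}.Finite := by
  classical
  obtain ⟨y, hy⟩ := hs (colChar hT hTT f)
  obtain ⟨x, rfl⟩ := QuotientAddGroup.mk_surjective y
  have key : ∀ j k p, p ∈ T j → p ∈ T k →
      Sock.ev (T j) p (x j) - Sock.ev (T k) p (x k) = f p j - f p k := by
    intro j k p hj hk
    by_contra hne
    rw [← sub_eq_zero] at hne
    obtain ⟨θ, hθ⟩ := exists_char_ne_zero hne
    let Θ : Dual (∀ j, Sock (T j)) :=
      { toFun := fun c => θ (Sock.ev (T j) p (c j) - Sock.ev (T k) p (c k))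
        map_zero' := by simp
        map_add' := fun c d => by
          rw [← map_add]
          congr 1
          simp only [Pi.add_apply, map_add]
          abel
        continuous_toFun := by
          apply (continuous_of_discreteTopology (f := θ)).comp
          exact ((continuous_of_discreteTopology (f := Sock.ev (T j) p)).comp
            (continuous_apply j)).sub ((continuous_of_discreteTopology (f := Sock.ev (T k) p)).comp
            (continuous_apply k)) }
    have hΘ : ∀ c, Θ c = θ (Sock.ev (T j) p (c j) - Sock.ev (T k) p (c k)) := fun c => rfl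
    let χ : Dual ((∀ j, Sock (T j)) ⧸ constSub T) :=
      ⟨QuotientAddGroup.lift (constSub T) Θ.toAddMonoidHom (by
        intro c hc
        show Θ c = 0
        rw [hΘ, hc j k p hj hk, sub_self, map_zero]), by
        apply continuous_quot_lift _ Θ.continuous_toFun⟩
    have hχ : ∀ c : (∀ j, Sock (T j)), χ (QuotientAddGroup.mk c) = Θ c := fun c => rfl
    have h1 := DFunLike.congr_fun hy χ
    rw [eta_apply, hχ, hΘ, colChar_apply, finsum_eq_single _ p] at h1
    · have h2 : χ (qAt T p (f p)) = θ (f p j - f p k) := by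
        show Θ (atPrime T p (f p)) = _
        rw [hΘ, atPrime_apply, atPrime_apply, Sock.ev_sg_same hj, Sock.ev_sg_same hk]
      rw [h2] at h1
      apply hθ
      rw [map_sub, h1, sub_self]
    · intro q hq
      show Θ (atPrime T q (f q)) = 0
      rw [hΘ, atPrime_apply, atPrime_apply, Sock.ev_sg_ne hq, Sock.ev_sg_ne hq, sub_self, map_zero]
  refine ⟨fun p => if h : ∃ j, p ∈ T j then f p h.choose - Sock.ev (T h.choose) p (x h.choose)
    else 0, fun j => ?_⟩
  refine (Sock.finite_ev (x j)).subset ?_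
  rintro p ⟨hp, hne⟩ h0
  apply hne
  have h1 : ∃ j, p ∈ T j := ⟨j, hp⟩
  beta_reduce
  rw [dif_pos h1]
  have h2 := key j h1.choose p hp h1.choose_spec
  rw [h0, zero_sub] at h2
  rw [sub_eq_add_neg, h2]
  abel

/-- the number of colourings -/
theorem exists_injective_of_surjective (hTi : ∀ j, (T j).Infinite)
    (hs : Function.Surjective (eta ((∀ j, Sock (T j)) ⧸ constSub T))) :
    ∃ g : Set J → Set ℕ, Function.Injective g := by
  classical
  choose h hh using fun E : Set J => exists_unif hT hTT hs (fun p j => if j ∈ E then 1 else 0)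
  have key : ∀ E E' : Set J, {p | h E p = 1} = {p | h E' p = 1} → E ⊆ E' := by
    intro E E' heq j hj
    by_contra hj'
    apply hTi j
    refine ((hh E j).union (hh E' j)).subset ?_
    intro p hp
    by_cases h1 : h E p = 1
    · right
      refine ⟨hp, ?_⟩
      have h2 : h E' p = 1 := by
        have : p ∈ {p | h E p = 1} := h1
        rw [heq] at this
        exact this
      rw [if_neg hj', h2]
      have : Fact p.Prime := ⟨hT j p hp⟩
      exact zero_ne_one
    · left
      refine ⟨hp, ?_⟩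
      rw [if_pos hj]
      exact fun h2 => h1 h2.symm
  exact ⟨fun E => {p | h E p = 1}, fun E E' heq =>
    Set.Subset.antisymm (key E E' heq) (key E' E heq.symm)⟩

end

end Pool.Agent.Work.MP_c629c8_al
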