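import Mathlib
import Pool.Agent.Work.MP_c629c8_al.Unif
import Pool.Agent.Work.MP_c629c8_al.Main

/-!
# Products when there are fewer subsets of `ℕ` than subsets of `ω₁`
-/

universe u v

namespace Pool.Agent.Work.MP_c629c8_al

open Topology

section embedding

/-- a group with elements of the orders `p ∈ S` contains the direct sum of the `ℤ/p` -/
lemma exists_sock_embedding {D : Type*} [AddCommGroup D] {S : Set ℕ}
    (hS : ∀ p ∈ S, p.Prime ∧ ∃ x : D, x ≠ 0 ∧ p • x = 0) :
    ∃ φ : Sock S →+ D, Function.Injective φ := by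
  classical
  choose hp x hx0 hx using fun p : S => hS p p.2
  let g : ∀ p : S, ZMod p →+ D := fun p => ZMod.lift p ⟨zmultiplesHom D (x p), by
    rw [zmultiplesHom_apply, natCast_zsmul]
    exact hx p⟩
  have hg : ∀ p : S, ∀ a : ZMod p, g p a = 0 → a = 0 := by
    intro p a ha
    have : NeZero (p : ℕ) := ⟨(hp p).ne_zero⟩
    by_contra hne
    have h1 : g p a = a.val • x p := by
      conv_lhs => rw [← ZMod.natCast_zmod_val a]
      have h2 : g p ((a.val : ℕ) : ZMod p) = g p (((a.val : ℕ) : ℤ) : ZMod p) := by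
        rw [Int.cast_natCast]
      rw [h2]
      show ZMod.lift p _ _ = _
      rw [ZMod.lift_coe]
      show zmultiplesHom D (x p) _ = _
      rw [zmultiplesHom_apply, natCast_zsmul]
    rw [h1] at ha
    have h2 := addOrderOf_dvd_of_nsmul_eq_zero ha
    have h3 := addOrderOf_dvd_of_nsmul_eq_zero (hx p)
    have h4 : addOrderOf (x p) = p := by
      rcases (Nat.dvd_prime (hp p)).1 h3 with h | h
      · exact absurd (AddMonoid.addOrderOf_eq_one_iff.1 h) (hx0 p)
      · exact h
    rw [h4] at h2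
    have h5 : a.val ≠ 0 := by
      rw [Ne, ZMod.val_eq_zero]
      exact hne
    exact absurd (Nat.le_of_dvd (Nat.pos_of_ne_zero h5) h2) (not_le.2 (ZMod.val_lt a))
  refine ⟨DFinsupp.liftAddHom g, ?_⟩
  rw [injective_iff_map_eq_zero]
  intro b hb
  rw [DFinsupp.liftAddHom_apply, DFinsupp.sumAddHom_apply] at hb
  ext p
  apply hg p
  by_cases hpb : p ∈ b.support
  · have h1 : (∏ q ∈ b.support.erase p, (q : ℕ)) • g p (b p) = 0 := by
      have h2 : (∏ q ∈ b.support.erase p, (q : ℕ)) • (b.sum fun i x => g i x) = 0 := by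
        rw [hb, nsmul_zero]
      rw [DFinsupp.sum, ← Finset.add_sum_erase _ _ hpb, nsmul_add, Finset.smul_sum] at h2
      rw [Finset.sum_eq_zero, add_zero] at h2
      · exact h2
      · intro q hq
        obtain ⟨c, hc⟩ := Finset.dvd_prod_of_mem (fun q : S => (q : ℕ)) hq
        rw [hc, mul_nsmul, ← map_nsmul]
        have h3 : (q : ℕ) • b q = 0 := by
          rw [nsmul_eq_mul, ZMod.natCast_self, zero_mul]
        rw [h3, map_zero, nsmul_zero]
    have h2 : (p : ℕ) • g p (b p) = 0 := by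
      rw [← map_nsmul]
      have h3 : (p : ℕ) • b p = 0 := by
        rw [nsmul_eq_mul, ZMod.natCast_self, zero_mul]
      rw [h3, map_zero]
    have h3 := addOrderOf_dvd_of_nsmul_eq_zero h1
    have h4 := addOrderOf_dvd_of_nsmul_eq_zero h2
    have h5 : Nat.Coprime (∏ q ∈ b.support.erase p, (q : ℕ)) p := by
      apply Nat.Coprime.prod_left
      intro q hq
      rw [Nat.coprime_primes (hp q) (hp p)]
      intro h6
      exact (Finset.mem_erase.1 hq).1 (Subtype.ext h6)
    have h6 : addOrderOf (g p (b p)) = 1 := Nat.eq_one_of_dvd_coprimes h5 h3 h4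
    exact AddMonoid.addOrderOf_eq_one_iff.1 h6
  · rw [DFinsupp.notMem_support_iff] at hpb
    rw [hpb, map_zero]

variable {J : Type*} {B Q : J → Type*} [∀ i, AddCommGroup (B i)] [∀ i, TopologicalSpace (B i)]
  [∀ i, DiscreteTopology (B i)] [∀ i, AddCommGroup (Q i)] [∀ i, TopologicalSpace (Q i)]
  [∀ i, DiscreteTopology (Q i)]

/-- products of discrete groups in which the `B i` embed -/
lemma bad_of_discrete_family (h : Bad (∀ i, B i)) (φ : ∀ i, B i →+ Q i)
    (hφ : ∀ i, Function.Injective (φ i)) : Bad (∀ i, Q i) := by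
  classical
  let f : (∀ i, B i) →ₜ+ (∀ i, Q i) :=
    { toFun := fun x i => φ i (x i)
      map_zero' := funext fun i => map_zero (φ i)
      map_add' := fun x y => funext fun i => map_add (φ i) (x i) (y i)
      continuous_toFun := continuous_pi fun i =>
        (continuous_of_discreteTopology (f := φ i)).comp (continuous_apply i) }
  have hf : ∀ x i, f x i = φ i (x i) := fun x i => rfl
  refine h.of_embedding f ?_ ?_ ?_
  · intro x y hxy
    funext i
    apply hφ i
    rw [← hf, ← hf, hxy]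
  · intro x hx
    have h1 : ∀ i, ∃ d, φ i d = x i := by
      intro i
      by_contra hcon
      have h2 : x i ∉ (⟨(φ i).range, isOpen_discrete _⟩ : OpenAddSubgroup (Q i)) := by
        rintro ⟨d, hd⟩
        exact hcon ⟨d, hd⟩
      obtain ⟨χ, hχ1, hχ2⟩ := exists_dual_ne_zero _ h2
      let Θ : Dual (∀ i, Q i) := χ.comp ⟨Pi.evalAddMonoidHom Q i, continuous_apply i⟩
      have hΘ : ∀ y, Θ y = χ (y i) := fun y => rfl
      apply hχ2
      rw [← hΘ]
      apply hx Θ
      intro y
      rw [hΘ]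
      exact hχ1 _ ⟨y i, rfl⟩
    choose d hd using h1
    exact ⟨d, funext fun i => hd i⟩
  · intro θ
    obtain ⟨V, hV⟩ := exists_open_ker θ
    obtain ⟨F, hF⟩ := exists_coordOpen_le V
    let θc : ∀ i, B i →+ UnitAddCircle := fun i => θ.toAddMonoidHom.comp (AddMonoidHom.single B i)
    have h1 : ∀ i, ∃ h : Q i →+ UnitAddCircle, ∀ d, h (φ i d) = θc i d := fun i =>
      exists_extension (φ i) (hφ i) (θc i)
    choose g hg using h1
    let χ : Dual (∀ i, Q i) :=
      { toFun := fun y => ∑ i ∈ F, g i (y i)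
        map_zero' := by simp
        map_add' := fun y z => by simp [Finset.sum_add_distrib]
        continuous_toFun := continuous_finsetSum _ fun i _ =>
          (continuous_of_discreteTopology (f := g i)).comp (continuous_apply i) }
    refine ⟨χ, fun y => ?_⟩
    show ∑ i ∈ F, g i (φ i (y i)) = θ y
    have h2 : y - ∑ i ∈ F, Pi.single i (y i) ∈ V := by
      apply hF
      intro i hi
      rw [Pi.sub_apply, Finset.sum_apply, Finset.sum_eq_single i, Pi.single_eq_same, sub_self]
      · intro j _ hj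
        rw [Pi.single_eq_of_ne hj.symm]
      · exact fun h => absurd hi h
    have h3 := hV _ h2
    rw [map_sub, sub_eq_zero, map_sum] at h3
    rw [h3]
    exact Finset.sum_congr rfl fun i _ => hg i _

end embedding

section weakCH

open Cardinal

/-- Under `2 ^ ℵ₀ < 2 ^ ℵ₁`: uncountably many groups with infinitely many orders each. -/
lemma bad_of_primes (hCH : (2 : Cardinal.{0}) ^ ℵ₀ < 2 ^ ℵ₁) {J : Type u} [Uncountable J]
    {T : J → Set ℕ} (hT : ∀ j, ∀ p ∈ T j, p.Prime) (hTT : ∀ j k, j ≠ k → (T j ∩ T k).Finite)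
    (hTi : ∀ j, (T j).Infinite) : Bad (∀ j, Sock (T j)) := by
  refine ⟨constSub T, isClosed_constSub T, fun hs => ?_⟩
  obtain ⟨g, hg⟩ := exists_injective_of_surjective hT hTT hTi hs
  have h1 : Cardinal.lift.{0} #(Set J) ≤ Cardinal.lift.{u} #(Set ℕ) :=
    Cardinal.lift_mk_le'.2 ⟨⟨g, hg⟩⟩
  have h2 : ℵ₁ ≤ #J := by
    rw [aleph_one_le_iff]
    exact aleph0_lt_mk_iff.2 inferInstance
  have h3 : (2 : Cardinal.{u}) ^ (ℵ₁ : Cardinal.{u}) ≤ 2 ^ (ℵ₀ : Cardinal.{u}) := by
    calc (2 : Cardinal.{u}) ^ (ℵ₁ : Cardinal.{u}) ≤ 2 ^ #J :=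
          Cardinal.power_le_power_left two_ne_zero h2
      _ ≤ 2 ^ (ℵ₀ : Cardinal.{u}) := by simpa using h1
  have h4 := Cardinal.lift_lt.{0, u}.2 hCH
  rw [Cardinal.lift_power, Cardinal.lift_power] at h4
  simp only [Cardinal.lift_ofNat, Cardinal.lift_aleph0, Cardinal.lift_aleph,
    Ordinal.lift_one] at h4
  exact absurd h3 (not_le.2 h4)

variable {I : Type u} {X : I → Type v} [∀ i, AddCommGroup (X i)] [∀ i, TopologicalSpace (X i)]
  [∀ i, IsTopologicalAddGroup (X i)]

/-- Under `2 ^ ℵ₀ < 2 ^ ℵ₁` a strongly reflexive product has only countably many factors with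
discrete quotients that are not Artinian. -/
theorem countable_of_weakCH (hCH : (2 : Cardinal.{0}) ^ ℵ₀ < 2 ^ ℵ₁)
    (hs : StronglyReflexive (∀ i, X i)) : {i | ¬ ArtinianQuotients (X i)}.Countable := by
  by_contra hcon
  have h1 := countable_torsion hs
  set K : Set I := {i | ¬ ArtinianQuotients (X i)} \ {i | ¬ ∀ N : AddSubgroup (X i),
    IsOpen (N : Set (X i)) → (∀ x : X i ⧸ N, ∃ n : ℕ, 0 < n ∧ n • x = 0) ∧
      ∀ p : ℕ, p.Prime → {x : X i ⧸ N | p • x = 0}.Finite} with hK
  have h2 : ¬ K.Countable := by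
    intro h
    apply hcon
    refine (h.union h1).mono ?_
    intro i hi
    by_cases h3 : i ∈ {i | ¬ ∀ N : AddSubgroup (X i),
        IsOpen (N : Set (X i)) → (∀ x : X i ⧸ N, ∃ n : ℕ, 0 < n ∧ n • x = 0) ∧
        ∀ p : ℕ, p.Prime → {x : X i ⧸ N | p • x = 0}.Finite}
    · exact Or.inr h3
    · exact Or.inl ⟨hi, h3⟩
  have hKu : Uncountable K := by
    rw [← not_countable_iff]
    intro h
    exact h2 (Set.countable_coe_iff.1 h)
  -- the quotients
  have h3 : ∀ i : K, ∃ N : OpenAddSubgroup (X i),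
      {p : ℕ | p.Prime ∧ ∃ x : X i ⧸ (N : AddSubgroup (X i)), x ≠ 0 ∧ p • x = 0}.Infinite := by
    rintro ⟨i, hi1, hi2⟩
    have hi3 : ¬ ArtinianQuotients (X i) := hi1
    unfold ArtinianQuotients at hi3
    push Not at hi3
    obtain ⟨N, hN, hNA⟩ := hi3
    have hi4 := not_not.1 hi2 N hN
    refine ⟨⟨N, hN⟩, fun hfin => hNA ?_⟩
    exact isArtinian_of_finite_primes hi4.1 hfin hi4.2
  choose N hN using h3
  obtain ⟨J, T, hJ, hJ1, hJ2⟩ := exists_ad_refinement _ hN
  have hJu : Uncountable J := by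
    rw [← not_countable_iff]
    intro h
    exact hJ (Set.countable_coe_iff.1 h)
  -- the subset of `I`
  let J' : Set I := Subtype.val '' J
  have hJ' : ∀ i : J', ∃ h : (i : I) ∈ K, (⟨i, h⟩ : K) ∈ J := by
    rintro ⟨_, ⟨⟨i, hi⟩, hiJ, rfl⟩⟩
    exact ⟨hi, hiJ⟩
  choose hJK hJJ using hJ'
  let e : J' → K := fun i => ⟨i, hJK i⟩
  have he : ∀ i : J', ((e i : K) : I) = i := fun i => rfl
  have heJ : ∀ i, e i ∈ J := hJJ
  have hei : Function.Injective e := fun i j h => Subtype.ext (congrArg (fun x : K => (x : I)) h)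
  have hJ'u : Uncountable J' := by
    rw [← not_countable_iff]
    intro h
    apply hJ
    exact Set.countable_of_injective_of_countable_image Subtype.val_injective.injOn
      (Set.countable_coe_iff.1 h)
  have hb : Bad (∀ i : J', Sock (T (e i))) :=
    bad_of_primes hCH (T := fun i => T (e i))
      (fun i p hp => ((hJ1 _ (heJ i)).1 hp).1)
      (fun i j hij => hJ2 _ (heJ i) _ (heJ j) fun h => hij (hei h))
      (fun i => (hJ1 _ (heJ i)).2)
  have hemb : ∀ i : J', ∃ φ : Sock (T (e i)) →+ X i ⧸ (N (e i) : AddSubgroup (X i)),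
      Function.Injective φ := fun i =>
    exists_sock_embedding fun p hp => (hJ1 _ (heJ i)).1 hp
  choose φ hφ using hemb
  have hb2 : Bad (∀ i : J', X i ⧸ (N (e i) : AddSubgroup (X i))) :=
    bad_of_discrete_family hb φ hφ
  refine (bad_of_restrict J' hb2
    (fun i => ⟨QuotientAddGroup.mk' (N (e i) : AddSubgroup (X i)), continuous_quot_mk⟩)
    (fun i => QuotientAddGroup.mk_surjective)
    (fun i => QuotientAddGroup.isOpenMap_coe)).not_stronglyReflexive hs

end weakCH

section characterisation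

open Cardinal

variable {I : Type u} {X : I → Type v} [∀ i, AddCommGroup (X i)] [∀ i, UniformSpace (X i)]
  [∀ i, IsUniformAddGroup (X i)] [∀ i, CompleteSpace (X i)] [∀ i, T2Space (X i)]
  [∀ i, NonarchimedeanAddGroup (X i)]

/-- Under `2 ^ ℵ₀ < 2 ^ ℵ₁`: the strongly reflexive products of prodiscrete groups with (A). -/
theorem prod_iff_of_weakCH (hCH : (2 : Cardinal.{0}) ^ ℵ₀ < 2 ^ ℵ₁) (hA : ∀ i, CondA (X i)) :
    StronglyReflexive (∀ i, X i) ↔ {i | ¬ ArtinianQuotients (X i)}.Countable :=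
  ⟨countable_of_weakCH hCH, stronglyReflexive_prod hA⟩

end characterisation

end Pool.Agent.Work.MP_c629c8_al
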