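import Mathlib
import Pool.Agent.Work.MP_c629c8_al.UnifMain
import Pool.Agent.Work.MP_c629c8_al.IndLim

/-!
# The number of factors that are not Artinian

If a product of topological abelian groups is strongly reflexive and `κ` is the number of the
factors with discrete quotients that are not Artinian, then `2 ^ κ ≤ 2 ^ ℵ₀`.
-/

universe u v

namespace Pool.Agent.Work.MP_c629c8_al

open Topology

section

variable {J : Type*} (T : J → Set ℕ) (x : J → ℕ → Bool)

/-- the functions whose value at the prime `p` depends only on the first `p` values of `x j` -/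
noncomputable def blockSub : AddSubgroup (∀ j, Sock (T j)) where
  carrier := {c | ∀ j k p, p ∈ T j → p ∈ T k → (∀ m < p, x j m = x k m) →
    Sock.ev (T j) p (c j) = Sock.ev (T k) p (c k)}
  zero_mem' := fun j k p _ _ _ => by simp
  add_mem' := fun {c d} hc hd j k p hj hk hjk => by
    simp only [Pi.add_apply, map_add]
    rw [hc j k p hj hk hjk, hd j k p hj hk hjk]
  neg_mem' := fun {c} hc j k p hj hk hjk => by
    simp only [Pi.neg_apply, map_neg]
    rw [hc j k p hj hk hjk]

lemma isClosed_blockSub : IsClosed (blockSub T x : Set (∀ j, Sock (T j))) := by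
  have h1 : (blockSub T x : Set (∀ j, Sock (T j))) = {c | ∀ j k p, p ∈ T j → p ∈ T k →
      (∀ m < p, x j m = x k m) → Sock.ev (T j) p (c j) = Sock.ev (T k) p (c k)} := rfl
  rw [h1]
  simp only [Set.ofPred_forall]
  refine isClosed_iInter fun j => isClosed_iInter fun k => isClosed_iInter fun p =>
    isClosed_iInter fun _ => isClosed_iInter fun _ => isClosed_iInter fun _ => ?_
  exact isClosed_eq ((continuous_of_discreteTopology (f := Sock.ev (T j) p)).comp
    (continuous_apply j)) ((continuous_of_discreteTopology (f := Sock.ev (T k) p)).comp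
    (continuous_apply k))

variable {T x}

/-- different sequences differ early -/
lemma finite_agree (hx : Function.Injective x) {j k : J} (h : j ≠ k) :
    {p : ℕ | ∀ m < p, x j m = x k m}.Finite := by
  obtain ⟨m, hm⟩ := Function.ne_iff.1 (hx.ne h)
  refine (Set.finite_Iic m).subset fun p hp => ?_
  by_contra hcon
  exact hm (hp m (not_le.1 hcon))

/-- the functions at one prime are small modulo the subgroup -/
lemma small_atPrime (hx : Function.Injective x)
    {W : Set ((∀ j, Sock (T j)) ⧸ blockSub T x)} (hW : W ∈ 𝓝 0) :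
    ∃ n₀, ∀ p, n₀ ≤ p → ∀ v : J → ZMod p, (QuotientAddGroup.mk (atPrime T p v) :
      (∀ j, Sock (T j)) ⧸ blockSub T x) ∈ W := by
  classical
  have h1 : (QuotientAddGroup.mk : (∀ j, Sock (T j)) → (∀ j, Sock (T j)) ⧸ blockSub T x) ⁻¹' W ∈
      𝓝 (0 : ∀ j, Sock (T j)) :=
    (continuous_quot_mk (r := QuotientAddGroup.leftRel (blockSub T x))).continuousAt.preimage_mem_nhds
      hW
  obtain ⟨F, hF⟩ := exists_coordOpen_sub h1
  have h2 : (⋃ y ∈ ((F ×ˢ F : Finset (J × J)) : Set (J × J)) ∩ {y | y.1 ≠ y.2},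
      {p : ℕ | ∀ m < p, x y.1 m = x y.2 m}).Finite := by
    apply Set.Finite.biUnion ((Finset.finite_toSet _).inter_of_left _)
    rintro ⟨j, k⟩ ⟨-, h⟩
    exact finite_agree hx h
  obtain ⟨n, hn⟩ := h2.bddAbove
  refine ⟨n + 1, fun p hp v => ?_⟩
  have h3 : ∀ j ∈ F, ∀ k ∈ F, (∀ m < p, x j m = x k m) → j = k := by
    intro j hj k hk hjk
    by_contra hne
    have h4 : p ≤ n := by
      apply hn
      simp only [Set.mem_iUnion]
      exact ⟨(j, k), ⟨by simp [hj, hk], hne⟩, hjk⟩
    omega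
  let c : J → ZMod p := fun j => if h : ∃ i ∈ F, ∀ m < p, x i m = x j m then v h.choose else 0
  have hc1 : ∀ j ∈ F, c j = v j := by
    intro j hj
    have h4 : ∃ i ∈ F, ∀ m < p, x i m = x j m := ⟨j, hj, fun _ _ => rfl⟩
    have h5 : h4.choose = j := h3 _ h4.choose_spec.1 _ hj h4.choose_spec.2
    simp only [c, dif_pos h4]
    rw [h5]
  have hc2 : ∀ j k, (∀ m < p, x j m = x k m) → c j = c k := by
    intro j k hjk
    by_cases h4 : ∃ i ∈ F, ∀ m < p, x i m = x j m
    · have h5 : ∃ i ∈ F, ∀ m < p, x i m = x k m := by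
        obtain ⟨i, hi, h⟩ := h4
        exact ⟨i, hi, fun m hm => (h m hm).trans (hjk m hm)⟩
      simp only [c, dif_pos h4, dif_pos h5]
      rw [h3 _ h4.choose_spec.1 _ h5.choose_spec.1 fun m hm =>
        (h4.choose_spec.2 m hm).trans ((hjk m hm).trans (h5.choose_spec.2 m hm).symm)]
    · have h5 : ¬ ∃ i ∈ F, ∀ m < p, x i m = x k m := by
        rintro ⟨i, hi, h⟩
        exact h4 ⟨i, hi, fun m hm => (h m hm).trans (hjk m hm).symm⟩
      simp only [c, dif_neg h4, dif_neg h5]
  have h4 : atPrime T p c ∈ blockSub T x := by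
    intro j k q hj hk hjk
    rw [atPrime_apply, atPrime_apply]
    by_cases hq : p = q
    · subst hq
      rw [Sock.ev_sg_same hj, Sock.ev_sg_same hk, hc2 j k hjk]
    · rw [Sock.ev_sg_ne hq, Sock.ev_sg_ne hq]
  have h5 : atPrime T p v - atPrime T p c ∈ coordOpen (fun j => Sock (T j)) F := by
    intro j hj
    rw [Pi.sub_apply, atPrime_apply, atPrime_apply, hc1 j hj, sub_self]
  have h6 : (QuotientAddGroup.mk (atPrime T p v) : (∀ j, Sock (T j)) ⧸ blockSub T x) =
      QuotientAddGroup.mk (atPrime T p v - atPrime T p c) := by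
    have h7 : (QuotientAddGroup.mk (atPrime T p c) : (∀ j, Sock (T j)) ⧸ blockSub T x) = 0 := by
      rwa [QuotientAddGroup.eq_zero_iff]
    have h8 : (QuotientAddGroup.mk (atPrime T p v - atPrime T p c) :
        (∀ j, Sock (T j)) ⧸ blockSub T x) =
        QuotientAddGroup.mk (atPrime T p v) - QuotientAddGroup.mk (atPrime T p c) := rfl
    rw [h8, h7, sub_zero]
  rw [h6]
  exact hF h5

/-- The colourings are given by functions of `p` and the first `p` values of `x j`. -/
theorem exists_block_unif (hx : Function.Injective x)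
    (hs : Function.Surjective (eta ((∀ j, Sock (T j)) ⧸ blockSub T x)))
    (f : ∀ p : ℕ, J → ZMod p) :
    ∃ h : ∀ p : ℕ, (Fin p → Bool) → ZMod p, ∀ j, {p ∈ T j | f p j ≠ h p fun m => x j m}.Finite := by
  classical
  obtain ⟨y, hy⟩ := Ind.exists_weak_limit
    (fun p => (QuotientAddGroup.mk (atPrime T p (f p)) : (∀ j, Sock (T j)) ⧸ blockSub T x)) (by
      intro W hW
      obtain ⟨n₀, hn₀⟩ := small_atPrime hx hW
      refine ⟨n₀, fun n hn j => ?_⟩
      have h1 := hn₀ n hn (j • f n)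
      rw [map_nsmul] at h1
      exact h1) hs
  obtain ⟨y, rfl⟩ := QuotientAddGroup.mk_surjective y
  have key : ∀ j k p, p ∈ T j → p ∈ T k → (∀ m < p, x j m = x k m) →
      Sock.ev (T j) p (y j) - Sock.ev (T k) p (y k) = f p j - f p k := by
    intro j k p hj hk hjk
    by_contra hne
    rw [← sub_eq_zero] at hne
    obtain ⟨θ, hθ⟩ := exists_char_ne_zero hne
    let Θ : Dual (∀ j, Sock (T j)) :=
      { toFun := fun c => θ (Sock.ev (T j) p (c j) - Sock.ev (T k) p (c k))
        map_zero' := by simp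
        map_add' := fun c d => by
          rw [← map_add]
          congr 1
          simp only [Pi.add_apply, map_add]
          abel
        continuous_toFun := by
          apply (continuous_of_discreteTopology (f := θ)).comp
          exact ((continuous_of_discreteTopology (f := Sock.ev (T j) p)).comp
            (continuous_apply j)).sub ((continuous_of_discreteTopology (f := Sock.ev (T k) p)).comp
            (continuous_apply k)) }
    have hΘ : ∀ c, Θ c = θ (Sock.ev (T j) p (c j) - Sock.ev (T k) p (c k)) := fun c => rfl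
    let χ : Dual ((∀ j, Sock (T j)) ⧸ blockSub T x) :=
      ⟨QuotientAddGroup.lift (blockSub T x) Θ.toAddMonoidHom (by
        intro c hc
        show Θ c = 0
        rw [hΘ, hc j k p hj hk hjk, sub_self, map_zero]), by
        apply continuous_quot_lift _ Θ.continuous_toFun⟩
    have hχ : ∀ c : (∀ j, Sock (T j)), χ (QuotientAddGroup.mk c) = Θ c := fun c => rfl
    obtain ⟨n₀, hn₀⟩ := hy χ
    have h1 := hn₀ (max n₀ (p + 1)) (le_max_left _ _)
    rw [hχ, map_sum, Finset.sum_eq_single p] at h1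
    · rw [hχ, hΘ, hΘ, atPrime_apply, atPrime_apply, Sock.ev_sg_same hj, Sock.ev_sg_same hk] at h1
      apply hθ
      rw [map_sub, h1, sub_self]
    · intro q _ hq
      rw [hχ, hΘ, atPrime_apply, atPrime_apply, Sock.ev_sg_ne hq, Sock.ev_sg_ne hq, sub_self,
        map_zero]
    · intro h
      exfalso
      apply h
      rw [Finset.mem_range]
      have := le_max_right n₀ (p + 1)
      omega
  refine ⟨fun p s => if h : ∃ j, p ∈ T j ∧ ∀ m : Fin p, x j m = s m then
    f p h.choose - Sock.ev (T h.choose) p (y h.choose) else 0, fun j => ?_⟩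
  refine (Sock.finite_ev (y j)).subset ?_
  rintro p ⟨hp, hne⟩ h0
  apply hne
  have h1 : ∃ k, p ∈ T k ∧ ∀ m : Fin p, x k m = (fun m : Fin p => x j m) m :=
    ⟨j, hp, fun _ => rfl⟩
  beta_reduce
  rw [dif_pos h1]
  have h2 := key j h1.choose p hp h1.choose_spec.1 fun m hm => (h1.choose_spec.2 ⟨m, hm⟩).symm
  rw [h0, zero_sub] at h2
  rw [sub_eq_add_neg, h2]
  abel

/-- the number of colourings -/
theorem exists_injective_block (hT : ∀ j, ∀ p ∈ T j, p.Prime) (hTi : ∀ j, (T j).Infinite)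
    (hx : Function.Injective x)
    (hs : Function.Surjective (eta ((∀ j, Sock (T j)) ⧸ blockSub T x))) :
    ∃ g : Set J → Set (Σ p : ℕ, Fin p → Bool), Function.Injective g := by
  classical
  choose h hh using fun E : Set J => exists_block_unif hx hs (fun p j => if j ∈ E then 1 else 0)
  have key : ∀ E E' : Set J, {s : Σ p : ℕ, Fin p → Bool | h E s.1 s.2 = 1} =
      {s | h E' s.1 s.2 = 1} → E ⊆ E' := by
    intro E E' heq j hj
    by_contra hj'
    apply hTi j
    refine ((hh E j).union (hh E' j)).subset ?_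
    intro p hp
    by_cases h1 : h E p (fun m => x j m) = 1
    · right
      refine ⟨hp, ?_⟩
      have h2 : h E' p (fun m => x j m) = 1 := by
        have : (⟨p, fun m => x j m⟩ : Σ p : ℕ, Fin p → Bool) ∈
            {s : Σ p : ℕ, Fin p → Bool | h E s.1 s.2 = 1} := h1
        rw [heq] at this
        exact this
      rw [if_neg hj', h2]
      have : Fact p.Prime := ⟨hT j p hp⟩
      exact zero_ne_one
    · left
      refine ⟨hp, ?_⟩
      rw [if_pos hj]
      exact fun h2 => h1 h2.symm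
  exact ⟨fun E => {s | h E s.1 s.2 = 1}, fun E E' heq =>
    Set.Subset.antisymm (key E E' heq) (key E' E heq.symm)⟩

end

section main

open Cardinal

/-- at most continuum many groups with infinitely many orders each -/
lemma bad_of_pow {J : Type u} {T : J → Set ℕ} (hT : ∀ j, ∀ p ∈ T j, p.Prime)
    (hTi : ∀ j, (T j).Infinite) (h1 : #J ≤ 𝔠) (h2 : (2 : Cardinal.{u}) ^ (ℵ₀ : Cardinal.{u}) < 2 ^ #J) :
    Bad (∀ j, Sock (T j)) := by
  have h3 : ∃ x : J → ℕ → Bool, Function.Injective x := by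
    have h4 : Cardinal.lift.{0} #J ≤ Cardinal.lift.{u} #(ℕ → Bool) := by
      simpa using h1
    obtain ⟨e⟩ := Cardinal.lift_mk_le'.1 h4
    exact ⟨e, e.injective⟩
  obtain ⟨x, hx⟩ := h3
  refine ⟨blockSub T x, isClosed_blockSub T x, fun hs => ?_⟩
  obtain ⟨g, hg⟩ := exists_injective_block hT hTi hx hs
  have h4 : Cardinal.lift.{0} #(Set J) ≤ Cardinal.lift.{u} #(Set (Σ p : ℕ, Fin p → Bool)) :=
    Cardinal.lift_mk_le'.2 ⟨⟨g, hg⟩⟩
  have h5 : #(Set (Σ p : ℕ, Fin p → Bool)) ≤ 2 ^ (ℵ₀ : Cardinal.{0}) := by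
    rw [Cardinal.mk_set]
    exact Cardinal.power_le_power_left two_ne_zero (Cardinal.mk_le_aleph0)
  have h6 : (2 : Cardinal.{u}) ^ #J ≤ 2 ^ (ℵ₀ : Cardinal.{u}) := by
    have h7 := Cardinal.lift_le.{u}.2 h5
    have h8 := h4.trans h7
    simpa using h8
  exact absurd h6 (not_le.2 h2)

variable {I : Type u} {X : I → Type v} [∀ i, AddCommGroup (X i)] [∀ i, TopologicalSpace (X i)]
  [∀ i, IsTopologicalAddGroup (X i)]

/-- If the product is strongly reflexive and `κ` is the number of the factors with discrete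
quotients that are not Artinian then `2 ^ κ ≤ 2 ^ ℵ₀`. -/
theorem two_power_le (hs : StronglyReflexive (∀ i, X i)) :
    (2 : Cardinal.{u}) ^ #{i | ¬ ArtinianQuotients (X i)} ≤ 2 ^ (ℵ₀ : Cardinal.{u}) := by
  have h1 := countable_torsion hs
  set C : Set I := {i | ¬ ∀ N : AddSubgroup (X i),
    IsOpen (N : Set (X i)) → (∀ x : X i ⧸ N, ∃ n : ℕ, 0 < n ∧ n • x = 0) ∧
      ∀ p : ℕ, p.Prime → {x : X i ⧸ N | p • x = 0}.Finite} with hC
  set K : Set I := {i | ¬ ArtinianQuotients (X i)} \ C with hK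
  -- it is enough to bound the cardinality of `K`
  have h2 : #{i | ¬ ArtinianQuotients (X i)} ≤ #K + ℵ₀ := by
    have h3 : {i | ¬ ArtinianQuotients (X i)} ⊆ K ∪ C := by
      intro i hi
      by_cases h4 : i ∈ C
      · exact Or.inr h4
      · exact Or.inl ⟨hi, h4⟩
    calc #{i | ¬ ArtinianQuotients (X i)} ≤ #(K ∪ C : Set I) := Cardinal.mk_le_mk_of_subset h3
      _ ≤ #K + #C := Cardinal.mk_union_le _ _
      _ ≤ #K + ℵ₀ := by
          gcongr
          exact Cardinal.le_aleph0_iff_set_countable.2 h1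
  suffices h3 : (2 : Cardinal.{u}) ^ #K ≤ 2 ^ (ℵ₀ : Cardinal.{u}) by
    calc (2 : Cardinal.{u}) ^ #{i | ¬ ArtinianQuotients (X i)} ≤ 2 ^ (#K + ℵ₀) :=
          Cardinal.power_le_power_left two_ne_zero h2
      _ = 2 ^ #K * 2 ^ (ℵ₀ : Cardinal.{u}) := Cardinal.power_add _ _ _
      _ ≤ 2 ^ (ℵ₀ : Cardinal.{u}) * 2 ^ (ℵ₀ : Cardinal.{u}) := by gcongr
      _ = 2 ^ (ℵ₀ : Cardinal.{u}) := by
          rw [← Cardinal.power_add, Cardinal.aleph0_add_aleph0]
  by_contra hcon
  rw [not_le] at hcon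
  -- a set of size at most continuum
  obtain ⟨J, hJK, hJ1, hJ2⟩ : ∃ J ⊆ K, #J ≤ 𝔠 ∧ (2 : Cardinal.{u}) ^ (ℵ₀ : Cardinal.{u}) < 2 ^ #J := by
    rcases le_total #K 𝔠 with h | h
    · exact ⟨K, subset_rfl, h, hcon⟩
    · obtain ⟨J, hJ, hJc⟩ := Cardinal.le_mk_iff_exists_subset.1 h
      refine ⟨J, hJ, hJc.le, ?_⟩
      rw [hJc, Cardinal.two_power_aleph0]
      exact Cardinal.cantor _
  -- the quotients
  have h3 : ∀ i : J, ∃ N : OpenAddSubgroup (X i),
      {p : ℕ | p.Prime ∧ ∃ x : X i ⧸ (N : AddSubgroup (X i)), x ≠ 0 ∧ p • x = 0}.Infinite := by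
    rintro ⟨i, hiJ⟩
    obtain ⟨hi1, hi2⟩ := hJK hiJ
    have hi3 : ¬ ArtinianQuotients (X i) := hi1
    unfold ArtinianQuotients at hi3
    push Not at hi3
    obtain ⟨N, hN, hNA⟩ := hi3
    have hi4 := not_not.1 hi2 N hN
    refine ⟨⟨N, hN⟩, fun hfin => hNA ?_⟩
    exact isArtinian_of_finite_primes hi4.1 hfin hi4.2
  choose N hN using h3
  have hb : Bad (∀ i : J, Sock
      {p : ℕ | p.Prime ∧ ∃ x : X i ⧸ (N i : AddSubgroup (X i)), x ≠ 0 ∧ p • x = 0}) :=
    bad_of_pow (fun i p hp => hp.1) hN hJ1 hJ2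
  have hemb : ∀ i : J, ∃ φ : Sock
      {p : ℕ | p.Prime ∧ ∃ x : X i ⧸ (N i : AddSubgroup (X i)), x ≠ 0 ∧ p • x = 0} →+
      X i ⧸ (N i : AddSubgroup (X i)), Function.Injective φ := fun i =>
    exists_sock_embedding fun p hp => hp
  choose φ hφ using hemb
  have hb2 : Bad (∀ i : J, X i ⧸ (N i : AddSubgroup (X i))) :=
    bad_of_discrete_family hb φ hφ
  exact (bad_of_restrict J hb2
    (fun i => ⟨QuotientAddGroup.mk' (N i : AddSubgroup (X i)), continuous_quot_mk⟩)
    (fun i => QuotientAddGroup.mk_surjective)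
    (fun i => QuotientAddGroup.isOpenMap_coe)).not_stronglyReflexive hs

/-- If the product is strongly reflexive then less than continuum many factors have discrete
quotients that are not Artinian. -/
theorem mk_lt_continuum (hs : StronglyReflexive (∀ i, X i)) :
    #{i | ¬ ArtinianQuotients (X i)} < 𝔠 := by
  by_contra hcon
  have h1 : (2 : Cardinal.{u}) ^ (𝔠 : Cardinal.{u}) ≤ 𝔠 := by
    calc (2 : Cardinal.{u}) ^ (𝔠 : Cardinal.{u}) ≤ 2 ^ #{i | ¬ ArtinianQuotients (X i)} :=
          Cardinal.power_le_power_left two_ne_zero (not_lt.1 hcon)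
      _ ≤ 2 ^ (ℵ₀ : Cardinal.{u}) := two_power_le hs
      _ = 𝔠 := Cardinal.two_power_aleph0
  exact absurd h1 (not_le.2 (Cardinal.cantor _))

end main

end Pool.Agent.Work.MP_c629c8_al
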