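import Pool.Agent.Work.MP_c629c8_al.Grp.NonArt
import Pool.Agent.Work.MP_c629c8_al.Mod.NDefs

/-!
# The criterion for products and its negation
-/

namespace Pool.Agent.Work.MP_c629c8_al

open Cardinal

/-- The criterion: a product of complete Hausdorff topological abelian groups with a basis at zero of
open subgroups and with condition (A) is strongly reflexive if and only if, for all but countably
many factors, all discrete quotients are Artinian. -/
def Criterion : Prop :=
  ∀ (I : Type) (X : I → Type) [∀ i, AddCommGroup (X i)] [∀ i, UniformSpace (X i)]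
    [∀ i, IsUniformAddGroup (X i)] [∀ i, CompleteSpace (X i)] [∀ i, T2Space (X i)]
    [∀ i, NonarchimedeanAddGroup (X i)], (∀ i, CondA (X i)) →
    (StronglyReflexive (∀ i, X i) ↔ {i | ¬ ArtinianQuotients (X i)}.Countable)

/-- There are an uncountable set `B` of sequences of natural numbers and an injective function `p`
from the set of the finite sequences of natural numbers to the set of prime numbers such that the
product over all `b ∈ B` of the discrete groups `⊕ ℤ/p(s)`, where `s` runs through the initial
segments of `b`, is strongly reflexive. -/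
def UncountableSR : Prop :=
  ∃ (B : Set (ℕ → ℕ)) (p : List ℕ → ℕ), ¬ B.Countable ∧ Function.Injective p ∧
    (∀ s, (p s).Prime) ∧ StronglyReflexive (∀ b : B, BranchGroup p (b : ℕ → ℕ))

theorem criterion_of_weakCH (h : (2 : Cardinal.{0}) ^ ℵ₀ < 2 ^ ℵ₁) : Criterion :=
  fun _ _ _ _ _ _ _ _ hA => prod_iff_of_weakCH h hA

theorem not_uncountableSR_of_weakCH (h : (2 : Cardinal.{0}) ^ ℵ₀ < 2 ^ ℵ₁) : ¬ UncountableSR := by
  rintro ⟨B, p, hB, -, hp, hs⟩
  exact hB (Set.countable_coe_iff.1 (countable_of_stronglyReflexive h hp hs))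

theorem not_criterion_of_uncountableSR (h : UncountableSR) : ¬ Criterion := by
  rintro hC
  obtain ⟨B, p, hB, -, hp, hs⟩ := h
  let u : ∀ b : B, UniformSpace (BranchGroup p (b : ℕ → ℕ)) := fun b => ⊥
  have hd : ∀ b : B, DiscreteUniformity (BranchGroup p (b : ℕ → ℕ)) := fun b => ⟨rfl⟩
  have hn : ∀ b : B, NonarchimedeanAddGroup (BranchGroup p (b : ℕ → ℕ)) := fun b =>
    { is_nonarchimedean := fun U hU => ⟨⟨⊥, isOpen_discrete _⟩, fun x hx => by
        have : x = 0 := hx
        rw [this]
        exact mem_of_mem_nhds hU⟩ }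
  have h1 := (hC B (fun b => BranchGroup p (b : ℕ → ℕ)) fun b => condA_of_discrete).1 hs
  have h2 : {b : B | ¬ ArtinianQuotients (BranchGroup p (b : ℕ → ℕ))} = Set.univ :=
    Set.eq_univ_of_forall fun i => not_artinianQuotients_branch hp
  rw [h2] at h1
  exact hB (Set.countable_coe_iff.1 (Set.countable_univ_iff.1 h1))

end Pool.Agent.Work.MP_c629c8_al
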